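import Pool.Agent.H28.NC.BarBase

/-!
# BLOCK BAR, part 2: augmentations of the two sided bar complex

* `augB`, `augB_isHom` : the augmentation; `actL`, `actR`, `actVL`, `actVR` : actions as maps;
* `qi_of_sectionL`, `qi_of_sectionR` : contractions from sections of the action;
* `augL`, `augR`, `augVL`, `augVR` with `qi_...` and `..._isHom`.
-/

set_option autoImplicit false

open scoped TensorProduct

noncomputable section

namespace NC

variable {k : Type} [Field k]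

/-! ### the augmentation -/

section

variable {R : DGA k} {X Y Z : SD k}

/-- the underlying map of the augmentation -/
def augF {X Y Z R : Type} [AddCommGroup X] [Module k X] [AddCommGroup Y] [Module k Y]
    [AddCommGroup Z] [Module k Z] [AddCommGroup R] [Module k R] (μ : X ⊗[k] Y →ₗ[k] Z) :
    Wd k X R ⊗[k] Y →ₗ[k] Z :=
  TensorProduct.lift (Wd.recW (TensorProduct.curry μ) 0 0)

@[simp] theorem augF_nil {X Y Z R : Type} [AddCommGroup X] [Module k X] [AddCommGroup Y]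
    [Module k Y] [AddCommGroup Z] [Module k Z] [AddCommGroup R] [Module k R]
    (μ : X ⊗[k] Y →ₗ[k] Z) (x : X) (y : Y) :
    augF (R := R) μ (Wd.nil x ⊗ₜ y) = μ (x ⊗ₜ y) := by
  simp [augF]

@[simp] theorem augF_snoc {X Y Z R : Type} [AddCommGroup X] [Module k X] [AddCommGroup Y]
    [Module k Y] [AddCommGroup Z] [Module k Z] [AddCommGroup R] [Module k R]
    (μ : X ⊗[k] Y →ₗ[k] Z) (w : Wd k X R) (r : R) (y : Y) :
    augF (R := R) μ (Wd.snoc w r ⊗ₜ y) = 0 := by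
  simp [augF]

/-- the augmentation of the bar complex: `nil x ⊗ y ↦ μ (x ⊗ y)`, zero on longer words -/
def augB (ρ : RA R X) (l : LA R Y) (μ : SD.Hom (X.tens Y) Z)
    (h : ∀ x r y, μ.f (ρ.act x r ⊗ₜ y) = μ.f (x ⊗ₜ l.act r y)) : SD.Hom (Bar ρ l) Z where
  f := augF μ.f
  D := fun v => by
    refine tens_ext (f := augF μ.f ∘ₗ barD ρ l) (g := Z.D ∘ₗ augF μ.f) (fun w y => ?_) v
    have htl : ∀ (w : Wd k X.V R.V) (r : R.V),
        augF μ.f (tl R ρ.act w r ⊗ₜ y) = augF μ.f (w ⊗ₜ l.act r y) := by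
      intro w r
      induction w using Wd.induction with
      | hadd a b ha hb =>
        simp only [map_add, LinearMap.add_apply, TensorProduct.add_tmul, ha, hb]
      | hnil x => simp only [tl_nil, augF_nil]; exact h x r y
      | hsnoc w _ t => simp only [tl_snoc, augF_snoc]
    induction w using Wd.induction with
    | hadd a b ha hb => rw [TensorProduct.add_tmul, map_add, map_add, ha, hb]
    | hnil x =>
      have h1 := μ.D (x ⊗ₜ y)
      simp only [LinearMap.comp_apply, barD_nil, map_add, augF_nil]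
      rw [← h1, ← map_add]
      rfl
    | hsnoc w _ r =>
      simp only [LinearMap.comp_apply, barD_snoc, map_add, map_sub, augF_snoc, htl, map_zero]
      abel
  P := fun v => by
    refine tens_ext (f := augF μ.f ∘ₗ barP X Y R) (g := Z.P ∘ₗ augF μ.f) (fun w y => ?_) v
    induction w using Wd.induction with
    | hadd a b ha hb => rw [TensorProduct.add_tmul, map_add, map_add, ha, hb]
    | hnil x =>
      have h1 := μ.P (x ⊗ₜ y)
      simp only [LinearMap.comp_apply, barP_tmul, PW_nil, ← map_sub, map_add, augF_nil]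
      rw [← h1, ← map_add]
      rfl
    | hsnoc w _ r =>
      simp only [LinearMap.comp_apply, barP_tmul, PW_snoc, TensorProduct.sub_tmul, map_add,
        map_sub, augF_snoc, map_zero]
      abel

theorem augB_f (ρ : RA R X) (l : LA R Y) (μ : SD.Hom (X.tens Y) Z)
    (h : ∀ x r y, μ.f (ρ.act x r ⊗ₜ y) = μ.f (x ⊗ₜ l.act r y)) :
    (augB ρ l μ h).f = augF μ.f := rfl

@[simp] theorem augB_nil (ρ : RA R X) (l : LA R Y) (μ : SD.Hom (X.tens Y) Z)
    (h : ∀ x r y, μ.f (ρ.act x r ⊗ₜ y) = μ.f (x ⊗ₜ l.act r y)) (x : X.V) (y : Y.V) :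
    (augB ρ l μ h).f (Wd.nil x ⊗ₜ y) = μ.f (x ⊗ₜ y) := augF_nil μ.f x y

@[simp] theorem augB_snoc (ρ : RA R X) (l : LA R Y) (μ : SD.Hom (X.tens Y) Z)
    (h : ∀ x r y, μ.f (ρ.act x r ⊗ₜ y) = μ.f (x ⊗ₜ l.act r y)) (w : Wd k X.V R.V) (r : R.V)
    (y : Y.V) : (augB ρ l μ h).f (Wd.snoc w r ⊗ₜ y) = 0 := augF_snoc μ.f w r y

theorem augB_isHom {S T : DGA k} {bX : Bi S R X} {bY : Bi R T Y} {bZ : Bi S T Z}
    {μ : SD.Hom (X.tens Y) Z}
    (h : ∀ x r y, μ.f (bX.r.act x r ⊗ₜ y) = μ.f (x ⊗ₜ bY.l.act r y))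
    (hμ : (Bi.tensLR bX.l bY.r).IsHom bZ μ) :
    (bX.bar bY).IsHom bZ (augB bX.r bY.l μ h) where
  l := fun s v => by
    change augF μ.f (LinearMap.rTensorHom Y.V (hd R bX.l s) v) = bZ.l.act s (augF μ.f v)
    refine tens_ext (f := augF μ.f ∘ₗ LinearMap.rTensorHom Y.V (hd R bX.l s))
      (g := bZ.l.act s ∘ₗ augF μ.f) (fun w y => ?_) v
    change augF μ.f (hd R bX.l s w ⊗ₜ y) = bZ.l.act s (augF μ.f (w ⊗ₜ y))
    induction w using Wd.induction with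
    | hadd a b ha hb => simp only [map_add, TensorProduct.add_tmul, ha, hb]
    | hnil x => rw [hd_nil, augF_nil, augF_nil]; exact hμ.l s (x ⊗ₜ y)
    | hsnoc w _ r => rw [hd_snoc, augF_snoc, augF_snoc, map_zero]
  r := fun v t => by
    change augF μ.f (LinearMap.lTensorHom (Wd k X.V R.V) (bY.r.act.flip t) v) =
      bZ.r.act (augF μ.f v) t
    refine tens_ext (f := augF μ.f ∘ₗ LinearMap.lTensorHom (Wd k X.V R.V) (bY.r.act.flip t))
      (g := bZ.r.act.flip t ∘ₗ augF μ.f) (fun w y => ?_) v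
    change augF μ.f (w ⊗ₜ bY.r.act y t) = bZ.r.act (augF μ.f (w ⊗ₜ y)) t
    induction w using Wd.induction with
    | hadd a b ha hb =>
      simp only [map_add, TensorProduct.add_tmul, ha, hb, LinearMap.add_apply]
    | hnil x => rw [augF_nil, augF_nil]; exact hμ.r (x ⊗ₜ y) t
    | hsnoc w _ r => rw [augF_snoc, augF_snoc, map_zero, LinearMap.zero_apply]

/-- the action as a map `R ⊗ Y → Y` -/
def actL (l : LA R Y) : SD.Hom (R.toSD.tens Y) Y where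
  f := TensorProduct.lift l.act
  D := fun v => by
    refine tens_ext (f := TensorProduct.lift l.act ∘ₗ SD.tD R.toSD Y)
      (g := Y.D ∘ₗ TensorProduct.lift l.act) (fun r y => ?_) v
    simp [l.D_act]
  P := fun v => by
    refine tens_ext (f := TensorProduct.lift l.act ∘ₗ SD.tP R.toSD Y)
      (g := Y.P ∘ₗ TensorProduct.lift l.act) (fun r y => ?_) v
    simp only [LinearMap.comp_apply, SD.tP_tmul, map_add, TensorProduct.lift.tmul, l.P_act]

/-- the action as a map `X ⊗ R → X` -/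
def actR (ρ : RA R X) : SD.Hom (X.tens R.toSD) X where
  f := TensorProduct.lift ρ.act
  D := fun v => by
    refine tens_ext (f := TensorProduct.lift ρ.act ∘ₗ SD.tD X R.toSD)
      (g := X.D ∘ₗ TensorProduct.lift ρ.act) (fun r y => ?_) v
    simp [ρ.D_act]
  P := fun v => by
    refine tens_ext (f := TensorProduct.lift ρ.act ∘ₗ SD.tP X R.toSD)
      (g := X.P ∘ₗ TensorProduct.lift ρ.act) (fun r y => ?_) v
    simp only [LinearMap.comp_apply, SD.tP_tmul, map_add, TensorProduct.lift.tmul, ρ.P_act]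

@[simp] theorem actL_tmul (l : LA R Y) (r : R.V) (y : Y.V) :
    (actL l).f (r ⊗ₜ y) = l.act r y := rfl
@[simp] theorem actR_tmul (ρ : RA R X) (x : X.V) (r : R.V) :
    (actR ρ).f (x ⊗ₜ r) = ρ.act x r := rfl

/-- `Bar(R, R, Y) → Y` -/
def augL (l : LA R Y) : SD.Hom (Bar R.diag.r l) Y :=
  augB R.diag.r l (actL l) (fun x r y => by
    rw [actL_tmul, actL_tmul]; exact l.mul_act x r y)

/-- `Bar(X, R, R) → X` -/
def augR (ρ : RA R X) : SD.Hom (Bar ρ R.diag.l) X :=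
  augB ρ R.diag.l (actR ρ) (fun x r y => by
    rw [actR_tmul, actR_tmul]; exact ρ.act_mul x r y)

/-! ### contraction from a section on the head -/

/-- `x ⊗ r ↦ snoc (nil (E x)) r` -/
def snocN (X : SD k) (R : DGA k) : X.V ⊗[k] R.V →ₗ[k] Wd k X.V R.V :=
  TensorProduct.lift (Wd.snoc ∘ₗ (Wd.nil ∘ₗ X.E))

@[simp] theorem snocN_tmul (X : SD k) (R : DGA k) (x : X.V) (r : R.V) :
    snocN X R (x ⊗ₜ r) = Wd.snoc (Wd.nil (X.E x)) r := rfl

/-- the insertion of a unit after the head -/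
def iotaL (σ : X.V →ₗ[k] X.V ⊗[k] R.V) : Wd k X.V R.V →ₗ[k] Wd k X.V R.V :=
  Wd.recW (snocN X R ∘ₗ σ) 0 Wd.snoc

@[simp] theorem iotaL_nil (σ : X.V →ₗ[k] X.V ⊗[k] R.V) (x : X.V) :
    iotaL σ (Wd.nil x) = snocN X R (σ x) := by simp [iotaL]
@[simp] theorem iotaL_snoc (σ : X.V →ₗ[k] X.V ⊗[k] R.V) (w : Wd k X.V R.V) (r : R.V) :
    iotaL σ (Wd.snoc w r) = Wd.snoc (iotaL σ w) r := by simp [iotaL]

theorem iotaL_E (σ : SD.Hom X (X.tens R.toSD)) (w : Wd k X.V R.V) :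
    EW X R.toSD (iotaL (R := R) σ.f w) = - iotaL (R := R) σ.f (EW X R.toSD w) := by
  induction w using Wd.induction with
  | hadd a b ha hb => simp only [map_add, ha, hb]; abel
  | hnil x =>
    rw [iotaL_nil, EW_nil, iotaL_nil, σ.E]
    have h1 : ∀ t : X.V ⊗[k] R.V, EW X R.toSD (snocN X R t) =
        - snocN X R ((X.tens R.toSD).E t) := by
      intro t
      rw [SD.tens_E_eq]
      refine tens_ext (f := EW X R.toSD ∘ₗ snocN X R)
        (g := -(snocN X R ∘ₗ TensorProduct.map X.E R.E)) (fun x r => ?_) t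
      simp
    exact h1 _
  | hsnoc w hw r => simp [hw]

theorem iotaL_tl {ρ : RA R X} {σ : SD.Hom X (X.tens R.toSD)}
    (hσ : ρ.IsHom (R.diag.r.tensR X) σ) (w : Wd k X.V R.V) (r : R.V) :
    tl R ρ.act (iotaL (R := R) σ.f w) r = iotaL (R := R) σ.f (tl R ρ.act w r) := by
  induction w using Wd.induction with
  | hadd a b ha hb => simp only [map_add, LinearMap.add_apply, ha, hb]
  | hnil x =>
    rw [iotaL_nil, tl_nil, iotaL_nil, hσ x r]
    have h1 : ∀ t : X.V ⊗[k] R.V, tl R ρ.act (snocN X R t) r =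
        snocN X R ((R.diag.r.tensR X).act t r) := by
      intro t
      refine tens_ext (f := (tl R ρ.act).flip r ∘ₗ snocN X R)
        (g := snocN X R ∘ₗ (R.diag.r.tensR X).act.flip r) (fun x s => ?_) t
      simp only [LinearMap.comp_apply, LinearMap.flip_apply, snocN_tmul, tl_snoc]
      rfl
    exact h1 _
  | hsnoc w hw s => simp

theorem iotaL_Db {ρ : RA R X} {σ : SD.Hom X (X.tens R.toSD)}
    (hσ : ρ.IsHom (R.diag.r.tensR X) σ) (hσ1 : ∀ x, (actR ρ).f (σ.f x) = x)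
    (w : Wd k X.V R.V) :
    Db ρ (iotaL (R := R) σ.f w) + iotaL (R := R) σ.f (Db ρ w) = w := by
  induction w using Wd.induction with
  | hadd a b ha hb =>
    have h1 : a + b = (Db ρ (iotaL (R := R) σ.f a) + iotaL (R := R) σ.f (Db ρ a)) +
        (Db ρ (iotaL (R := R) σ.f b) + iotaL (R := R) σ.f (Db ρ b)) := by rw [ha, hb]
    refine Eq.trans ?_ h1.symm
    simp only [map_add]
    abel
  | hnil x =>
    rw [iotaL_nil, Db_nil, iotaL_nil, σ.D]
    have h1 : ∀ t : X.V ⊗[k] R.V, Db ρ (snocN X R t) + snocN X R ((X.tens R.toSD).D t) =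
        Wd.nil ((actR ρ).f t) := by
      intro t
      refine tens_ext (f := Db ρ ∘ₗ snocN X R + snocN X R ∘ₗ SD.tD X R.toSD)
        (g := Wd.nil ∘ₗ (actR ρ).f) (fun x s => ?_) t
      simp only [LinearMap.comp_apply, LinearMap.add_apply, snocN_tmul, Db_snoc, Db_nil,
        SD.tD_tmul, map_add, EW_nil, X.EE, tl_nil, X.DE, map_neg,
        LinearMap.neg_apply]
      have h2 : (actR ρ).f (x ⊗ₜ s) = ρ.act x s := rfl
      rw [h2]
      abel
    rw [h1, hσ1]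
  | hsnoc w hw r =>
    have h1 : Wd.snoc w r = Wd.snoc (Db ρ (iotaL (R := R) σ.f w)) r +
        Wd.snoc (iotaL (R := R) σ.f (Db ρ w)) r := by
      rw [← LinearMap.add_apply, ← map_add, hw]
    refine Eq.trans ?_ h1.symm
    simp only [iotaL_snoc, Db_snoc, map_add, map_sub, iotaL_E, map_neg, LinearMap.neg_apply,
      ← iotaL_tl hσ]
    abel

/-- the homotopy `iotaL ⊗ 1` -/
theorem htpyL (ρ : RA R X) (l : LA R Y) (μ : SD.Hom (X.tens Y) Z)
    (σ : SD.Hom X (X.tens R.toSD)) (hσ : ρ.IsHom (R.diag.r.tensR X) σ)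
    (hσ1 : ∀ x, (actR ρ).f (σ.f x) = x) (g : SD.Hom Z (Bar ρ l))
    (hg : ∀ x y, g.f (μ.f (x ⊗ₜ y)) = lam (X := X) l (snocN X R (σ.f x) ⊗ₜ y))
    (v : Wd k X.V R.V ⊗[k] Y.V) :
    barD ρ l (TensorProduct.map (iotaL (R := R) σ.f) LinearMap.id v) +
      TensorProduct.map (iotaL (R := R) σ.f) LinearMap.id (barD ρ l v) =
        v - g.f (augF μ.f v) := by
  refine tens_ext (f := barD ρ l ∘ₗ TensorProduct.map (iotaL (R := R) σ.f) LinearMap.id +
      TensorProduct.map (iotaL (R := R) σ.f) LinearMap.id ∘ₗ barD ρ l)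
    (g := LinearMap.id - g.f ∘ₗ augF μ.f) (fun w y => ?_) v
  have e4 : lam (X := X) l (iotaL (R := R) σ.f w ⊗ₜ y) +
      TensorProduct.map (iotaL (R := R) σ.f) LinearMap.id (lam (X := X) l (w ⊗ₜ y)) =
        g.f (augF μ.f (w ⊗ₜ y)) := by
    induction w using Wd.induction with
    | hadd a b ha hb =>
      simp only [map_add, TensorProduct.add_tmul, ← ha, ← hb]; abel
    | hnil x => rw [iotaL_nil, lam_nil, map_zero, add_zero, augF_nil, hg]
    | hsnoc w _ r =>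
      rw [iotaL_snoc, lam_snoc, lam_snoc, TensorProduct.map_tmul, iotaL_E, augF_snoc, map_zero,
        TensorProduct.neg_tmul, LinearMap.id_apply, neg_add_cancel]
  have e5 : w ⊗ₜ[k] y = Db ρ (iotaL (R := R) σ.f w) ⊗ₜ[k] y +
      iotaL (R := R) σ.f (Db ρ w) ⊗ₜ[k] y := by
    rw [← TensorProduct.add_tmul, iotaL_Db hσ hσ1]
  simp only [LinearMap.comp_apply, LinearMap.add_apply, LinearMap.sub_apply,
    LinearMap.id_apply, TensorProduct.map_tmul, barD_tmul, map_add, map_sub, iotaL_E,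
    TensorProduct.neg_tmul, ← e4]
  rw [e5]
  abel

theorem qi_of_sectionL (ρ : RA R X) (l : LA R Y) (μ : SD.Hom (X.tens Y) Z)
    (h : ∀ x r y, μ.f (ρ.act x r ⊗ₜ y) = μ.f (x ⊗ₜ l.act r y))
    (σ : SD.Hom X (X.tens R.toSD)) (hσ : ρ.IsHom (R.diag.r.tensR X) σ)
    (hσ1 : ∀ x, (actR ρ).f (σ.f x) = x) (g : SD.Hom Z (Bar ρ l))
    (hg : ∀ x y, g.f (μ.f (x ⊗ₜ y)) = lam (X := X) l (snocN X R (σ.f x) ⊗ₜ y))
    (hZ : ∀ z, (augB ρ l μ h).f (g.f z) = z) : (augB ρ l μ h).QI := by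
  refine BM.qi_of_htpy g (TensorProduct.map (iotaL (R := R) σ.f) LinearMap.id) 0
    (fun v => htpyL ρ l μ σ hσ hσ1 g hg v) (fun z => ?_)
  rw [hZ, sub_self, LinearMap.zero_apply, LinearMap.zero_apply, map_zero, add_zero]

/-! ### contraction from a section on the tail -/

theorem barD_rT_snoc (ρ : RA R X) (l : LA R Y) (w : Wd k X.V R.V) (t : R.V ⊗[k] Y.V) :
    barD ρ l (LinearMap.rTensor Y.V (Wd.snoc w) t) =
      LinearMap.rTensor Y.V (Wd.snoc (Db ρ w)) t -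
        LinearMap.rTensor Y.V (Wd.snoc (EW X R.toSD w)) ((R.toSD.tens Y).D t) +
        LinearMap.rTensor Y.V (tl R ρ.act (EW X R.toSD w)) t -
        EW X R.toSD w ⊗ₜ (actL l).f t := by
  refine tens_ext (f := barD ρ l ∘ₗ LinearMap.rTensor Y.V (Wd.snoc w))
    (g := LinearMap.rTensor Y.V (Wd.snoc (Db ρ w)) -
        LinearMap.rTensor Y.V (Wd.snoc (EW X R.toSD w)) ∘ₗ SD.tD R.toSD Y +
        LinearMap.rTensor Y.V (tl R ρ.act (EW X R.toSD w)) -
        (TensorProduct.mk k (Wd k X.V R.V) Y.V (EW X R.toSD w)) ∘ₗ (actL l).f)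
    (fun r y => ?_) t
  simp only [LinearMap.comp_apply, LinearMap.sub_apply, LinearMap.add_apply,
    LinearMap.rTensor_tmul, barD_snoc, SD.tD_tmul, map_add, TensorProduct.mk_apply]
  have : (actL l).f (r ⊗ₜ y) = l.act r y := rfl
  rw [this]
  abel

/-- the homotopy `w ⊗ y ↦ - (snoc (E w) ⊗ 1) (σ y)` -/
def secS (X : SD k) (σ : Y.V →ₗ[k] R.V ⊗[k] Y.V) :
    Wd k X.V R.V ⊗[k] Y.V →ₗ[k] Wd k X.V R.V ⊗[k] Y.V :=
  -TensorProduct.lift ((LinearMap.rTensorHom Y.V ∘ₗ Wd.snoc ∘ₗ EW X R.toSD).compl₂ σ)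

theorem secS_tmul (X : SD k) (σ : Y.V →ₗ[k] R.V ⊗[k] Y.V) (w : Wd k X.V R.V) (y : Y.V) :
    secS X σ (w ⊗ₜ y) = - LinearMap.rTensor Y.V (Wd.snoc (EW X R.toSD w)) (σ y) := rfl

theorem htpyR (ρ : RA R X) (l : LA R Y) (μ : SD.Hom (X.tens Y) Z)
    (σ : SD.Hom Y (R.toSD.tens Y)) (hσ : l.IsHom (R.diag.l.tensL Y) σ)
    (hσ1 : ∀ y, (actL l).f (σ.f y) = y) (g : SD.Hom Z (Bar ρ l))
    (hg : ∀ x y, g.f (μ.f (x ⊗ₜ y)) = LinearMap.rTensor Y.V (tl R ρ.act (Wd.nil x)) (σ.f y))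
    (v : Wd k X.V R.V ⊗[k] Y.V) :
    barD ρ l (secS X σ.f v) + secS X σ.f (barD ρ l v) = v - g.f (augF μ.f v) := by
  refine tens_ext (f := barD ρ l ∘ₗ secS X σ.f + secS X σ.f ∘ₗ barD ρ l)
    (g := LinearMap.id - g.f ∘ₗ augF μ.f) (fun w y => ?_) v
  have e4 : LinearMap.rTensor Y.V (tl R ρ.act w) (σ.f y) +
      secS X σ.f (lam (X := X) l (w ⊗ₜ y)) = g.f (augF μ.f (w ⊗ₜ y)) := by
    induction w using Wd.induction with
    | hadd a b ha hb =>
      simp only [map_add, TensorProduct.add_tmul, ← ha, ← hb, LinearMap.rTensor_add,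
        LinearMap.add_apply]
      abel
    | hnil x => rw [lam_nil, map_zero, add_zero, augF_nil, hg]
    | hsnoc u _ r =>
      have h1 : ∀ t : R.V ⊗[k] Y.V, LinearMap.rTensor Y.V (tl R ρ.act (Wd.snoc u r)) t =
          LinearMap.rTensor Y.V (Wd.snoc u) ((R.diag.l.tensL Y).act r t) := by
        intro t
        refine tens_ext (f := LinearMap.rTensor Y.V (tl R ρ.act (Wd.snoc u r)))
          (g := LinearMap.rTensor Y.V (Wd.snoc u) ∘ₗ (R.diag.l.tensL Y).act r)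
          (fun s z => ?_) t
        simp only [LinearMap.comp_apply, LinearMap.rTensor_tmul, tl_snoc]
        rfl
      rw [lam_snoc, secS_tmul, EW_EW, hσ, h1, augF_snoc, map_zero, add_neg_cancel]
  simp only [LinearMap.comp_apply, LinearMap.add_apply, LinearMap.sub_apply,
    LinearMap.id_apply, barD_tmul, map_add, map_sub, secS_tmul, map_neg, barD_rT_snoc, Db_EW,
    EW_EW, hσ1, σ.D, LinearMap.rTensor_neg, LinearMap.neg_apply, ← e4]
  abel

theorem qi_of_sectionR (ρ : RA R X) (l : LA R Y) (μ : SD.Hom (X.tens Y) Z)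
    (h : ∀ x r y, μ.f (ρ.act x r ⊗ₜ y) = μ.f (x ⊗ₜ l.act r y))
    (σ : SD.Hom Y (R.toSD.tens Y)) (hσ : l.IsHom (R.diag.l.tensL Y) σ)
    (hσ1 : ∀ y, (actL l).f (σ.f y) = y) (g : SD.Hom Z (Bar ρ l))
    (hg : ∀ x y, g.f (μ.f (x ⊗ₜ y)) = LinearMap.rTensor Y.V (tl R ρ.act (Wd.nil x)) (σ.f y))
    (hZ : ∀ z, (augB ρ l μ h).f (g.f z) = z) : (augB ρ l μ h).QI := by
  refine BM.qi_of_htpy g (secS X σ.f) 0 (fun v => htpyR ρ l μ σ hσ hσ1 g hg v) (fun z => ?_)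
  rw [hZ, sub_self, LinearMap.zero_apply, LinearMap.zero_apply, map_zero, add_zero]

end

/-! ### standard morphisms -/

section

variable {R : DGA k} {X Y Z : SD k}

/-- `y ↦ 1 ⊗ y` -/
def unitL (R : DGA k) (Y : SD k) : SD.Hom Y (R.toSD.tens Y) where
  f := TensorProduct.mk k R.V Y.V 1
  D := fun y => by
    change (1 : R.V) ⊗ₜ[k] Y.D y = SD.tD R.toSD Y ((1 : R.V) ⊗ₜ[k] y)
    rw [SD.tD_tmul, R.D_one, R.E_one, TensorProduct.zero_tmul, zero_add]
  P := fun y => by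
    change (1 : R.V) ⊗ₜ[k] Y.P y = SD.tP R.toSD Y ((1 : R.V) ⊗ₜ[k] y)
    have h1 : R.P (1 : R.V) = 1 := R.P_one
    rw [SD.tP_tmul, h1, sub_self, TensorProduct.zero_tmul, add_zero]

/-- `x ↦ x ⊗ 1` -/
def unitR (R : DGA k) (X : SD k) : SD.Hom X (X.tens R.toSD) where
  f := (TensorProduct.mk k X.V R.V).flip 1
  D := fun x => by
    change X.D x ⊗ₜ[k] (1 : R.V) = SD.tD X R.toSD (x ⊗ₜ[k] (1 : R.V))
    rw [SD.tD_tmul, R.D_one, TensorProduct.tmul_zero, add_zero]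
  P := fun x => by
    change X.P x ⊗ₜ[k] (1 : R.V) = SD.tP X R.toSD (x ⊗ₜ[k] (1 : R.V))
    have h1 : R.P (1 : R.V) = 1 := R.P_one
    rw [SD.tP_tmul, h1, sub_self, TensorProduct.tmul_zero, add_zero]

@[simp] theorem unitL_f (y : Y.V) : (unitL R Y).f y = (1 : R.V) ⊗ₜ y := rfl
@[simp] theorem unitR_f (x : X.V) : (unitR R X).f x = x ⊗ₜ (1 : R.V) := rfl

/-- identities of linear maps on triple tensor products -/
theorem tens_ext3 {X Y Z W : Type} [AddCommGroup X] [Module k X] [AddCommGroup Y] [Module k Y]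
    [AddCommGroup Z] [Module k Z] [AddCommGroup W] [Module k W]
    {f g : (X ⊗[k] Y) ⊗[k] Z →ₗ[k] W}
    (h : ∀ x y z, f ((x ⊗ₜ y) ⊗ₜ z) = g ((x ⊗ₜ y) ⊗ₜ z)) (v : (X ⊗[k] Y) ⊗[k] Z) :
    f v = g v := by
  have : f = g := TensorProduct.ext_threefold h
  rw [this]

/-- the associator -/
def assocS (X Y Z : SD k) : SD.Hom ((X.tens Y).tens Z) (X.tens (Y.tens Z)) where
  f := (TensorProduct.assoc k X.V Y.V Z.V).toLinearMap
  D := fun v => by
    refine tens_ext3 (f := (TensorProduct.assoc k X.V Y.V Z.V).toLinearMap ∘ₗ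
        SD.tD (X.tens Y) Z)
      (g := SD.tD X (Y.tens Z) ∘ₗ (TensorProduct.assoc k X.V Y.V Z.V).toLinearMap)
      (fun x y z => ?_) v
    change TensorProduct.assoc k X.V Y.V Z.V (SD.tD (X.tens Y) Z ((x ⊗ₜ y) ⊗ₜ z)) =
      SD.tD X (Y.tens Z) (x ⊗ₜ (y ⊗ₜ z))
    rw [SD.tD_tmul, SD.tD_tmul, SD.tens_E, map_add]
    change TensorProduct.assoc k X.V Y.V Z.V (SD.tD X Y (x ⊗ₜ y) ⊗ₜ z) + _ =
      _ + X.E x ⊗ₜ SD.tD Y Z (y ⊗ₜ z)
    rw [SD.tD_tmul, SD.tD_tmul, TensorProduct.add_tmul, TensorProduct.tmul_add, map_add]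
    simp only [TensorProduct.assoc_tmul, TensorProduct.map_tmul, LinearMap.id_apply]
    abel
  P := fun v => by
    refine tens_ext3 (f := (TensorProduct.assoc k X.V Y.V Z.V).toLinearMap ∘ₗ
        SD.tP (X.tens Y) Z)
      (g := SD.tP X (Y.tens Z) ∘ₗ (TensorProduct.assoc k X.V Y.V Z.V).toLinearMap)
      (fun x y z => ?_) v
    change TensorProduct.assoc k X.V Y.V Z.V (SD.tP (X.tens Y) Z ((x ⊗ₜ y) ⊗ₜ z)) =
      SD.tP X (Y.tens Z) (x ⊗ₜ (y ⊗ₜ z))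
    rw [SD.tP_tmul, SD.tP_tmul, map_add]
    change TensorProduct.assoc k X.V Y.V Z.V (SD.tP X Y (x ⊗ₜ y) ⊗ₜ Z.P z) +
        TensorProduct.assoc k X.V Y.V Z.V ((x ⊗ₜ y - SD.tP X Y (x ⊗ₜ y)) ⊗ₜ (z - Z.P z)) =
      X.P x ⊗ₜ SD.tP Y Z (y ⊗ₜ z) +
        (x - X.P x) ⊗ₜ (y ⊗ₜ z - SD.tP Y Z (y ⊗ₜ z))
    rw [SD.tP_tmul, SD.tP_tmul]
    simp only [TensorProduct.sub_tmul, TensorProduct.tmul_sub, TensorProduct.add_tmul,
      TensorProduct.tmul_add, map_add, map_sub, TensorProduct.assoc_tmul]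
    abel

/-- the inverse of the associator -/
def assocS' (X Y Z : SD k) : SD.Hom (X.tens (Y.tens Z)) ((X.tens Y).tens Z) where
  f := (TensorProduct.assoc k X.V Y.V Z.V).symm.toLinearMap
  D := fun v => by
    have h := (assocS X Y Z).D ((TensorProduct.assoc k X.V Y.V Z.V).symm v)
    have h2 : (assocS X Y Z).f ((TensorProduct.assoc k X.V Y.V Z.V).symm v) = v :=
      (TensorProduct.assoc k X.V Y.V Z.V).apply_symm_apply v
    rw [h2] at h
    rw [← h]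
    exact (TensorProduct.assoc k X.V Y.V Z.V).symm_apply_apply _
  P := fun v => by
    have h := (assocS X Y Z).P ((TensorProduct.assoc k X.V Y.V Z.V).symm v)
    have h2 : (assocS X Y Z).f ((TensorProduct.assoc k X.V Y.V Z.V).symm v) = v :=
      (TensorProduct.assoc k X.V Y.V Z.V).apply_symm_apply v
    rw [h2] at h
    rw [← h]
    exact (TensorProduct.assoc k X.V Y.V Z.V).symm_apply_apply _

@[simp] theorem assocS_tmul (X Y Z : SD k) (x : X.V) (y : Y.V) (z : Z.V) :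
    (assocS X Y Z).f ((x ⊗ₜ y) ⊗ₜ z) = x ⊗ₜ (y ⊗ₜ z) := rfl
@[simp] theorem assocS'_tmul (X Y Z : SD k) (x : X.V) (y : Y.V) (z : Z.V) :
    (assocS' X Y Z).f (x ⊗ₜ (y ⊗ₜ z)) = (x ⊗ₜ y) ⊗ₜ z := rfl

/-- the inclusion of the words of length zero -/
def nilB (ρ : RA R X) (l : LA R Y) : SD.Hom (X.tens Y) (Bar ρ l) where
  f := LinearMap.rTensor Y.V Wd.nil
  D := fun v => by
    refine tens_ext (f := LinearMap.rTensor Y.V Wd.nil ∘ₗ SD.tD X Y)
      (g := barD ρ l ∘ₗ LinearMap.rTensor Y.V Wd.nil) (fun x y => ?_) v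
    simp
  P := fun v => by
    refine tens_ext (f := LinearMap.rTensor Y.V Wd.nil ∘ₗ SD.tP X Y)
      (g := barP X Y R ∘ₗ LinearMap.rTensor Y.V Wd.nil) (fun x y => ?_) v
    simp

@[simp] theorem nilB_tmul (ρ : RA R X) (l : LA R Y) (x : X.V) (y : Y.V) :
    (nilB ρ l).f (x ⊗ₜ y) = Wd.nil x ⊗ₜ y := rfl

theorem qi_augL (l : LA R Y) (h1 : ∀ y, l.act 1 y = y) : (augL l).QI := by
  refine qi_of_sectionL R.diag.r l (actL l) _ (unitL R R.toSD) (fun x r => rfl)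
    (fun x => one_mul x) ((nilB R.diag.r l).comp (unitL R Y)) (fun x y => ?_) (fun z => ?_)
  · change Wd.nil (1 : R.V) ⊗ₜ[k] l.act x y =
      lam (X := R.toSD) l (Wd.snoc (Wd.nil (R.E 1)) x ⊗ₜ y)
    rw [lam_snoc, EW_nil, R.EE]
  · change augF (actL l).f (Wd.nil (1 : R.V) ⊗ₜ z) = z
    rw [augF_nil]
    exact h1 z

theorem qi_augR (ρ : RA R X) (h1 : ∀ x, ρ.act x 1 = x) : (augR ρ).QI := by
  refine qi_of_sectionR ρ R.diag.l (actR ρ) _ (unitR R R.toSD) (fun x r => rfl)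
    (fun x => mul_one x) ((nilB ρ R.diag.l).comp (unitR R X)) (fun x y => ?_) (fun z => ?_)
  · change Wd.nil (ρ.act x y) ⊗ₜ[k] (1 : R.V) = tl R ρ.act (Wd.nil x) y ⊗ₜ[k] (1 : R.V)
    rw [tl_nil]
  · change augF (actR ρ).f (Wd.nil z ⊗ₜ (1 : R.V)) = z
    rw [augF_nil]
    exact h1 z

theorem augL_isHom {T : DGA k} (b : Bi R T Y) : (R.diag.bar b).IsHom b (augL b.l) := by
  refine augB_isHom _ ⟨fun s v => ?_, fun v t => ?_⟩
  · refine tens_ext (f := (actL b.l).f ∘ₗ (R.diag.l.tensL Y).act s)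
      (g := b.l.act s ∘ₗ (actL b.l).f) (fun x y => ?_) v
    exact b.l.mul_act s x y
  · refine tens_ext (f := (actL b.l).f ∘ₗ (b.r.tensR R.toSD).act.flip t)
      (g := b.r.act.flip t ∘ₗ (actL b.l).f) (fun x y => ?_) v
    exact (b.lr x y t).symm

theorem augR_isHom {S : DGA k} (b : Bi S R X) : (b.bar R.diag).IsHom b (augR b.r) := by
  refine augB_isHom _ ⟨fun s v => ?_, fun v t => ?_⟩
  · refine tens_ext (f := (actR b.r).f ∘ₗ (b.l.tensL R.toSD).act s)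
      (g := b.l.act s ∘ₗ (actR b.r).f) (fun x y => ?_) v
    exact b.lr s x y
  · refine tens_ext (f := (actR b.r).f ∘ₗ (R.diag.r.tensR X).act.flip t)
      (g := b.r.act.flip t ∘ₗ (actR b.r).f) (fun x y => ?_) v
    exact (b.r.act_mul x y t).symm

/-! ### free modules -/

/-- `(V ⊗ R) ⊗ Y → V ⊗ Y` -/
def actVL (V : SD k) (l : LA R Y) : SD.Hom ((V.tens R.toSD).tens Y) (V.tens Y) :=
  ((SD.Hom.id V).tens (actL l)).comp (assocS V R.toSD Y)

/-- `X ⊗ (R ⊗ V) → X ⊗ V` -/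
def actVR (ρ : RA R X) (V : SD k) : SD.Hom (X.tens (R.toSD.tens V)) (X.tens V) :=
  ((actR ρ).tens (SD.Hom.id V)).comp (assocS' X R.toSD V)

@[simp] theorem actVL_tmul (V : SD k) (l : LA R Y) (v : V.V) (r : R.V) (y : Y.V) :
    (actVL V l).f ((v ⊗ₜ r) ⊗ₜ y) = v ⊗ₜ l.act r y := rfl
@[simp] theorem actVR_tmul (ρ : RA R X) (V : SD k) (x : X.V) (r : R.V) (v : V.V) :
    (actVR ρ V).f (x ⊗ₜ (r ⊗ₜ v)) = ρ.act x r ⊗ₜ v := rfl

/-- `Bar(V ⊗ R, R, Y) → V ⊗ Y` -/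
def augVL (V : SD k) (l : LA R Y) : SD.Hom (Bar (R.diag.r.tensR V) l) (V.tens Y) :=
  augB (R.diag.r.tensR V) l (actVL V l) (fun x r y => by
    refine tens_ext (f := (actVL V l).f ∘ₗ (TensorProduct.mk k (V.V ⊗[k] R.V) Y.V).flip y ∘ₗ
        (R.diag.r.tensR V).act.flip r)
      (g := (actVL V l).f ∘ₗ (TensorProduct.mk k (V.V ⊗[k] R.V) Y.V).flip (l.act r y))
      (fun v s => ?_) x
    change v ⊗ₜ[k] l.act (s * r) y = v ⊗ₜ[k] l.act s (l.act r y)
    rw [l.mul_act])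

/-- `Bar(X, R, R ⊗ V) → X ⊗ V` -/
def augVR (ρ : RA R X) (V : SD k) : SD.Hom (Bar ρ (R.diag.l.tensL V)) (X.tens V) :=
  augB ρ (R.diag.l.tensL V) (actVR ρ V) (fun x r y => by
    refine tens_ext (f := (actVR ρ V).f ∘ₗ TensorProduct.mk k X.V (R.V ⊗[k] V.V) (ρ.act x r))
      (g := (actVR ρ V).f ∘ₗ TensorProduct.mk k X.V (R.V ⊗[k] V.V) x ∘ₗ
        (R.diag.l.tensL V).act r) (fun s v => ?_) y
    change ρ.act (ρ.act x r) s ⊗ₜ[k] v = ρ.act x (r * s) ⊗ₜ[k] v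
    rw [ρ.act_mul])

theorem augVL_nil (V : SD k) (l : LA R Y) (v : V.V) (r : R.V) (y : Y.V) :
    (augVL V l).f (Wd.nil (v ⊗ₜ r) ⊗ₜ y) = v ⊗ₜ l.act r y :=
  (augB_nil (R.diag.r.tensR V) l (actVL V l) _ _ _).trans rfl
theorem augVR_nil (ρ : RA R X) (V : SD k) (x : X.V) (r : R.V) (v : V.V) :
    (augVR ρ V).f (Wd.nil x ⊗ₜ (r ⊗ₜ v)) = ρ.act x r ⊗ₜ v :=
  (augB_nil ρ (R.diag.l.tensL V) (actVR ρ V) _ _ _).trans rfl

theorem qi_augVL (V : SD k) (l : LA R Y) (h1 : ∀ y, l.act 1 y = y) : (augVL V l).QI := by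
  refine qi_of_sectionL (R.diag.r.tensR V) l (actVL V l) _
    ((unitR R V).tens (SD.Hom.id R.toSD)) (fun x r => ?_) (fun x => ?_)
    ((nilB (R.diag.r.tensR V) l).comp ((unitR R V).tens (SD.Hom.id Y)))
    (fun x y => ?_) (fun z => ?_)
  · refine tens_ext (f := ((unitR R V).tens (SD.Hom.id R.toSD)).f ∘ₗ
        (R.diag.r.tensR V).act.flip r)
      (g := (R.diag.r.tensR (V.tens R.toSD)).act.flip r ∘ₗ
        ((unitR R V).tens (SD.Hom.id R.toSD)).f) (fun v s => rfl) x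
  · refine tens_ext (f := (actR (R.diag.r.tensR V)).f ∘ₗ
        ((unitR R V).tens (SD.Hom.id R.toSD)).f) (g := LinearMap.id) (fun v s => ?_) x
    change v ⊗ₜ[k] ((1 : R.V) * s) = v ⊗ₜ[k] s
    rw [one_mul]
  · refine tens_ext (f := (nilB (R.diag.r.tensR V) l).f ∘ₗ
        ((unitR R V).tens (SD.Hom.id Y)).f ∘ₗ (actVL V l).f ∘ₗ
          (TensorProduct.mk k (V.V ⊗[k] R.V) Y.V).flip y)
      (g := lam (X := V.tens R.toSD) l ∘ₗ
        (TensorProduct.mk k (Wd k (V.V ⊗[k] R.V) R.V) Y.V).flip y ∘ₗ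
          snocN (V.tens R.toSD) R ∘ₗ ((unitR R V).tens (SD.Hom.id R.toSD)).f)
      (fun v s => ?_) x
    change Wd.nil (v ⊗ₜ[k] (1 : R.V)) ⊗ₜ[k] l.act s y =
      lam (X := V.tens R.toSD) l
        (Wd.snoc (Wd.nil ((V.tens R.toSD).E (v ⊗ₜ[k] (1 : R.V)))) s ⊗ₜ y)
    rw [lam_snoc, EW_nil, (V.tens R.toSD).EE]
  · refine tens_ext (f := augF (actVL V l).f ∘ₗ (nilB (R.diag.r.tensR V) l).f ∘ₗ
        ((unitR R V).tens (SD.Hom.id Y)).f) (g := LinearMap.id) (fun v y => ?_) z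
    change augF (actVL V l).f (Wd.nil (v ⊗ₜ[k] (1 : R.V)) ⊗ₜ y) = v ⊗ₜ y
    rw [augF_nil]
    change v ⊗ₜ[k] l.act 1 y = v ⊗ₜ y
    rw [h1]

theorem qi_augVR (ρ : RA R X) (V : SD k) (h1 : ∀ x, ρ.act x 1 = x) : (augVR ρ V).QI := by
  refine qi_of_sectionR ρ (R.diag.l.tensL V) (actVR ρ V) _
    ((SD.Hom.id R.toSD).tens (unitL R V)) (fun x r => ?_) (fun x => ?_)
    ((nilB ρ (R.diag.l.tensL V)).comp ((SD.Hom.id X).tens (unitL R V)))
    (fun x y => ?_) (fun z => ?_)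
  · refine tens_ext (f := ((SD.Hom.id R.toSD).tens (unitL R V)).f ∘ₗ
        (R.diag.l.tensL V).act x)
      (g := (R.diag.l.tensL (R.toSD.tens V)).act x ∘ₗ
        ((SD.Hom.id R.toSD).tens (unitL R V)).f) (fun v s => rfl) r
  · refine tens_ext (f := (actL (R.diag.l.tensL V)).f ∘ₗ
        ((SD.Hom.id R.toSD).tens (unitL R V)).f) (g := LinearMap.id) (fun s v => ?_) x
    change (s * (1 : R.V)) ⊗ₜ[k] v = s ⊗ₜ[k] v
    rw [mul_one]
  · refine tens_ext (f := (nilB ρ (R.diag.l.tensL V)).f ∘ₗ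
        ((SD.Hom.id X).tens (unitL R V)).f ∘ₗ (actVR ρ V).f ∘ₗ
          TensorProduct.mk k X.V (R.V ⊗[k] V.V) x)
      (g := LinearMap.rTensor (R.V ⊗[k] V.V) (tl R ρ.act (Wd.nil x)) ∘ₗ
        ((SD.Hom.id R.toSD).tens (unitL R V)).f)
      (fun s v => ?_) y
    change Wd.nil (ρ.act x s) ⊗ₜ[k] ((1 : R.V) ⊗ₜ[k] v) =
      tl R ρ.act (Wd.nil x) s ⊗ₜ[k] ((1 : R.V) ⊗ₜ[k] v)
    rw [tl_nil]
  · refine tens_ext (f := augF (actVR ρ V).f ∘ₗ (nilB ρ (R.diag.l.tensL V)).f ∘ₗ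
        ((SD.Hom.id X).tens (unitL R V)).f) (g := LinearMap.id) (fun x v => ?_) z
    change augF (actVR ρ V).f (Wd.nil x ⊗ₜ ((1 : R.V) ⊗ₜ[k] v)) = x ⊗ₜ v
    rw [augF_nil]
    change ρ.act x 1 ⊗ₜ[k] v = x ⊗ₜ v
    rw [h1]

/-- compatibility of `augVL` with a left action on `V` and a right action on `Y` -/
theorem augVL_isHom {S T : DGA k} {V : SD k} (a : LA S V) (b : Bi R T Y) :
    (Bi.bar (Bi.tensLR a R.diag.r) b).IsHom (Bi.tensLR a b.r) (augVL V b.l) := by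
  refine augB_isHom (bX := Bi.tensLR a R.diag.r) _ ⟨fun s v => ?_, fun v t => ?_⟩
  · refine tens_ext3 (f := (actVL V b.l).f ∘ₗ ((a.tensL R.toSD).tensL Y).act s)
      (g := (a.tensL Y).act s ∘ₗ (actVL V b.l).f) (fun x r y => rfl) v
  · refine tens_ext3 (f := (actVL V b.l).f ∘ₗ (b.r.tensR (V.tens R.toSD)).act.flip t)
      (g := (b.r.tensR V).act.flip t ∘ₗ (actVL V b.l).f) (fun x r y => ?_) v
    change x ⊗ₜ[k] b.l.act r (b.r.act y t) = x ⊗ₜ[k] b.r.act (b.l.act r y) t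
    rw [b.lr]

/-- compatibility of `augVR` with a left action on `X` and a right action on `V` -/
theorem augVR_isHom {S T : DGA k} {V : SD k} (b : Bi S R X) (c : RA T V) :
    (Bi.bar b (Bi.tensLR R.diag.l c)).IsHom (Bi.tensLR b.l c) (augVR b.r V) := by
  have ext3' : ∀ {f g : X.V ⊗[k] (R.V ⊗[k] V.V) →ₗ[k] X.V ⊗[k] V.V},
      (∀ x r v, f (x ⊗ₜ (r ⊗ₜ v)) = g (x ⊗ₜ (r ⊗ₜ v))) → ∀ z, f z = g z := by
    intro f g h z
    have h2 : f = g := by
      ext x r v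
      exact h x r v
    rw [h2]
  refine augB_isHom (bY := Bi.tensLR R.diag.l c) _ ⟨fun s v => ?_, fun v t => ?_⟩
  · refine ext3' (f := (actVR b.r V).f ∘ₗ (b.l.tensL (R.toSD.tens V)).act s)
      (g := (b.l.tensL V).act s ∘ₗ (actVR b.r V).f) (fun x r y => ?_) v
    change b.r.act (b.l.act s x) r ⊗ₜ[k] y = b.l.act s (b.r.act x r) ⊗ₜ[k] y
    rw [b.lr]
  · refine ext3' (f := (actVR b.r V).f ∘ₗ ((c.tensR R.toSD).tensR X).act.flip t)
      (g := (c.tensR X).act.flip t ∘ₗ (actVR b.r V).f) (fun x r y => rfl) v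

end

end NC
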