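import Pool.Agent.H16.NC.Gam
import Pool.Agent.H16.NC.ZB
import Pool.Agent.H94.NC.TwoBb

/-!
# Two-C : comparison of the pairing `tau` along a quasi-isomorphism of bimodules

`tau_comp` : the general comparison; `qV : HC(Q) → A`, `b ⊗ a ↦ b a`; `tau_hat` : the comparison
of `HC(Q)` and `A`.
-/

set_option autoImplicit false

open scoped TensorProduct

noncomputable section

namespace NC

variable {k : Type} [Field k]

/-! ### quasi-isomorphisms between `hom` complexes -/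

section homs

variable {V V' Z Z' : SD k}

theorem twoC_odd {N N' : SD k} {s : N.V →ₗ[k] N'.V} (h : SD.OddMap N N' s) (x : N.V) :
    N'.E (s x) = - s (N.E x) := by
  have e := SD.OddMap.E h x
  rw [e, neg_neg]

theorem homPost_qi (V : SD k) {g : SD.Hom Z Z'} (hg : g.QI) : (homPost V g).QI := by
  have key : ∀ {W : SD k} (u : SD.Hom W W) (s : W.V →ₗ[k] W.V), SD.OddMap W W s →
      SD.IsHtp u (SD.Hom.id W) s → SD.IsHtp (homPost V u) (SD.Hom.id (SD.hom V W))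
        (LinearMap.llcomp k V.V W.V W.V s) := by
    intro W u s hs h φ
    refine LinearMap.ext (fun x => ?_)
    change u.f (φ x) - φ x = SD.hD V W (s ∘ₗ φ) x + s (SD.hD V W φ x)
    have h1 : u.f (φ x) - φ x = W.D (s (φ x)) + s (W.D (φ x)) := h (φ x)
    have h2 : ∀ y, W.E (s y) = - s (W.E y) := fun y => twoC_odd hs y
    rw [h1, SD.hD_apply, SD.hD_apply, LinearMap.comp_apply, LinearMap.comp_apply, h2, map_sub]
    abel
  obtain ⟨g', ⟨s, hs, h1⟩, ⟨s', hs', h2⟩⟩ := hg.exists_inverse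
  exact SD.Hom.QI.of_inverse (g := homPost V g')
    (fun φ => key (g'.comp g) s hs h1 φ) (fun φ => key (g.comp g') s' hs' h2 φ)

theorem homPreK_qi {u : SD.Hom V' V} (hu : u.QI) (Z : SD k) : (homPreK u Z).QI := by
  obtain ⟨g, ⟨s, hs, h1⟩, ⟨s', hs', h2⟩⟩ := hu.exists_inverse
  refine SD.Hom.QI.of_inverse (g := homPreK g Z) (s := homHK Z s') (s' := homHK Z s)
    (fun φ => ?_) (fun φ => ?_)
  · have h3 := homHK_htp Z g u s' (fun x => twoC_odd hs' x) (fun x => by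
      have h4 : u.f (g.f x) - x = V.D (s' x) + s' (V.D x) := h2 x
      rw [add_assoc, ← h4]; abel) φ
    refine (congrArg (fun z => z - φ) h3).trans ?_
    change φ + (SD.hom V Z).D (homHK Z s' φ) + homHK Z s' ((SD.hom V Z).D φ) - φ =
      (SD.hom V Z).D (homHK Z s' φ) + homHK Z s' ((SD.hom V Z).D φ)
    abel
  · have h3 := homHK_htp Z u g s (fun x => twoC_odd hs x) (fun x => by
      have h4 : g.f (u.f x) - x = V'.D (s x) + s (V'.D x) := h1 x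
      rw [add_assoc, ← h4]; abel) φ
    refine (congrArg (fun z => z - φ) h3).trans ?_
    change φ + (SD.hom V' Z).D (homHK Z s φ) + homHK Z s ((SD.hom V' Z).D φ) - φ =
      (SD.hom V' Z).D (homHK Z s φ) + homHK Z s ((SD.hom V' Z).D φ)
    abel

end homs

/-! ### compatibility of tensor products of maps with actions -/

section tensHom

variable {A : DGA k} {X X' Y Y' : SD k}

theorem tens_tensR_l {l : LA A Y} {l' : LA A Y'} (f : SD.Hom X X') {g : SD.Hom Y Y'}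
    (h : l.IsHom l' g) : (l.tensR X).IsHom (l'.tensR X') (f.tens g) := by
  intro s v
  refine tens_ext (f := (f.tens g).f ∘ₗ (l.tensR X).act s)
    (g := (l'.tensR X').act s ∘ₗ (f.tens g).f) (fun x y => ?_) v
  have e1 : (l.tensR X).act s (x ⊗ₜ y) = x ⊗ₜ[k] l.act (A.P s) y +
    X.E x ⊗ₜ[k] l.act (s - A.P s) y := rfl
  have e2 : (l'.tensR X').act s ((f.tens g).f (x ⊗ₜ y)) = f.f x ⊗ₜ[k] l'.act (A.P s) (g.f y) +
    X'.E (f.f x) ⊗ₜ[k] l'.act (s - A.P s) (g.f y) := rfl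
  have e3 : ∀ x y, (f.tens g).f (x ⊗ₜ y) = f.f x ⊗ₜ[k] g.f y := fun _ _ => rfl
  have e4 : ∀ a n, g.f (l.act a n) = l'.act a (g.f n) := h
  rw [LinearMap.comp_apply, LinearMap.comp_apply, e1, e2, map_add, e3, e3, e4, e4, f.E]

theorem tens_tensL_r {r : RA A X} {r' : RA A X'} {f : SD.Hom X X'} (g : SD.Hom Y Y')
    (h : r.IsHom r' f) : (r.tensL Y).IsHom (r'.tensL Y') (f.tens g) := by
  intro v s
  refine tens_ext (f := (f.tens g).f ∘ₗ (r.tensL Y).act.flip s)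
    (g := (r'.tensL Y').act.flip s ∘ₗ (f.tens g).f) (fun x y => ?_) v
  have e1 : (r.tensL Y).act (x ⊗ₜ y) s = r.act x (A.P s) ⊗ₜ[k] y +
    r.act x (s - A.P s) ⊗ₜ[k] Y.E y := rfl
  have e2 : (r'.tensL Y').act ((f.tens g).f (x ⊗ₜ y)) s = r'.act (f.f x) (A.P s) ⊗ₜ[k] g.f y +
    r'.act (f.f x) (s - A.P s) ⊗ₜ[k] Y'.E (g.f y) := rfl
  have e3 : ∀ x y, (f.tens g).f (x ⊗ₜ y) = f.f x ⊗ₜ[k] g.f y := fun _ _ => rfl
  have e4 : ∀ a n, f.f (r.act a n) = r'.act (f.f a) n := h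
  change (f.tens g).f ((r.tensL Y).act (x ⊗ₜ y) s) = (r'.tensL Y').act ((f.tens g).f (x ⊗ₜ y)) s
  rw [e1, e2, map_add, e3, e3, e4, e4, g.E]

theorem tens_tensL_l {l : LA A X} {l' : LA A X'} {f : SD.Hom X X'} (g : SD.Hom Y Y')
    (h : l.IsHom l' f) : (l.tensL Y).IsHom (l'.tensL Y') (f.tens g) := by
  intro s v
  refine tens_ext (f := (f.tens g).f ∘ₗ (l.tensL Y).act s)
    (g := (l'.tensL Y').act s ∘ₗ (f.tens g).f) (fun x y => ?_) v
  exact congrArg (fun z => z ⊗ₜ[k] g.f y) (h s x)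

theorem tens_tensR_r {r : RA A Y} {r' : RA A Y'} (f : SD.Hom X X') {g : SD.Hom Y Y'}
    (h : r.IsHom r' g) : (r.tensR X).IsHom (r'.tensR X') (f.tens g) := by
  intro v s
  refine tens_ext (f := (f.tens g).f ∘ₗ (r.tensR X).act.flip s)
    (g := (r'.tensR X').act.flip s ∘ₗ (f.tens g).f) (fun x y => ?_) v
  exact congrArg (fun z => f.f x ⊗ₜ[k] z) (h y s)

end tensHom

/-! ### compatibility of pre- and postcomposition with actions -/

section prepost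

variable {A : DGA k} {V V' Z Z' : SD k}

theorem homPost_l {l : LA A Z} {l' : LA A Z'} (V : SD k) {g : SD.Hom Z Z'}
    (h : l.IsHom l' g) : (l.post V).IsHom (l'.post V) (homPost V g) :=
  fun s φ => LinearMap.ext (fun x => h s (φ x))

theorem homPost_r {r : RA A Z} {r' : RA A Z'} (V : SD k) {g : SD.Hom Z Z'}
    (h : r.IsHom r' g) : (r.post V).IsHom (r'.post V) (homPost V g) := by
  intro φ s
  refine LinearMap.ext (fun x => ?_)
  have e4 : ∀ a n, g.f (r.act a n) = r'.act (g.f a) n := h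
  change g.f (r.act (φ x) (A.P s) + r.act (φ (V.E x)) (s - A.P s)) =
    r'.act (g.f (φ x)) (A.P s) + r'.act (g.f (φ (V.E x))) (s - A.P s)
  rw [map_add, e4, e4]

theorem homPost_preL (l : LA A V) (g : SD.Hom Z Z') :
    (LA.pre Z l).IsHom (LA.pre Z' l) (homPost V g) := fun _ _ => rfl

theorem homPost_preR (r : RA A V) (g : SD.Hom Z Z') :
    (r.pre Z).IsHom (r.pre Z') (homPost V g) := by
  intro s φ
  refine LinearMap.ext (fun x => ?_)
  change g.f (φ (r.act x (A.P s)) - Z.E (φ (r.act x (s - A.P s)))) =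
    g.f (φ (r.act x (A.P s))) - Z'.E (g.f (φ (r.act x (s - A.P s))))
  rw [map_sub, g.E]

theorem homPreK_preL {l : LA A V} {l' : LA A V'} {u : SD.Hom V' V} (h : l'.IsHom l u)
    (Z : SD k) : (LA.pre Z l).IsHom (LA.pre Z l') (homPreK u Z) := by
  intro φ s
  refine LinearMap.ext (fun x => ?_)
  change φ (l.act s (u.f x)) = φ (u.f (l'.act s x))
  rw [h]

theorem homPreK_preR {r : RA A V} {r' : RA A V'} {u : SD.Hom V' V} (h : r'.IsHom r u)
    (Z : SD k) : (r.pre Z).IsHom (r'.pre Z) (homPreK u Z) := by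
  intro s φ
  refine LinearMap.ext (fun x => ?_)
  have e4 : ∀ a n, u.f (r'.act a n) = r.act (u.f a) n := h
  change φ (r.act (u.f x) (A.P s)) - Z.E (φ (r.act (u.f x) (s - A.P s))) =
    φ (u.f (r'.act x (A.P s))) - Z.E (φ (u.f (r'.act x (s - A.P s))))
  rw [e4, e4]

theorem homPreK_postL (u : SD.Hom V' V) (l : LA A Z) :
    (l.post V).IsHom (l.post V') (homPreK u Z) := fun _ _ => rfl

theorem homPreK_postR (u : SD.Hom V' V) (r : RA A Z) :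
    (r.post V).IsHom (r.post V') (homPreK u Z) := by
  intro φ s
  refine LinearMap.ext (fun x => ?_)
  change r.act (φ (u.f x)) (A.P s) + r.act (φ (V.E (u.f x))) (s - A.P s) =
    r.act (φ (u.f x)) (A.P s) + r.act (φ (u.f (V'.E x))) (s - A.P s)
  rw [u.E]

end prepost

/-! ### the mixed structures -/

section mixed

variable {A : DGA k} {V W : SD k}

/-- first structure on `hom V W` -/
def mE1 (bV : Bi A A V) (bW : Bi A A W) : Bi A A (SD.hom V W) :=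
  ⟨bW.l.post V, LA.pre W bV.l, LR.postpre bW.l bV.l⟩

/-- second structure on `hom V W` -/
def mE2 (bV : Bi A A V) (bW : Bi A A W) : Bi A A (SD.hom V W) :=
  ⟨bV.r.pre W, bW.r.post V, LR.prepost bV.r bW.r⟩

theorem mE_h (bV : Bi A A V) (bW : Bi A A W) : Comm (mE1 bV bW) (mE2 bV bW) :=
  ⟨LL.postpre bW.l bV.r, LR.postpost bW.lr V, LR.prepre bV.lr W,
    (RR.prepost bV.l bW.r).symm⟩

/-- first structure on `W* ⊗ V` -/
def mE1d (bV : Bi A A V) (bW : Bi A A W) : Bi A A (W.dual.tens V) :=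
  ⟨bV.l.tensR W.dual, (LA.pre (SD.unit k) bW.l).tensL V,
    LR.tensRL bV.l (LA.pre (SD.unit k) bW.l)⟩

/-- second structure on `W* ⊗ V` -/
def mE2d (bV : Bi A A V) (bW : Bi A A W) : Bi A A (W.dual.tens V) :=
  ⟨(bW.r.pre (SD.unit k)).tensL V, bV.r.tensR W.dual,
    LR.tensLR (bW.r.pre (SD.unit k)) bV.r⟩

theorem mE_d (bV : Bi A A V) (bW : Bi A A W) : Comm (mE1d bV bW) (mE2d bV bW) :=
  ⟨(LL.tensLR (bW.r.pre (SD.unit k)) bV.l).symm, LR.tensRR bV.lr W.dual,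
    LR.tensLL (LR.prepre bW.lr (SD.unit k)) V,
    (RR.tensRL (LA.pre (SD.unit k) bW.l) bV.r).symm⟩

variable {bV : Bi A A V} {bW : Bi A A W} {q : SD.Hom V W}

/-- `λ ⊗ v ↦ λ q ⊗ v` -/
def mAl (q : SD.Hom V W) : SD.Hom (W.dual.tens V) (V.dual.tens V) :=
  (homPreK q (SD.unit k)).tens (SD.Hom.id V)

/-- `λ ⊗ v ↦ λ ⊗ q v` -/
def mBe (q : SD.Hom V W) : SD.Hom (W.dual.tens V) (W.dual.tens W) :=
  (SD.Hom.id W.dual).tens q

theorem mAl_1 (hq : bV.IsHom bW q) : (mE1d bV bW).IsHom (E1d bV) (mAl q) :=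
  ⟨tens_tensR_l _ (LA.isHom_id bV.l), tens_tensL_r _ (homPreK_preL hq.l (SD.unit k))⟩

theorem mAl_2 (hq : bV.IsHom bW q) : (mE2d bV bW).IsHom (E2d bV) (mAl q) :=
  ⟨tens_tensL_l _ (homPreK_preR hq.r (SD.unit k)), tens_tensR_r _ (RA.isHom_id bV.r)⟩

theorem mBe_1 (hq : bV.IsHom bW q) : (mE1d bV bW).IsHom (E1d bW) (mBe q) :=
  ⟨tens_tensR_l _ hq.l, tens_tensL_r _ (RA.isHom_id _)⟩

theorem mBe_2 (hq : bV.IsHom bW q) : (mE2d bV bW).IsHom (E2d bW) (mBe q) :=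
  ⟨tens_tensL_l _ (LA.isHom_id _), tens_tensR_r _ hq.r⟩

theorem mPost_1 (hq : bV.IsHom bW q) : (E1 bV).IsHom (mE1 bV bW) (homPost V q) :=
  ⟨homPost_l V hq.l, homPost_preL bV.l q⟩

theorem mPost_2 (hq : bV.IsHom bW q) : (E2 bV).IsHom (mE2 bV bW) (homPost V q) :=
  ⟨homPost_preR bV.r q, homPost_r V hq.r⟩

theorem mPre_1 (hq : bV.IsHom bW q) : (E1 bW).IsHom (mE1 bV bW) (homPreK q W) :=
  ⟨homPreK_postL q bW.l, homPreK_preL hq.l W⟩

theorem mPre_2 (hq : bV.IsHom bW q) : (E2 bW).IsHom (mE2 bV bW) (homPreK q W) :=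
  ⟨homPreK_preR hq.r W, homPreK_postR q bW.r⟩

/-- the common map `W* ⊗ V → hom V W` -/
def mDe (q : SD.Hom V W) : SD.Hom (W.dual.tens V) (SD.hom V W) :=
  (homPost V q).comp ((dualTens V V).comp (mAl q))

theorem mDe_qi (hW : W.FinH) (hq : q.QI) : (mDe q).QI := by
  refine SD.Hom.QI.congr ((homPost_qi V hq).comp ((homPreK_qi hq V).comp (dualTens_qi W V hW)))
    (fun v => ?_)
  refine tens_ext (f := (homPost V q).f ∘ₗ (homPreK q V).f ∘ₗ (dualTens W V).f)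
    (g := (homPost V q).f ∘ₗ (dualTens V V).f ∘ₗ (mAl q).f) (fun f y => ?_) v
  refine LinearMap.ext (fun x => ?_)
  change q.f ((dualTens W V).f (f ⊗ₜ y) (q.f x)) =
    q.f ((dualTens V V).f ((homPreK q (SD.unit k)).f f ⊗ₜ y) x)
  rw [dualTens_tmul, dualTens_tmul]
  change q.f (f (W.P (q.f x)) • y + f (q.f x - W.P (q.f x)) • V.E y) =
    q.f (f (q.f (V.P x)) • y + f (q.f (x - V.P x)) • V.E y)
  rw [map_sub q.f, q.P]

theorem mDe_eq (q : SD.Hom V W) (v : (W.dual.tens V).V) :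
    (homPreK q W).f ((dualTens W W).f ((mBe q).f v)) = (mDe q).f v := by
  refine tens_ext (f := (homPreK q W).f ∘ₗ (dualTens W W).f ∘ₗ (mBe q).f)
    (g := (homPost V q).f ∘ₗ (dualTens V V).f ∘ₗ (mAl q).f) (fun f y => ?_) v
  refine LinearMap.ext (fun x => ?_)
  change (dualTens W W).f (f ⊗ₜ q.f y) (q.f x) =
    q.f ((dualTens V V).f ((homPreK q (SD.unit k)).f f ⊗ₜ y) x)
  rw [dualTens_tmul, dualTens_tmul]
  change f (W.P (q.f x)) • q.f y + f (q.f x - W.P (q.f x)) • W.E (q.f y) =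
    q.f (f (q.f (V.P x)) • y + f (q.f (x - V.P x)) • V.E y)
  rw [map_sub q.f, q.P, map_add, map_smul, map_smul, q.E]

theorem mDe_1 (hq : bV.IsHom bW q) : (mE1d bV bW).IsHom (mE1 bV bW) (mDe q) :=
  ((mAl_1 hq).comp (dualTens_E1 bV)).comp (mPost_1 hq)

theorem mDe_2 (hq : bV.IsHom bW q) : (mE2d bV bW).IsHom (mE2 bV bW) (mDe q) :=
  ((mAl_2 hq).comp (dualTens_E2 bV)).comp (mPost_2 hq)

theorem trD_al_be (q : SD.Hom V W) (v : (W.dual.tens V).V) :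
    (trD V).f ((mAl q).f v) = (trD W).f ((mBe q).f v) :=
  tens_ext (f := (trD V).f ∘ₗ (mAl q).f) (g := (trD W).f ∘ₗ (mBe q).f) (fun _ _ => rfl) v

theorem trE_al_be (hq : bV.IsHom bW q) (p : (HC2 (mE1d bV bW) (mE2d bV bW) (mE_d bV bW)).V) :
    (trE bV).f ((hc2 (mE_d bV bW) (E1d_E2d bV) (mAl q) (mAl_1 hq) (mAl_2 hq)).f p) =
      (trE bW).f ((hc2 (mE_d bV bW) (E1d_E2d bW) (mBe q) (mBe_1 hq) (mBe_2 hq)).f p) := by
  change (trE bV).f (Wd.mh A.V (Wd.mh A.V (mAl q).f) p) =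
    (trE bW).f (Wd.mh A.V (Wd.mh A.V (mBe q).f) p)
  induction p using Wd.induction with
  | hadd a b ha hb => simp only [map_add, ha, hb]
  | hnil w =>
    rw [Wd.mh_nil, Wd.mh_nil]
    induction w using Wd.induction with
    | hadd a b ha hb => simp only [map_add, ha, hb]
    | hnil v =>
      rw [Wd.mh_nil, Wd.mh_nil]
      refine (tr2_nil_nil _ _ (trD_cyc1 bV) (trD_cyc2 bV) _).trans
        (Eq.trans ?_ (tr2_nil_nil _ _ (trD_cyc1 bW) (trD_cyc2 bW) _).symm)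
      exact trD_al_be q v
    | hsnoc w _ r =>
      rw [Wd.mh_snoc, Wd.mh_snoc]
      exact (tr2_nil_snoc _ _ (trD_cyc1 bV) (trD_cyc2 bV) _ _).trans
        (tr2_nil_snoc _ _ (trD_cyc1 bW) (trD_cyc2 bW) _ _).symm
  | hsnoc w _ r =>
    rw [Wd.mh_snoc, Wd.mh_snoc]
    exact (tr2_snoc _ _ (trD_cyc1 bV) (trD_cyc2 bV) _ _).trans
      (tr2_snoc _ _ (trD_cyc1 bW) (trD_cyc2 bW) _ _).symm

/-- **comparison of the pairings along a quasi-isomorphism of bimodules** -/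
theorem tau_comp {K : SD k} {b₁ b₂ : Bi A A K} (hK : Comm b₁ b₂) (hV : V.FinH) (hW : W.FinH)
    (hq : bV.IsHom bW q) (qq : q.QI) (jV : SD.Hom K (SD.hom V V))
    (hv1 : b₁.IsHom (E1 bV) jV) (hv2 : b₂.IsHom (E2 bV) jV) (jW : SD.Hom K (SD.hom W W))
    (hw1 : b₁.IsHom (E1 bW) jW) (hw2 : b₂.IsHom (E2 bW) jW)
    (hj : ∀ x v, q.f (jV.f x v) = jW.f x (q.f v)) {z : (HC2 b₁ b₂ hK).V}
    (hzV : (HC2 (E1 bV) (E2 bV) (E1_E2 bV)).D ((hc2 hK (E1_E2 bV) jV hv1 hv2).f z) = 0)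
    (hzW : (HC2 (E1 bW) (E2 bW) (E1_E2 bW)).D ((hc2 hK (E1_E2 bW) jW hw1 hw2).f z) = 0) :
    tau bV hV (SD.Coh.mk ((hc2 hK (E1_E2 bV) jV hv1 hv2).f z) hzV) =
      tau bW hW (SD.Coh.mk ((hc2 hK (E1_E2 bW) jW hw1 hw2).f z) hzW) := by
  -- the common image in the mixed complex
  have e1 : (hc2 (E1_E2 bV) (mE_h bV bW) (homPost V q) (mPost_1 hq) (mPost_2 hq)).f
      ((hc2 hK (E1_E2 bV) jV hv1 hv2).f z) =
      (hc2 (E1_E2 bW) (mE_h bV bW) (homPreK q W) (mPre_1 hq) (mPre_2 hq)).f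
        ((hc2 hK (E1_E2 bW) jW hw1 hw2).f z) := by
    rw [hc2_comp hK (E1_E2 bV) (mE_h bV bW) jV (homPost V q) ((homPost V q).comp jV) hv1 hv2
        (mPost_1 hq) (mPost_2 hq) (hv1.comp (mPost_1 hq)) (hv2.comp (mPost_2 hq))
        (fun _ => rfl) z,
      hc2_comp hK (E1_E2 bW) (mE_h bV bW) jW (homPreK q W) ((homPost V q).comp jV) hw1 hw2
        (mPre_1 hq) (mPre_2 hq) (hv1.comp (mPost_1 hq)) (hv2.comp (mPost_2 hq))
        (fun n => LinearMap.ext (fun v => (hj n v).symm)) z]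
  have q1 := hc2_qi (E1_E2 bV) (mE_h bV bW) (homPost V q) (mPost_1 hq) (mPost_2 hq)
    (homPost_qi V qq)
  have q2 := hc2_qi (E1_E2 bW) (mE_h bV bW) (homPreK q W) (mPre_1 hq) (mPre_2 hq)
    (homPreK_qi qq W)
  have q3 := hc2_qi (mE_d bV bW) (mE_h bV bW) (mDe q) (mDe_1 hq) (mDe_2 hq)
    (mDe_qi hW qq)
  generalize (hc2 hK (E1_E2 bV) jV hv1 hv2).f z = x at e1 hzV ⊢
  generalize (hc2 hK (E1_E2 bW) jW hw1 hw2).f z = y at e1 hzW ⊢
  obtain ⟨p, w, hp, hpw⟩ := q3.surj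
    ((hc2 (E1_E2 bV) (mE_h bV bW) (homPost V q) (mPost_1 hq) (mPost_2 hq)).f x)
    (by rw [← (hc2 (E1_E2 bV) (mE_h bV bW) (homPost V q) (mPost_1 hq) (mPost_2 hq)).D, hzV,
      map_zero])
  have d1 : (hc2 (E1_E2 bV) (mE_h bV bW) (homPost V q) (mPost_1 hq) (mPost_2 hq)).f
      ((cE bV).f ((hc2 (mE_d bV bW) (E1d_E2d bV) (mAl q) (mAl_1 hq) (mAl_2 hq)).f p)) =
      (hc2 (mE_d bV bW) (mE_h bV bW) (mDe q) (mDe_1 hq) (mDe_2 hq)).f p := by
    unfold cE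
    rw [hc2_comp (mE_d bV bW) (E1d_E2d bV) (E1_E2 bV) (mAl q) (dualTens V V)
        ((dualTens V V).comp (mAl q)) (mAl_1 hq) (mAl_2 hq) (dualTens_E1 bV) (dualTens_E2 bV)
        ((mAl_1 hq).comp (dualTens_E1 bV)) ((mAl_2 hq).comp (dualTens_E2 bV)) (fun _ => rfl) p,
      hc2_comp (mE_d bV bW) (E1_E2 bV) (mE_h bV bW) ((dualTens V V).comp (mAl q))
        (homPost V q) (mDe q) ((mAl_1 hq).comp (dualTens_E1 bV))
        ((mAl_2 hq).comp (dualTens_E2 bV)) (mPost_1 hq) (mPost_2 hq) (mDe_1 hq) (mDe_2 hq)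
        (fun _ => rfl) p]
  have d2 : (hc2 (E1_E2 bW) (mE_h bV bW) (homPreK q W) (mPre_1 hq) (mPre_2 hq)).f
      ((cE bW).f ((hc2 (mE_d bV bW) (E1d_E2d bW) (mBe q) (mBe_1 hq) (mBe_2 hq)).f p)) =
      (hc2 (mE_d bV bW) (mE_h bV bW) (mDe q) (mDe_1 hq) (mDe_2 hq)).f p := by
    unfold cE
    rw [hc2_comp (mE_d bV bW) (E1d_E2d bW) (E1_E2 bW) (mBe q) (dualTens W W)
        ((dualTens W W).comp (mBe q)) (mBe_1 hq) (mBe_2 hq) (dualTens_E1 bW) (dualTens_E2 bW)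
        ((mBe_1 hq).comp (dualTens_E1 bW)) ((mBe_2 hq).comp (dualTens_E2 bW)) (fun _ => rfl) p,
      hc2_comp (mE_d bV bW) (E1_E2 bW) (mE_h bV bW) ((dualTens W W).comp (mBe q))
        (homPreK q W) (mDe q) ((mBe_1 hq).comp (dualTens_E1 bW))
        ((mBe_2 hq).comp (dualTens_E2 bW)) (mPre_1 hq) (mPre_2 hq) (mDe_1 hq) (mDe_2 hq)
        (fun v => mDe_eq q v) p]
  -- cycles
  have hpa : (HC2 (E1d bV) (E2d bV) (E1d_E2d bV)).D
      ((hc2 (mE_d bV bW) (E1d_E2d bV) (mAl q) (mAl_1 hq) (mAl_2 hq)).f p) = 0 := by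
    rw [← (hc2 (mE_d bV bW) (E1d_E2d bV) (mAl q) (mAl_1 hq) (mAl_2 hq)).D, hp, map_zero]
  have hpb : (HC2 (E1d bW) (E2d bW) (E1d_E2d bW)).D
      ((hc2 (mE_d bV bW) (E1d_E2d bW) (mBe q) (mBe_1 hq) (mBe_2 hq)).f p) = 0 := by
    rw [← (hc2 (mE_d bV bW) (E1d_E2d bW) (mBe q) (mBe_1 hq) (mBe_2 hq)).D, hp, map_zero]
  have h1 : (HC2 (E1 bV) (E2 bV) (E1_E2 bV)).Hml
      ((cE bV).f ((hc2 (mE_d bV bW) (E1d_E2d bV) (mAl q) (mAl_1 hq) (mAl_2 hq)).f p)) x := by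
    refine q1.inj _ (-w) ?_ ?_
    · rw [map_sub, ← (cE bV).D, hpa, map_zero, hzV, sub_zero]
    · rw [map_sub, d1, hpw, map_neg]
      abel
  have h2 : (HC2 (E1 bW) (E2 bW) (E1_E2 bW)).Hml
      ((cE bW).f ((hc2 (mE_d bV bW) (E1d_E2d bW) (mBe q) (mBe_1 hq) (mBe_2 hq)).f p)) y := by
    refine q2.inj _ (-w) ?_ ?_
    · rw [map_sub, ← (cE bW).D, hpb, map_zero, hzW, sub_zero]
    · rw [map_sub, d2, ← e1, hpw, map_neg]
      abel
  unfold tau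
  rw [tauG_mk _ _ _ hpa hzV h1, tauG_mk _ _ _ hpb hzW h2]
  exact trE_al_be hq p

end mixed

/-! ### the complex `HC(Q)` -/

section Q

variable (A : DGA k)

theorem mulQ_cyc : Cyc (bOut A) (actL A.diag.l) := by
  intro n r
  refine tens_ext (f := (actL A.diag.l).f ∘ₗ (oR A).act.flip r)
    (g := (actL A.diag.l).f ∘ₗ (oL A).act (A.P r) +
      (actL A.diag.l).f ∘ₗ (oL A).act (r - A.P r) ∘ₗ (QQ A).E) (fun b a => ?_) n
  have e1 : (oR A).act (b ⊗ₜ a) r = (b * A.P r) ⊗ₜ[k] a + (b * (r - A.P r)) ⊗ₜ[k] A.E a := rfl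
  have e2 : ∀ (s b a : A.V), (oL A).act s (b ⊗ₜ a) = b ⊗ₜ[k] (A.P s * a) +
    A.E b ⊗ₜ[k] ((s - A.P s) * a) := fun _ _ _ => rfl
  have e3 : (QQ A).E (b ⊗ₜ a) = A.E b ⊗ₜ A.E a := SD.tens_E A.toSD A.toSD b a
  have e4 : ∀ x y : A.V, (actL A.diag.l).f (x ⊗ₜ y) = x * y := fun _ _ => rfl
  have e5 : A.P (r - A.P r) = 0 := by rw [map_sub, A.PP, sub_self]
  change (actL A.diag.l).f ((oR A).act (b ⊗ₜ a) r) =
    (actL A.diag.l).f ((oL A).act (A.P r) (b ⊗ₜ a)) +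
      (actL A.diag.l).f ((oL A).act (r - A.P r) ((QQ A).E (b ⊗ₜ a)))
  rw [e3, e1, e2, e2, map_add, map_add, map_add, e4, e4, e4, e4, e4, e4, e5, A.PP, A.EE,
    sub_self, sub_zero, zero_mul, zero_mul, mul_zero, add_zero, zero_add, mul_assoc,
    mul_assoc]

/-- `HC(Q) → A`, `b ⊗ a ↦ b a` -/
def qV : SD.Hom (HC (bOut A)) A.toSD := trc (bOut A) (actL A.diag.l) (mulQ_cyc A)

theorem qV_nil (n : (QQ A).V) : (qV A).f (Wd.nil n) = (actL A.diag.l).f n :=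
  trc_nil (bOut A) (actL A.diag.l) (mulQ_cyc A) n
theorem qV_snoc (w : Wd k (QQ A).V A.V) (r : A.V) : (qV A).f (Wd.snoc w r) = 0 :=
  trc_snoc (bOut A) (actL A.diag.l) (mulQ_cyc A) w r

theorem qV_qi : (qV A).QI := by
  have q1 : (hcN (bOut A) (bIn A) (swQ A) swQ_isHom).QI := QI_hc _ _ _ _
    (BM.qi_of_bij (swQ A) (swQ A).f (fun x => swQ_swQ x) (fun x => swQ_swQ x))
  have q2 : (frAug A.diag.r).QI := frAug_QI A.diag.r (fun y => mul_one y)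
  refine SD.Hom.QI.congr (SD.Hom.QI.comp (g := frAug A.diag.r) (f := hcN (bOut A) (bIn A)
    (swQ A) swQ_isHom) q2 q1) (fun w => ?_)
  change (frAug A.diag.r).f (Wd.mh A.V (swQ A).f w) = (qV A).f w
  induction w using Wd.induction with
  | hadd a b ha hb => simp only [map_add, ha, hb]
  | hsnoc w _ r => rw [Wd.mh_snoc, frAug_snoc, qV_snoc]
  | hnil n =>
    rw [Wd.mh_nil, qV_nil]
    refine tens_ext (f := (frAug A.diag.r).f ∘ₗ Wd.nil ∘ₗ (swQ A).f) (g := (actL A.diag.l).f)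
      (fun b a => ?_) n
    change (frAug A.diag.r).f (Wd.nil ((swQ A).f (b ⊗ₜ a))) = b * a
    have e5 : A.P (a - A.P a) = 0 := by rw [map_sub, A.PP, sub_self]
    have e6 : ∀ x y : A.V, A.diag.r.act x y = x * y := fun _ _ => rfl
    rw [swQ_tmul, map_add, map_add, frAug_nil, frAug_nil, e5, A.PP, sub_self, sub_zero,
      A.EE, e6, e6, e6, mul_zero, add_zero, zero_add, ← mul_add, add_sub_cancel]

theorem qV_isHom : (bVQ A).IsHom A.diag (qV A) := by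
  constructor
  · intro s w
    change (qV A).f (hd A (iL A) s w) = A.diag.l.act s ((qV A).f w)
    induction w using Wd.induction with
    | hadd a b ha hb => simp only [map_add, ha, hb]
    | hsnoc w _ r => rw [hd_snoc, qV_snoc, qV_snoc, map_zero]
    | hnil n =>
      rw [hd_nil, qV_nil, qV_nil]
      refine tens_ext (f := (actL A.diag.l).f ∘ₗ (iL A).act s)
        (g := A.diag.l.act s ∘ₗ (actL A.diag.l).f) (fun b a => ?_) n
      exact mul_assoc s b a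
  · intro w s
    change (qV A).f (hr A (iR A) w s) = A.diag.r.act ((qV A).f w) s
    induction w using Wd.induction with
    | hadd a b ha hb => simp only [map_add, LinearMap.add_apply, ha, hb]
    | hsnoc w _ r =>
      rw [hr_snoc, map_sub, qV_snoc, qV_snoc, qV_snoc, map_zero, LinearMap.zero_apply, sub_zero]
    | hnil n =>
      rw [hr_nil, qV_nil, qV_nil]
      refine tens_ext (f := (actL A.diag.l).f ∘ₗ (iR A).act.flip s)
        (g := A.diag.r.act.flip s ∘ₗ (actL A.diag.l).f) (fun b a => ?_) n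
      exact (mul_assoc b a s).symm

/-- the key identity on pure tensors -/
theorem qV_kap (x n : (QQ A).V) :
    (actL A.diag.l).f ((kap (bOut A)).f (x ⊗ₜ n)) = (gam A).f x ((actL A.diag.l).f n) := by
  refine tens_ext (f := (actL A.diag.l).f ∘ₗ (kap (bOut A)).f ∘ₗ
      (TensorProduct.mk k (QQ A).V (QQ A).V).flip n)
    (g := LinearMap.applyₗ ((actL A.diag.l).f n) ∘ₗ (gam A).f) (fun b' a' => ?_) x
  refine tens_ext (f := (actL A.diag.l).f ∘ₗ (kap (bOut A)).f ∘ₗ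
      (TensorProduct.mk k (QQ A).V (QQ A).V) (b' ⊗ₜ a'))
    (g := (gam A).f (b' ⊗ₜ a') ∘ₗ (actL A.diag.l).f) (fun b a => ?_) n
  have e1 : ∀ (s b a : A.V), (oR A).act (b ⊗ₜ a) s = (b * A.P s) ⊗ₜ[k] a +
    (b * (s - A.P s)) ⊗ₜ[k] A.E a := fun _ _ _ => rfl
  have e2 : ∀ (s b a : A.V), (oL A).act s (b ⊗ₜ a) = b ⊗ₜ[k] (A.P s * a) +
    A.E b ⊗ₜ[k] ((s - A.P s) * a) := fun _ _ _ => rfl
  have e3 : ∀ (b a : A.V), (QQ A).E (b ⊗ₜ a) = A.E b ⊗ₜ A.E a :=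
    fun b a => SD.tens_E A.toSD A.toSD b a
  have e4 : ∀ x y : A.V, (actL A.diag.l).f (x ⊗ₜ y) = x * y := fun _ _ => rfl
  have e5 : ∀ s : A.V, A.P (s - A.P s) = 0 := fun s => by rw [map_sub, A.PP, sub_self]
  have hP : ∀ x y : A.V, A.P (x * y) = A.P x * A.P y + (x - A.P x) * (y - A.P y) := A.P_mul
  change (actL A.diag.l).f ((kap (bOut A)).f ((b' ⊗ₜ a') ⊗ₜ (b ⊗ₜ a))) =
    (gam A).f (b' ⊗ₜ a') (b * a)
  rw [kap_tmul, gam_tmul]
  change (actL A.diag.l).f ((oL A).act (A.P a) ((oR A).act (b' ⊗ₜ a') b) +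
    (oL A).act (a - A.P a) ((QQ A).E ((oR A).act (b' ⊗ₜ a') b))) = _
  rw [e1, map_add (oL A |>.act (A.P a)), map_add (QQ A).E, map_add (oL A |>.act (a - A.P a)),
    e3, e3, e2, e2, e2, e2, e5, A.PP, sub_self, sub_zero]
  simp only [map_add, e4, A.EE, A.E_mul, A.EP, A.E_odd, zero_mul, mul_zero, add_zero, zero_add]
  rw [hP]
  simp only [A.E_apply, map_sub, map_neg, A.PP, mul_add, add_mul, mul_sub, sub_mul,
    mul_neg, neg_mul, mul_assoc]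
  abel

theorem qV_hat (x : (QQ A).V) (w : (HC (bOut A)).V) :
    (qV A).f ((hat (bOut A)).f x w) = (gam A).f x ((qV A).f w) := by
  rw [hat_apply]
  induction w using Wd.induction with
  | hadd a b ha hb => simp only [map_add, ha, hb]
  | hsnoc w _ r => rw [hn_snoc, qV_snoc, qV_snoc, map_zero]
  | hnil n => rw [hn_nil, qV_nil, qV_nil, bl_apply, qV_kap]

theorem finH_VQ (hA : A.toSD.FinH) : (HC (bOut A)).FinH := (qV_qi A).finH' hA

/-- **Two-C**: the pairing of `HC(Q)` is the pairing of `A` -/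
theorem tau_hat (hA : A.toSD.FinH) (hV : (HC (bOut A)).FinH)
    (h1 : (bQ1 A).IsHom (E1 (bVQ A)) (hat (bOut A)))
    (h2 : (bQ2 A).IsHom (E2 (bVQ A)) (hat (bOut A)))
    {z : (HC2 (bQ1 A) (bQ2 A) (Q1_Q2 A)).V}
    (hz1 : (HC2 (E1 (bVQ A)) (E2 (bVQ A)) (E1_E2 (bVQ A))).D
      ((hc2 (Q1_Q2 A) (E1_E2 (bVQ A)) (hat (bOut A)) h1 h2).f z) = 0)
    (hz2 : (HC2 (E1 A.diag) (E2 A.diag) (E1_E2 A.diag)).D
      ((hc2 (Q1_Q2 A) (E1_E2 A.diag) (gam A) (gam_E1 A) (gam_E2 A)).f z) = 0) :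
    tau (bVQ A) hV (SD.Coh.mk ((hc2 (Q1_Q2 A) (E1_E2 (bVQ A)) (hat (bOut A)) h1 h2).f z) hz1) =
      tau A.diag hA (SD.Coh.mk
        ((hc2 (Q1_Q2 A) (E1_E2 A.diag) (gam A) (gam_E1 A) (gam_E2 A)).f z) hz2) :=
  tau_comp (Q1_Q2 A) hV hA (qV_isHom A) (qV_qi A) (hat (bOut A)) h1 h2 (gam A) (gam_E1 A)
    (gam_E2 A) (fun x w => qV_hat A x w) hz1 hz2

/-- **Two-C**, for homology classes -/
theorem twoC (hA : A.toSD.FinH) (hV : (HC (bOut A)).FinH)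
    (c : (HC2 (bQ1 A) (bQ2 A) (Q1_Q2 A)).Coh) :
    tau (bVQ A) hV (SD.Coh.map (hc2 (Q1_Q2 A) (E1_E2 (bVQ A)) (hat (bOut A)) (hat_Q1 A)
      (hat_Q2 A)) c) =
    tau A.diag hA (SD.Coh.map (hc2 (Q1_Q2 A) (E1_E2 A.diag) (gam A) (gam_E1 A) (gam_E2 A))
      c) := by
  obtain ⟨z, hz, rfl⟩ := SD.Coh.exists_mk c
  rw [SD.Coh.map_mk, SD.Coh.map_mk]
  exact tau_hat A hA hV (hat_Q1 A) (hat_Q2 A) _ _

end Q

end NC
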