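import Pool.Agent.H16.NC.Bar

/-!
# BLOCK BAR, part 1: functoriality and exactness of the two sided bar complex

* `barMapG`, `barMap` : maps of bar complexes; `barMap_isHom` compatibility with outer structures;
* `ses_bar_left`, `ses_bar_right` : short exact sequences;
* `cone`, `coneRA`, `coneLA`, `coneBi`, `qi_iff_cone`, `BM.qi_comp`, `BM.qi_of_htpy`,
  `BM.qi_of_bij`;
* `acyclic_bar_left`, `acyclic_bar_right`, `qi_bar_left`, `qi_bar_right`, `qi_bar`;
* `barShL`, `barShR` : shifts.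
-/

set_option autoImplicit false

open scoped TensorProduct

noncomputable section

namespace NC

variable {k : Type} [Field k]

/-! ### operators on words and `Wd.map` -/

namespace BM

section

variable {N N' R R' : SD k} (f : SD.Hom N N') (g : SD.Hom R R')

theorem PW_map (w : Wd k N.V R.V) :
    PW N' R' (Wd.map f.f g.f w) = Wd.map f.f g.f (PW N R w) := by
  induction w using Wd.induction with
  | hadd a b ha hb => simp only [map_add, ha, hb]
  | hnil n => simp [f.P]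
  | hsnoc w hw r => simp [hw, g.P, g.E]

theorem EW_map (w : Wd k N.V R.V) :
    EW N' R' (Wd.map f.f g.f w) = Wd.map f.f g.f (EW N R w) := by
  simp only [EW_apply, PW_map, map_add, map_sub]

end

section

variable {R R' : DGA k} {N N' : SD k} (g : DGA.NHom R R')

theorem tl_map (ρ : RA R N) (ρ' : RA R' N') (f : SD.Hom N N')
    (h : ρ.IsHom (ρ'.res g) f) (w : Wd k N.V R.V) (r : R.V) :
    tl R' ρ'.act (Wd.map f.f g.f w) (g.f r) = Wd.map f.f g.f (tl R ρ.act w r) := by
  induction w using Wd.induction with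
  | hadd a b ha hb => simp only [map_add, LinearMap.add_apply, ha, hb]
  | hnil n =>
    have := h n r
    simp only [Wd.map_nil, tl_nil, this]
    rfl
  | hsnoc w hw s => simp [g.mul]

theorem Db_map (ρ : RA R N) (ρ' : RA R' N') (f : SD.Hom N N')
    (h : ρ.IsHom (ρ'.res g) f) (w : Wd k N.V R.V) :
    Db ρ' (Wd.map f.f g.f w) = Wd.map f.f g.f (Db ρ w) := by
  induction w using Wd.induction with
  | hadd a b ha hb => simp only [map_add, ha, hb]
  | hnil n => simp [f.D]
  | hsnoc w hw r =>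
    have hE := EW_map f g.toHom w
    simp only [Wd.map_snoc, Db_snoc, map_add, map_sub, hw, ← tl_map g ρ ρ' f h, ← g.D]
    rw [hE]

theorem hd_map {S : DGA k} (a : LA S N) (a' : LA S N') (f : SD.Hom N N')
    (h : a.IsHom a' f) (s : S.V) (w : Wd k N.V R.V) :
    hd R' a' s (Wd.map f.f g.f w) = Wd.map f.f g.f (hd R a s w) := by
  induction w using Wd.induction with
  | hadd a b ha hb => simp only [map_add, ha, hb]
  | hnil n => simp [h s n]
  | hsnoc w hw r => simp [hw]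

end

end BM

/-! ### maps of bar complexes -/

section

variable {R R' : DGA k} {X X' Y Y' : SD k} {ρ : RA R X} {l : LA R Y} {ρ' : RA R' X'}
  {l' : LA R' Y'}

theorem BM.lam_map (g : DGA.NHom R R') (f : SD.Hom X X') (h : SD.Hom Y Y')
    (hh : l.IsHom (l'.res g) h) (w : Wd k X.V R.V) (y : Y.V) :
    lam (X := X') l' (Wd.map f.f g.f w ⊗ₜ h.f y) =
      TensorProduct.map (Wd.map f.f g.f) h.f (lam (X := X) l (w ⊗ₜ y)) := by
  induction w using Wd.induction with
  | hadd a b ha hb => simp only [map_add, TensorProduct.add_tmul, ha, hb]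
  | hnil n => simp
  | hsnoc w hw r =>
    have hE := BM.EW_map f g.toHom w
    have hr : h.f (l.act r y) = l'.act (g.f r) (h.f y) := hh r y
    simp only [Wd.map_snoc, lam_snoc, TensorProduct.map_tmul, hr]
    rw [hE]

/-- the map of bar complexes along a homomorphism of dg algebras -/
def barMapG (g : DGA.NHom R R') (f : SD.Hom X X') (h : SD.Hom Y Y')
    (hf : ρ.IsHom (ρ'.res g) f) (hh : l.IsHom (l'.res g) h) :
    SD.Hom (Bar ρ l) (Bar ρ' l') where
  f := TensorProduct.map (Wd.map f.f g.f) h.f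
  D := fun v => by
    refine tens_ext (f := TensorProduct.map (Wd.map f.f g.f) h.f ∘ₗ barD ρ l)
      (g := barD ρ' l' ∘ₗ TensorProduct.map (Wd.map f.f g.f) h.f) (fun w y => ?_) v
    have hE := BM.EW_map f g.toHom w
    simp only [LinearMap.comp_apply, barD_tmul, map_add, map_sub, TensorProduct.map_tmul,
      BM.Db_map g ρ ρ' f hf, h.D]
    rw [hE, ← BM.lam_map g f h hh]
  P := fun v => by
    refine tens_ext (f := TensorProduct.map (Wd.map f.f g.f) h.f ∘ₗ barP X Y R)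
      (g := barP X' Y' R' ∘ₗ TensorProduct.map (Wd.map f.f g.f) h.f) (fun w y => ?_) v
    have hP := BM.PW_map f g.toHom w
    simp only [LinearMap.comp_apply, barP_tmul, map_add, map_sub, TensorProduct.map_tmul, h.P]
    rw [hP]

theorem barMapG_tmul (g : DGA.NHom R R') (f : SD.Hom X X') (h : SD.Hom Y Y')
    (hf : ρ.IsHom (ρ'.res g) f) (hh : l.IsHom (l'.res g) h) (w : Wd k X.V R.V) (y : Y.V) :
    (barMapG g f h hf hh).f (w ⊗ₜ y) = Wd.map f.f g.f w ⊗ₜ h.f y := rfl

end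

section

variable {R : DGA k} {X X' X'' Y Y' Y'' : SD k} {ρ : RA R X} {l : LA R Y} {ρ' : RA R X'}
  {l' : LA R Y'} {ρ'' : RA R X''} {l'' : LA R Y''}

/-- functoriality of the bar complex -/
def barMap (f : SD.Hom X X') (g : SD.Hom Y Y') (hf : ρ.IsHom ρ' f) (hg : l.IsHom l' g) :
    SD.Hom (Bar ρ l) (Bar ρ' l') :=
  barMapG (ρ' := ρ') (l' := l') (DGA.NHom.id R) f g hf hg

@[simp] theorem barMap_tmul (f : SD.Hom X X') (g : SD.Hom Y Y') (hf : ρ.IsHom ρ' f)
    (hg : l.IsHom l' g) (w : Wd k X.V R.V) (y : Y.V) :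
    (barMap f g hf hg).f (w ⊗ₜ y) = Wd.map f.f LinearMap.id w ⊗ₜ g.f y := rfl

theorem barMap_f (f : SD.Hom X X') (g : SD.Hom Y Y') (hf : ρ.IsHom ρ' f)
    (hg : l.IsHom l' g) :
    (barMap f g hf hg).f = TensorProduct.map (Wd.map f.f LinearMap.id) g.f := rfl

/-- the identity is compatible with all structures -/
theorem RA.isHom_id (ρ : RA R X) : ρ.IsHom ρ (SD.Hom.id X) := fun _ _ => rfl
theorem LA.isHom_id (l : LA R Y) : l.IsHom l (SD.Hom.id Y) := fun _ _ => rfl
theorem Bi.isHom_id {S : DGA k} (b : Bi R S Y) : b.IsHom b (SD.Hom.id Y) :=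
  ⟨LA.isHom_id b.l, RA.isHom_id b.r⟩

theorem RA.IsHom.comp {f : SD.Hom X X'} {f' : SD.Hom X' X''} (hf : ρ.IsHom ρ' f)
    (hf' : ρ'.IsHom ρ'' f') : ρ.IsHom ρ'' (f'.comp f) := fun n a => by
  rw [SD.Hom.comp_f, hf n a, hf' _ a]; rfl
theorem LA.IsHom.comp {f : SD.Hom Y Y'} {f' : SD.Hom Y' Y''} (hf : l.IsHom l' f)
    (hf' : l'.IsHom l'' f') : l.IsHom l'' (f'.comp f) := fun a n => by
  rw [SD.Hom.comp_f, hf a n, hf' a _]; rfl
theorem Bi.IsHom.comp {S : DGA k} {b : Bi R S X} {b' : Bi R S X'} {b'' : Bi R S X''}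
    {f : SD.Hom X X'} {f' : SD.Hom X' X''} (hf : b.IsHom b' f) (hf' : b'.IsHom b'' f') :
    b.IsHom b'' (f'.comp f) :=
  ⟨LA.IsHom.comp hf.l hf'.l, RA.IsHom.comp hf.r hf'.r⟩

/-- compatibility of `barMap` with outer structures -/
theorem barMap_isHom {S T : DGA k} {bX : Bi S R X} {bX' : Bi S R X'} {bY : Bi R T Y}
    {bY' : Bi R T Y'} {f : SD.Hom X X'} {g : SD.Hom Y Y'} (hf : bX.IsHom bX' f)
    (hg : bY.IsHom bY' g) :
    (bX.bar bY).IsHom (bX'.bar bY') (barMap f g hf.r hg.l) where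
  l := fun s v => by
    refine tens_ext
      (f := TensorProduct.map (Wd.map f.f LinearMap.id) g.f ∘ₗ
        LinearMap.rTensorHom Y.V (hd R bX.l s))
      (g := LinearMap.rTensorHom Y'.V (hd R bX'.l s) ∘ₗ
        TensorProduct.map (Wd.map f.f LinearMap.id) g.f) (fun w y => ?_) v
    have := BM.hd_map (DGA.NHom.id R) bX.l bX'.l f hf.l s w
    simp only [LinearMap.comp_apply, LinearMap.coe_rTensorHom, LinearMap.rTensor_tmul,
      TensorProduct.map_tmul]
    exact congrArg (· ⊗ₜ g.f y) this.symm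
  r := fun v t => by
    refine tens_ext
      (f := TensorProduct.map (Wd.map f.f LinearMap.id) g.f ∘ₗ
        LinearMap.lTensorHom (Wd k X.V R.V) (bY.r.act.flip t))
      (g := LinearMap.lTensorHom (Wd k X'.V R.V) (bY'.r.act.flip t) ∘ₗ
        TensorProduct.map (Wd.map f.f LinearMap.id) g.f) (fun w y => ?_) v
    have := hg.r y t
    simp only [LinearMap.comp_apply, LinearMap.coe_lTensorHom, LinearMap.lTensor_tmul,
      TensorProduct.map_tmul, LinearMap.flip_apply, this]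

end

/-! ### additivity in the head -/

namespace BM

section

variable {N N' N'' R R' R'' : Type} [AddCommGroup N] [Module k N] [AddCommGroup N'] [Module k N']
  [AddCommGroup N''] [Module k N''] [AddCommGroup R] [Module k R] [AddCommGroup R'] [Module k R']
  [AddCommGroup R''] [Module k R'']

theorem map_map (f : N →ₗ[k] N') (f' : N' →ₗ[k] N'') (g : R →ₗ[k] R') (g' : R' →ₗ[k] R'')
    (w : Wd k N R) : Wd.map f' g' (Wd.map f g w) = Wd.map (f' ∘ₗ f) (g' ∘ₗ g) w := by
  induction w using Wd.induction with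
  | hadd a b ha hb => simp only [map_add, ha, hb]
  | hnil n => simp
  | hsnoc w hw r => simp [hw]

theorem map_id (w : Wd k N R) :
    Wd.map (LinearMap.id : N →ₗ[k] N) (LinearMap.id : R →ₗ[k] R) w = w := by
  induction w using Wd.induction with
  | hadd a b ha hb => simp only [map_add, ha, hb]
  | hnil n => simp
  | hsnoc w hw r => simp [hw]

/-- `Wd.map · id` is additive -/
theorem map_add_head (f g : N →ₗ[k] N') (w : Wd k N R) :
    Wd.map (f + g) (LinearMap.id : R →ₗ[k] R) w =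
      Wd.map f LinearMap.id w + Wd.map g LinearMap.id w := by
  induction w using Wd.induction with
  | hadd a b ha hb => simp only [map_add, ha, hb]; abel
  | hnil n => simp
  | hsnoc w hw r => simp [hw]

theorem map_zero_head (w : Wd k N R) :
    Wd.map (0 : N →ₗ[k] N') (LinearMap.id : R →ₗ[k] R) w = 0 := by
  induction w using Wd.induction with
  | hadd a b ha hb => simp only [map_add, ha, hb, add_zero]
  | hnil n => simp
  | hsnoc w hw r => simp [hw]

theorem map_neg_head (f : N →ₗ[k] N') (w : Wd k N R) :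
    Wd.map (-f) (LinearMap.id : R →ₗ[k] R) w = - Wd.map f LinearMap.id w := by
  induction w using Wd.induction with
  | hadd a b ha hb => simp only [map_add, ha, hb]; abel
  | hnil n => simp
  | hsnoc w hw r => simp [hw]

/-- the functor `φ ↦ map φ id ⊗ id` -/
def HT (R : Type) [AddCommGroup R] [Module k R] (Y : Type) [AddCommGroup Y] [Module k Y]
    (φ : N →ₗ[k] N') : Wd k N R ⊗[k] Y →ₗ[k] Wd k N' R ⊗[k] Y :=
  TensorProduct.map (Wd.map φ LinearMap.id) LinearMap.id

@[simp] theorem HT_tmul {Y : Type} [AddCommGroup Y] [Module k Y] (φ : N →ₗ[k] N')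
    (w : Wd k N R) (y : Y) : HT R Y φ (w ⊗ₜ y) = Wd.map φ LinearMap.id w ⊗ₜ y := rfl

theorem HT_HT {Y : Type} [AddCommGroup Y] [Module k Y] (f : N →ₗ[k] N') (g : N' →ₗ[k] N'')
    (v : Wd k N R ⊗[k] Y) : HT R Y g (HT R Y f v) = HT R Y (g ∘ₗ f) v := by
  refine tens_ext (f := HT R Y g ∘ₗ HT R Y f) (g := HT R Y (g ∘ₗ f)) (fun w y => ?_) v
  simp only [LinearMap.comp_apply, HT_tmul, map_map]
  rfl

theorem HT_id {Y : Type} [AddCommGroup Y] [Module k Y] (v : Wd k N R ⊗[k] Y) :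
    HT R Y (LinearMap.id : N →ₗ[k] N) v = v := by
  refine tens_ext (f := HT R Y (LinearMap.id : N →ₗ[k] N)) (g := LinearMap.id) (fun w y => ?_) v
  simp [map_id]

theorem HT_add {Y : Type} [AddCommGroup Y] [Module k Y] (f g : N →ₗ[k] N')
    (v : Wd k N R ⊗[k] Y) : HT R Y (f + g) v = HT R Y f v + HT R Y g v := by
  refine tens_ext (f := HT R Y (f + g)) (g := HT R Y f + HT R Y g) (fun w y => ?_) v
  simp [map_add_head, TensorProduct.add_tmul]

theorem HT_zero {Y : Type} [AddCommGroup Y] [Module k Y] (v : Wd k N R ⊗[k] Y) :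
    HT R Y (0 : N →ₗ[k] N') v = 0 := by
  refine tens_ext (f := HT R Y (0 : N →ₗ[k] N')) (g := 0) (fun w y => ?_) v
  simp [map_zero_head]

end

/-- splitting of a short exact sequence -/
theorem split_of_ses {N' N N'' : SD k} {f : SD.Hom N' N} {g : SD.Hom N N''} (h : SD.SES f g) :
    ∃ (r : N.V →ₗ[k] N'.V) (s : N''.V →ₗ[k] N.V), r ∘ₗ f.f = LinearMap.id ∧
      g.f ∘ₗ s = LinearMap.id ∧ g.f ∘ₗ f.f = 0 ∧ f.f ∘ₗ r + s ∘ₗ g.f = LinearMap.id := by
  obtain ⟨s, hs⟩ := g.f.exists_rightInverse_of_surjective (LinearMap.range_eq_top.2 h.surj)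
  have hi : Function.Injective f.f := (injective_iff_map_eq_zero f.f).2 h.inj
  obtain ⟨r, hr⟩ := f.f.exists_leftInverse_of_injective (LinearMap.ker_eq_bot.2 hi)
  have hs' : ∀ z, g.f (s z) = z := fun z => LinearMap.congr_fun hs z
  have hr' : ∀ x, r (f.f x) = x := fun x => LinearMap.congr_fun hr x
  refine ⟨r ∘ₗ (LinearMap.id - s ∘ₗ g.f), s, ?_, hs, LinearMap.ext h.zero, ?_⟩
  · ext x
    simp [h.zero, hr']
  · ext y
    have h1 : g.f (y - s (g.f y)) = 0 := by rw [map_sub, hs', sub_self]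
    obtain ⟨x, hx⟩ := h.exact _ h1
    simp only [LinearMap.comp_apply, LinearMap.sub_apply, LinearMap.id_apply,
      LinearMap.add_apply]
    rw [← hx, hr', hx]
    abel

theorem ses_of_split {N' N N'' : SD k} {f : SD.Hom N' N} {g : SD.Hom N N''}
    {r : N.V →ₗ[k] N'.V} {s : N''.V →ₗ[k] N.V} (h1 : ∀ x, r (f.f x) = x)
    (h2 : ∀ z, g.f (s z) = z) (h3 : ∀ x, g.f (f.f x) = 0)
    (h4 : ∀ y, f.f (r y) + s (g.f y) = y) : SD.SES f g where
  inj := fun x hx => by rw [← h1 x, hx, map_zero]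
  surj := fun z => ⟨s z, h2 z⟩
  zero := h3
  exact := fun y hy => ⟨r y, by have := h4 y; rwa [hy, map_zero, add_zero] at this⟩

end BM

section

variable {R : DGA k} {X X' X'' Y Y' Y'' : SD k} {ρ : RA R X} {l : LA R Y} {ρ' : RA R X'}
  {l' : LA R Y'} {ρ'' : RA R X''} {l'' : LA R Y''}

/-- a short exact sequence of right modules gives one of bar complexes -/
theorem ses_bar_left {f : SD.Hom X' X} {g : SD.Hom X X''} (h : SD.SES f g)
    (hf : ρ'.IsHom ρ f) (hg : ρ.IsHom ρ'' g) (l : LA R Y) :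
    SD.SES (barMap f (SD.Hom.id Y) hf (LA.isHom_id l))
      (barMap g (SD.Hom.id Y) hg (LA.isHom_id l)) := by
  obtain ⟨r, s, h1, h2, h3, h4⟩ := BM.split_of_ses h
  refine BM.ses_of_split (r := BM.HT R.V Y.V r) (s := BM.HT R.V Y.V s)
    (fun x => ?_) (fun z => ?_) (fun x => ?_) (fun y => ?_)
  · change BM.HT R.V Y.V r (BM.HT R.V Y.V f.f x) = x
    rw [BM.HT_HT, h1, BM.HT_id]
  · change BM.HT R.V Y.V g.f (BM.HT R.V Y.V s z) = z
    rw [BM.HT_HT, h2, BM.HT_id]
  · change BM.HT R.V Y.V g.f (BM.HT R.V Y.V f.f x) = 0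
    rw [BM.HT_HT, h3, BM.HT_zero]
  · change BM.HT R.V Y.V f.f (BM.HT R.V Y.V r y) + BM.HT R.V Y.V s (BM.HT R.V Y.V g.f y) = y
    rw [BM.HT_HT, BM.HT_HT, ← BM.HT_add, h4, BM.HT_id]

/-- a short exact sequence of left modules gives one of bar complexes -/
theorem ses_bar_right {f : SD.Hom Y' Y} {g : SD.Hom Y Y''} (h : SD.SES f g)
    (hf : l'.IsHom l f) (hg : l.IsHom l'' g) (ρ : RA R X) :
    SD.SES (barMap (SD.Hom.id X) f (RA.isHom_id ρ) hf)
      (barMap (SD.Hom.id X) g (RA.isHom_id ρ) hg) := by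
  obtain ⟨r, s, h1, h2, h3, h4⟩ := BM.split_of_ses h
  have key : ∀ {Z Z' : Type} [AddCommGroup Z] [Module k Z] [AddCommGroup Z'] [Module k Z']
      (φ : Z →ₗ[k] Z') (v : Wd k X.V R.V ⊗[k] Z),
      TensorProduct.map (Wd.map (SD.Hom.id X).f LinearMap.id) φ v =
        LinearMap.lTensor (Wd k X.V R.V) φ v := by
    intro Z Z' _ _ _ _ φ v
    refine tens_ext (f := TensorProduct.map (Wd.map (SD.Hom.id X).f LinearMap.id) φ)
      (g := LinearMap.lTensor (Wd k X.V R.V) φ) (fun w y => ?_) v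
    simp only [TensorProduct.map_tmul, LinearMap.lTensor_tmul]
    exact congrArg (· ⊗ₜ φ y) (BM.map_id w)
  refine BM.ses_of_split (r := LinearMap.lTensor (Wd k X.V R.V) r)
    (s := LinearMap.lTensor (Wd k X.V R.V) s)
    (fun x => ?_) (fun z => ?_) (fun x => ?_) (fun y => ?_)
  · rw [barMap_f, key, ← LinearMap.lTensor_comp_apply, h1, LinearMap.lTensor_id_apply]
  · rw [barMap_f, key, ← LinearMap.lTensor_comp_apply, h2, LinearMap.lTensor_id_apply]
  · rw [barMap_f, key, barMap_f, key, ← LinearMap.lTensor_comp_apply, h3,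
      LinearMap.lTensor_zero, LinearMap.zero_apply]
  · rw [barMap_f, key, barMap_f, key, ← LinearMap.lTensor_comp_apply,
      ← LinearMap.lTensor_comp_apply, ← LinearMap.add_apply, ← LinearMap.lTensor_add, h4,
      LinearMap.lTensor_id_apply]

end

/-! ### odd and even operators on bar complexes -/

namespace BM

section

variable {R : DGA k} {X X' Y Y' : SD k} {ρ : RA R X} {l : LA R Y} {ρ' : RA R X'} {l' : LA R Y'}

theorem EW_map_even {N N' : SD k} (R : SD k) (φ : N.V →ₗ[k] N'.V)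
    (hE : ∀ x, N'.E (φ x) = φ (N.E x)) (w : Wd k N.V R.V) :
    EW N' R (Wd.map φ LinearMap.id w) = Wd.map φ LinearMap.id (EW N R w) := by
  induction w using Wd.induction with
  | hadd a b ha hb => simp only [map_add, ha, hb]
  | hnil n => simp [hE]
  | hsnoc w hw r => simp [hw]

theorem EW_map_odd {N N' : SD k} (R : SD k) (φ : N.V →ₗ[k] N'.V)
    (hE : ∀ x, N'.E (φ x) = - φ (N.E x)) (w : Wd k N.V R.V) :
    EW N' R (Wd.map φ LinearMap.id w) = - Wd.map φ LinearMap.id (EW N R w) := by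
  induction w using Wd.induction with
  | hadd a b ha hb => simp only [map_add, ha, hb]; abel
  | hnil n => simp [hE]
  | hsnoc w hw r => simp [hw]

theorem tl_map_id (φ : X.V →ₗ[k] X'.V) (hr : ∀ x r, φ (ρ.act x r) = ρ'.act (φ x) r)
    (w : Wd k X.V R.V) (r : R.V) :
    tl R ρ'.act (Wd.map φ LinearMap.id w) r = Wd.map φ LinearMap.id (tl R ρ.act w r) := by
  induction w using Wd.induction with
  | hadd a b ha hb => simp only [map_add, LinearMap.add_apply, ha, hb]
  | hnil n => simp [hr]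
  | hsnoc w hw s => simp

theorem Db_map_even (φ : X.V →ₗ[k] X'.V) (hE : ∀ x, X'.E (φ x) = φ (X.E x))
    (hr : ∀ x r, φ (ρ.act x r) = ρ'.act (φ x) r) (w : Wd k X.V R.V) :
    Db ρ' (Wd.map φ LinearMap.id w) = Wd.map φ LinearMap.id (Db ρ w) +
      Wd.map (X'.D ∘ₗ φ - φ ∘ₗ X.D) LinearMap.id w := by
  induction w using Wd.induction with
  | hadd a b ha hb => simp only [map_add, ha, hb]; abel
  | hnil n => simp
  | hsnoc w hw r =>
    simp only [Wd.map_snoc, Db_snoc, map_add, map_sub, hw, EW_map_even _ φ hE,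
      tl_map_id φ hr, LinearMap.add_apply, LinearMap.id_apply]
    abel

theorem Db_map_odd (φ : X.V →ₗ[k] X'.V) (hE : ∀ x, X'.E (φ x) = - φ (X.E x))
    (hr : ∀ x r, φ (ρ.act x r) = ρ'.act (φ x) r) (w : Wd k X.V R.V) :
    Db ρ' (Wd.map φ LinearMap.id w) = - Wd.map φ LinearMap.id (Db ρ w) +
      Wd.map (X'.D ∘ₗ φ + φ ∘ₗ X.D) LinearMap.id w := by
  induction w using Wd.induction with
  | hadd a b ha hb => simp only [map_add, ha, hb]; abel
  | hnil n => simp
  | hsnoc w hw r =>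
    simp only [Wd.map_snoc, Db_snoc, map_add, map_sub, hw, EW_map_odd _ φ hE, map_neg,
      tl_map_id φ hr, LinearMap.add_apply, LinearMap.id_apply, LinearMap.neg_apply]
    abel

/-- `HT` of an even map commutes with the bar differential up to `HT` of its boundary -/
theorem barD_HT_even (l : LA R Y) (φ : X.V →ₗ[k] X'.V) (hE : ∀ x, X'.E (φ x) = φ (X.E x))
    (hr : ∀ x r, φ (ρ.act x r) = ρ'.act (φ x) r) (v : Wd k X.V R.V ⊗[k] Y.V) :
    barD ρ' l (HT R.V Y.V φ v) = HT R.V Y.V φ (barD ρ l v) +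
      HT R.V Y.V (X'.D ∘ₗ φ - φ ∘ₗ X.D) v := by
  refine tens_ext (f := barD ρ' l ∘ₗ HT R.V Y.V φ)
    (g := HT R.V Y.V φ ∘ₗ barD ρ l + HT R.V Y.V (X'.D ∘ₗ φ - φ ∘ₗ X.D)) (fun w y => ?_) v
  have hlam : lam (X := X') l (Wd.map φ LinearMap.id w ⊗ₜ y) =
      HT R.V Y.V φ (lam (X := X) l (w ⊗ₜ y)) := by
    induction w using Wd.induction with
    | hadd a b ha hb => simp only [map_add, TensorProduct.add_tmul, ha, hb]
    | hnil n => simp
    | hsnoc w _ r => simp [EW_map_even _ φ hE]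
  simp only [LinearMap.comp_apply, LinearMap.add_apply, HT_tmul, barD_tmul, map_add, map_sub,
    hlam, Db_map_even φ hE hr, EW_map_even _ φ hE, TensorProduct.add_tmul]
  abel

/-- `HT` of an odd map anticommutes with the bar differential up to `HT` of its boundary -/
theorem barD_HT_odd (l : LA R Y) (φ : X.V →ₗ[k] X'.V) (hE : ∀ x, X'.E (φ x) = - φ (X.E x))
    (hr : ∀ x r, φ (ρ.act x r) = ρ'.act (φ x) r) (v : Wd k X.V R.V ⊗[k] Y.V) :
    barD ρ' l (HT R.V Y.V φ v) = - HT R.V Y.V φ (barD ρ l v) +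
      HT R.V Y.V (X'.D ∘ₗ φ + φ ∘ₗ X.D) v := by
  refine tens_ext (f := barD ρ' l ∘ₗ HT R.V Y.V φ)
    (g := -(HT R.V Y.V φ ∘ₗ barD ρ l) + HT R.V Y.V (X'.D ∘ₗ φ + φ ∘ₗ X.D)) (fun w y => ?_) v
  have hlam : lam (X := X') l (Wd.map φ LinearMap.id w ⊗ₜ y) =
      - HT R.V Y.V φ (lam (X := X) l (w ⊗ₜ y)) := by
    induction w using Wd.induction with
    | hadd a b ha hb => simp only [map_add, TensorProduct.add_tmul, ha, hb]; abel
    | hnil n => simp
    | hsnoc w _ r => simp [EW_map_odd _ φ hE, TensorProduct.neg_tmul]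
  simp only [LinearMap.comp_apply, LinearMap.add_apply, LinearMap.neg_apply, HT_tmul, barD_tmul,
    map_add, map_sub, hlam, Db_map_odd φ hE hr, EW_map_odd _ φ hE, TensorProduct.add_tmul,
    TensorProduct.neg_tmul]
  abel

/-- the operator `w ⊗ y ↦ w ⊗ ψ y` -/
def TT (X : SD k) (R : DGA k) {Y Y' : Type} [AddCommGroup Y] [Module k Y] [AddCommGroup Y']
    [Module k Y'] (ψ : Y →ₗ[k] Y') : Wd k X.V R.V ⊗[k] Y →ₗ[k] Wd k X.V R.V ⊗[k] Y' :=
  TensorProduct.map LinearMap.id ψ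

/-- the operator `w ⊗ y ↦ E w ⊗ ψ y` -/
def TO (X : SD k) (R : DGA k) {Y Y' : Type} [AddCommGroup Y] [Module k Y] [AddCommGroup Y']
    [Module k Y'] (ψ : Y →ₗ[k] Y') : Wd k X.V R.V ⊗[k] Y →ₗ[k] Wd k X.V R.V ⊗[k] Y' :=
  TensorProduct.map (EW X R.toSD) ψ

section
variable {Z Z' Z'' : Type} [AddCommGroup Z] [Module k Z] [AddCommGroup Z']
    [Module k Z'] [AddCommGroup Z''] [Module k Z'']

@[simp] theorem TT_tmul (X : SD k) (R : DGA k) (ψ : Z →ₗ[k] Z') (w : Wd k X.V R.V) (y : Z) :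
    TT X R ψ (w ⊗ₜ y) = w ⊗ₜ ψ y := rfl
@[simp] theorem TO_tmul (X : SD k) (R : DGA k) (ψ : Z →ₗ[k] Z') (w : Wd k X.V R.V) (y : Z) :
    TO X R ψ (w ⊗ₜ y) = EW X R.toSD w ⊗ₜ ψ y := rfl

theorem TT_TT (X : SD k) (R : DGA k) (f : Z →ₗ[k] Z') (g : Z' →ₗ[k] Z'')
    (v : Wd k X.V R.V ⊗[k] Z) : TT X R g (TT X R f v) = TT X R (g ∘ₗ f) v := by
  refine tens_ext (f := TT X R g ∘ₗ TT X R f) (g := TT X R (g ∘ₗ f)) (fun w y => rfl) v
theorem TO_TO (X : SD k) (R : DGA k) (f : Z →ₗ[k] Z') (g : Z' →ₗ[k] Z'')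
    (v : Wd k X.V R.V ⊗[k] Z) : TO X R g (TO X R f v) = TT X R (g ∘ₗ f) v := by
  refine tens_ext (f := TO X R g ∘ₗ TO X R f) (g := TT X R (g ∘ₗ f)) (fun w y => ?_) v
  simp [EW_EW]
theorem TT_TO (X : SD k) (R : DGA k) (f : Z →ₗ[k] Z') (g : Z' →ₗ[k] Z'')
    (v : Wd k X.V R.V ⊗[k] Z) : TT X R g (TO X R f v) = TO X R (g ∘ₗ f) v := by
  refine tens_ext (f := TT X R g ∘ₗ TO X R f) (g := TO X R (g ∘ₗ f)) (fun w y => rfl) v
theorem TO_TT (X : SD k) (R : DGA k) (f : Z →ₗ[k] Z') (g : Z' →ₗ[k] Z'')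
    (v : Wd k X.V R.V ⊗[k] Z) : TO X R g (TT X R f v) = TO X R (g ∘ₗ f) v := by
  refine tens_ext (f := TO X R g ∘ₗ TT X R f) (g := TO X R (g ∘ₗ f)) (fun w y => rfl) v
theorem TT_id (X : SD k) (R : DGA k) (v : Wd k X.V R.V ⊗[k] Z) :
    TT X R (LinearMap.id : Z →ₗ[k] Z) v = v := by
  refine tens_ext (f := TT X R (LinearMap.id : Z →ₗ[k] Z)) (g := LinearMap.id)
    (fun w y => rfl) v
theorem TT_add (X : SD k) (R : DGA k) (f g : Z →ₗ[k] Z') (v : Wd k X.V R.V ⊗[k] Z) :
    TT X R (f + g) v = TT X R f v + TT X R g v := by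
  refine tens_ext (f := TT X R (f + g)) (g := TT X R f + TT X R g) (fun w y => ?_) v
  simp [TensorProduct.tmul_add]
theorem TT_zero (X : SD k) (R : DGA k) (v : Wd k X.V R.V ⊗[k] Z) :
    TT X R (0 : Z →ₗ[k] Z') v = 0 := by
  refine tens_ext (f := TT X R (0 : Z →ₗ[k] Z')) (g := 0) (fun w y => ?_) v
  simp
theorem TO_zero (X : SD k) (R : DGA k) (v : Wd k X.V R.V ⊗[k] Z) :
    TO X R (0 : Z →ₗ[k] Z') v = 0 := by
  refine tens_ext (f := TO X R (0 : Z →ₗ[k] Z')) (g := 0) (fun w y => ?_) v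
  simp

end

/-- `TT` of a linear map with `ψ (r y) = r (ψ y)` -/
theorem barD_TT (ρ : RA R X) (ψ : Y.V →ₗ[k] Y'.V)
    (hr : ∀ r y, ψ (l.act r y) = l'.act r (ψ y)) (v : Wd k X.V R.V ⊗[k] Y.V) :
    barD ρ l' (TT X R ψ v) = TT X R ψ (barD ρ l v) + TO X R (Y'.D ∘ₗ ψ - ψ ∘ₗ Y.D) v := by
  refine tens_ext (f := barD ρ l' ∘ₗ TT X R ψ)
    (g := TT X R ψ ∘ₗ barD ρ l + TO X R (Y'.D ∘ₗ ψ - ψ ∘ₗ Y.D)) (fun w y => ?_) v
  have hlam : lam (X := X) l' (w ⊗ₜ ψ y) = TT X R ψ (lam (X := X) l (w ⊗ₜ y)) := by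
    induction w using Wd.induction with
    | hadd a b ha hb => simp only [map_add, TensorProduct.add_tmul, ha, hb]
    | hnil n => simp
    | hsnoc w _ r => simp [hr]
  simp only [LinearMap.comp_apply, LinearMap.add_apply, TT_tmul, TO_tmul, barD_tmul, map_add,
    map_sub, hlam, LinearMap.sub_apply, TensorProduct.tmul_sub]
  abel

/-- `TO` of a linear map with `ψ (r y) = E r (ψ y)` -/
theorem barD_TO (ρ : RA R X) (ψ : Y.V →ₗ[k] Y'.V)
    (hr : ∀ r y, ψ (l.act r y) = l'.act (R.E r) (ψ y)) (v : Wd k X.V R.V ⊗[k] Y.V) :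
    barD ρ l' (TO X R ψ v) = - TO X R ψ (barD ρ l v) + TT X R (Y'.D ∘ₗ ψ + ψ ∘ₗ Y.D) v := by
  refine tens_ext (f := barD ρ l' ∘ₗ TO X R ψ)
    (g := -(TO X R ψ ∘ₗ barD ρ l) + TT X R (Y'.D ∘ₗ ψ + ψ ∘ₗ Y.D)) (fun w y => ?_) v
  have hlam : lam (X := X) l' (EW X R.toSD w ⊗ₜ ψ y) =
      - TO X R ψ (lam (X := X) l (w ⊗ₜ y)) := by
    induction w using Wd.induction with
    | hadd a b ha hb => simp only [map_add, TensorProduct.add_tmul, ha, hb]; abel
    | hnil n => simp
    | hsnoc w _ r => simp [hr, EW_EW, TensorProduct.neg_tmul]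
  simp only [LinearMap.comp_apply, LinearMap.add_apply, LinearMap.neg_apply, TT_tmul, TO_tmul,
    barD_tmul, map_add, map_sub, hlam, TensorProduct.tmul_add, Db_EW, EW_EW,
    TensorProduct.neg_tmul]
  abel

end

end BM

/-! ### shifts -/

section

variable {R : DGA k} {X Y : SD k}

theorem BM.HT_id_eq : (BM.HT R.V Y.V (LinearMap.id : X.V →ₗ[k] X.V)) = LinearMap.id :=
  LinearMap.ext (fun v => BM.HT_id v)

/-- `Bar(X[1], R, Y) = Bar(X, R, Y)[1]` -/
theorem barD_sh_left (ρ : RA R X) (l : LA R Y) (v : Wd k X.V R.V ⊗[k] Y.V) :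
    barD ρ.sh l v = - barD ρ l v := by
  have h := BM.barD_HT_odd (ρ := ρ) (ρ' := ρ.sh) l LinearMap.id
    (fun x => SD.E_sh X x) (fun _ _ => rfl) v
  rw [BM.HT_id_eq] at h
  have h2 : (X.sh.D ∘ₗ LinearMap.id + LinearMap.id ∘ₗ X.D : X.V →ₗ[k] X.V) = 0 := by
    ext x
    simp
  have h3 := BM.HT_zero (N' := X.V) v
  rw [← h2] at h3
  refine h.trans ?_
  rw [LinearMap.id_apply]
  exact (congrArg (fun z => - barD ρ l v + z) h3).trans (add_zero _)

end

/-! ### cones -/

section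

variable {N N' : SD k}

/-- the differential of the cone -/
def coneD (f : SD.Hom N N') : (N'.V × N.V) →ₗ[k] (N'.V × N.V) :=
  LinearMap.prod (N'.D ∘ₗ LinearMap.fst k N'.V N.V + f.f ∘ₗ LinearMap.snd k N'.V N.V)
    (-(N.D ∘ₗ LinearMap.snd k N'.V N.V))

/-- the even part of the cone -/
def coneP (N N' : SD k) : (N'.V × N.V) →ₗ[k] (N'.V × N.V) :=
  LinearMap.prodMap N'.P (LinearMap.id - N.P)

@[simp] theorem coneD_apply (f : SD.Hom N N') (v : N'.V × N.V) :
    coneD f v = (N'.D v.1 + f.f v.2, - N.D v.2) := rfl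
@[simp] theorem coneP_apply (v : N'.V × N.V) :
    coneP N N' v = (N'.P v.1, v.2 - N.P v.2) := rfl

/-- the cone of a morphism -/
abbrev cone (f : SD.Hom N N') : SD k where
  V := N'.V × N.V
  D := coneD f
  P := coneP N N'
  DD := fun v => by
    ext
    · simp [N'.DD, f.D]
    · simp [N.DD]
  PP := fun v => by
    ext
    · simp [N'.PP]
    · simp [N.PP]
  DP := fun v => by
    ext
    · simp [N'.DP, f.P]; abel
    · simp [N.DP]

theorem cone_E (f : SD.Hom N N') (v : N'.V × N.V) :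
    (cone f).E v = (N'.E v.1, - N.E v.2) := by
  change coneP N N' v + coneP N N' v - v = _
  ext
  · simp [SD.E_apply]
  · simp [SD.E_apply]; abel

/-- a morphism is a quasi-isomorphism iff its cone is acyclic -/
theorem qi_iff_cone (f : SD.Hom N N') : f.QI ↔ (cone f).Acyclic := by
  constructor
  · intro h v hv
    obtain ⟨x', x⟩ := v
    have h1 : N'.D x' + f.f x = 0 := congrArg Prod.fst hv
    have h2 : N.D x = 0 := neg_eq_zero.1 (congrArg Prod.snd hv)
    obtain ⟨z, hz⟩ := h.inj x (-x') h2 (by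
      rw [map_neg]; exact eq_neg_of_add_eq_zero_right h1)
    have h3 : N'.D (x' + f.f z) = 0 := by rw [map_add, ← f.D, hz]; exact h1
    obtain ⟨a, b, ha, hb⟩ := h.surj _ h3
    refine ⟨(b, a - z), ?_⟩
    change (N'.D b + f.f (a - z), -(N.D (a - z))) = (x', x)
    have e1 : N'.D b + f.f (a - z) = x' := by
      rw [map_sub]
      have : N'.D b = x' + f.f z - f.f a := by rw [hb]; abel
      rw [this]; abel
    have e2 : -(N.D (a - z)) = x := by rw [map_sub, ha, hz]; abel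
    rw [e1, e2]
  · intro h
    constructor
    · intro x y hx hy
      obtain ⟨⟨a, b⟩, hab⟩ := h (-y, x) (by
        change (N'.D (-y) + f.f x, -(N.D x)) = 0
        rw [map_neg, hy, hx, neg_zero, neg_add_cancel]; rfl)
      have h2 : -(N.D b) = x := congrArg Prod.snd hab
      exact ⟨-b, by rw [map_neg, h2]⟩
    · intro y hy
      obtain ⟨⟨a, b⟩, hab⟩ := h (y, 0) (by
        change (N'.D y + f.f 0, -(N.D 0)) = 0
        rw [hy, map_zero, map_zero, neg_zero, add_zero]; rfl)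
      have h1 : N'.D a + f.f b = y := congrArg Prod.fst hab
      have h2 : -(N.D b) = 0 := congrArg Prod.snd hab
      exact ⟨b, a, neg_eq_zero.1 h2, by rw [← h1]; abel⟩

/-- composition of quasi-isomorphisms -/
theorem BM.qi_comp {N'' : SD k} {f : SD.Hom N N'} {g : SD.Hom N' N''} (hf : f.QI) (hg : g.QI) :
    (g.comp f).QI := by
  constructor
  · intro x y hx hy
    obtain ⟨z, hz⟩ := hg.inj (f.f x) y (by rw [← f.D, hx, map_zero]) hy
    exact hf.inj x z hx hz.symm
  · intro y hy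
    obtain ⟨a, b, ha, hb⟩ := hg.surj y hy
    obtain ⟨c, d, hc, hd⟩ := hf.surj a ha
    refine ⟨c, b + g.f d, hc, ?_⟩
    rw [hb, hd, SD.Hom.comp_f, map_add, map_add, g.D]
    abel

/-- a homotopy equivalence is a quasi-isomorphism -/
theorem BM.qi_of_htpy {f : SD.Hom N N'} (g : SD.Hom N' N) (s : N.V →ₗ[k] N.V)
    (s' : N'.V →ₗ[k] N'.V) (h : ∀ x, N.D (s x) + s (N.D x) = x - g.f (f.f x))
    (h' : ∀ x, N'.D (s' x) + s' (N'.D x) = x - f.f (g.f x)) : f.QI := by
  constructor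
  · intro x y hx hy
    refine ⟨s x + g.f y, ?_⟩
    have := h x
    rw [hx, map_zero, add_zero] at this
    rw [map_add, this, ← g.D, ← hy]
    abel
  · intro y hy
    refine ⟨g.f y, s' y, by rw [← g.D, hy, map_zero], ?_⟩
    have := h' y
    rw [hy, map_zero, add_zero] at this
    rw [this]
    abel

/-- right action on a cone -/
def coneRA {R : DGA k} {ρ : RA R N} {ρ' : RA R N'} {f : SD.Hom N N'} (hf : ρ.IsHom ρ' f) :
    RA R (cone f) where
  act := LinearMap.mk₂ k (fun v r => (ρ'.act v.1 r, ρ.act v.2 r))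
    (by intro v v' r; simp) (by intro c v r; simp)
    (by intro v r r'; simp) (by intro c v r; simp)
  act_mul := fun v r s => by
    change (ρ'.act (ρ'.act v.1 r) s, ρ.act (ρ.act v.2 r) s) =
      (ρ'.act v.1 (r * s), ρ.act v.2 (r * s))
    rw [ρ'.act_mul, ρ.act_mul]
  P_act := fun v r => by
    change (N'.P (ρ'.act v.1 r), ρ.act v.2 r - N.P (ρ.act v.2 r)) =
      (ρ'.act (N'.P v.1) (R.P r), ρ.act (v.2 - N.P v.2) (R.P r)) +
      (ρ'.act (v.1 - N'.P v.1) (r - R.P r), ρ.act (v.2 - (v.2 - N.P v.2)) (r - R.P r))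
    rw [ρ'.P_act, ρ.P_act]
    ext
    · rfl
    · simp only [map_sub, LinearMap.sub_apply, Prod.snd_add]
      abel
  D_act := fun v r => by
    rw [cone_E]
    change (N'.D (ρ'.act v.1 r) + f.f (ρ.act v.2 r), -(N.D (ρ.act v.2 r))) =
      (ρ'.act (N'.D v.1 + f.f v.2) r, ρ.act (-(N.D v.2)) r) +
      (ρ'.act (N'.E v.1) (R.D r), ρ.act (-(N.E v.2)) (R.D r))
    rw [ρ'.D_act, ρ.D_act, hf]
    ext
    · simp only [map_add, LinearMap.add_apply, Prod.fst_add]
      abel
    · simp only [map_neg, LinearMap.neg_apply, Prod.snd_add]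
      abel

/-- left action on a cone -/
def coneLA {R : DGA k} {l : LA R N} {l' : LA R N'} {f : SD.Hom N N'} (hf : l.IsHom l' f) :
    LA R (cone f) where
  act := LinearMap.mk₂ k (fun r v => (l'.act r v.1, l.act (R.E r) v.2))
    (by intro r r' v; simp) (by intro c r v; simp)
    (by intro r v v'; simp) (by intro c r v; simp)
  mul_act := fun r s v => by
    change (l'.act (r * s) v.1, l.act (R.E (r * s)) v.2) =
      (l'.act r (l'.act s v.1), l.act (R.E r) (l.act (R.E s) v.2))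
    rw [R.E_mul, l'.mul_act, l.mul_act]
  P_act := fun r v => by
    change (N'.P (l'.act r v.1), l.act (R.E r) v.2 - N.P (l.act (R.E r) v.2)) =
      (l'.act (R.P r) (N'.P v.1), l.act (R.E (R.P r)) (v.2 - N.P v.2)) +
      (l'.act (r - R.P r) (v.1 - N'.P v.1),
        l.act (R.E (r - R.P r)) (v.2 - (v.2 - N.P v.2)))
    rw [l'.P_act, l.P_act]
    ext
    · rfl
    · simp only [SD.E_apply, R.PP, map_sub, map_add, LinearMap.sub_apply, LinearMap.add_apply,
        Prod.snd_add]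
      abel
  D_act := fun r v => by
    change (N'.D (l'.act r v.1) + f.f (l.act (R.E r) v.2), -(N.D (l.act (R.E r) v.2))) =
      (l'.act (R.D r) v.1, l.act (R.E (R.D r)) v.2) +
      (l'.act (R.E r) (N'.D v.1 + f.f v.2), l.act (R.E (R.E r)) (-(N.D v.2)))
    rw [l'.D_act, l.D_act, hf, R.DE]
    ext
    · simp only [map_add, Prod.fst_add]
      abel
    · simp only [map_neg, LinearMap.neg_apply, Prod.snd_add]
      abel

/-- bimodule structure on a cone -/
def coneBi {R S : DGA k} {b : Bi R S N} {b' : Bi R S N'} {f : SD.Hom N N'}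
    (hf : b.IsHom b' f) : Bi R S (cone f) where
  l := coneLA hf.l
  r := coneRA hf.r
  lr := fun a x c => by
    change (b'.r.act (b'.l.act a x.1) c, b.r.act (b.l.act (R.E a) x.2) c) =
      (b'.l.act a (b'.r.act x.1 c), b.l.act (R.E a) (b.r.act x.2 c))
    rw [b'.lr, b.lr]

end

/-! ### acyclicity and quasi-isomorphisms -/

section

variable {R : DGA k} {X X' Y Y' : SD k} {ρ : RA R X} {l : LA R Y} {ρ' : RA R X'} {l' : LA R Y'}

/-- pseudo-inverses of linear maps over a field -/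
theorem BM.exists_pinv {V W : Type} [AddCommGroup V] [Module k V] [AddCommGroup W] [Module k W]
    (D : V →ₗ[k] W) : ∃ g : W →ₗ[k] V, ∀ v, D (g (D v)) = D v := by
  obtain ⟨g0, hg0⟩ := D.rangeRestrict.exists_rightInverse_of_surjective D.range_rangeRestrict
  obtain ⟨g, hg⟩ := g0.exists_extend
  refine ⟨g, fun v => ?_⟩
  have h1 : g (D v) = g0 (D.rangeRestrict v) := LinearMap.congr_fun hg (D.rangeRestrict v)
  have h2 : D.rangeRestrict (g0 (D.rangeRestrict v)) = D.rangeRestrict v :=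
    LinearMap.congr_fun hg0 _
  rw [h1]
  exact congrArg Subtype.val h2

/-- an acyclic differential module has an odd contraction -/
theorem BM.exists_contraction {N : SD k} (h : N.Acyclic) : ∃ s : N.V →ₗ[k] N.V,
    (∀ x, N.D (s x) + s (N.D x) = x) ∧ (∀ x, N.E (s x) = - s (N.E x)) := by
  obtain ⟨g, hg⟩ := BM.exists_pinv N.D
  have hs0 : ∃ s0 : N.V →ₗ[k] N.V, ∀ x, N.D (s0 x) = x - s0 (N.D x) := by
    refine ⟨g ∘ₗ (LinearMap.id - g ∘ₗ N.D), fun x => ?_⟩
    have h1 : N.D (x - g (N.D x)) = 0 := by rw [map_sub, hg, sub_self]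
    obtain ⟨y, hy⟩ := h _ h1
    simp only [LinearMap.comp_apply, LinearMap.sub_apply, LinearMap.id_apply, N.DD, map_zero,
      sub_zero]
    rw [← hy, hg, hy]
  obtain ⟨s0, hs0⟩ := hs0
  refine ⟨N.P ∘ₗ s0 ∘ₗ (LinearMap.id - N.P) + (LinearMap.id - N.P) ∘ₗ s0 ∘ₗ N.P,
    fun x => ?_, fun x => ?_⟩
  · simp only [LinearMap.comp_apply, LinearMap.sub_apply, LinearMap.id_apply,
      LinearMap.add_apply, map_add, map_sub, N.DP, hs0, N.PP]
    abel
  · simp only [LinearMap.comp_apply, LinearMap.sub_apply, LinearMap.id_apply,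
      LinearMap.add_apply, map_add, map_sub, N.PP, SD.E_apply]
    abel

/-- acyclicity from a contraction up to lower filtration -/
theorem BM.acyclic_of_filt {N : SD k} (F : ℕ → Submodule k N.V) (h0 : ∀ x ∈ F 0, x = 0)
    (hex : ∀ x, ∃ n, x ∈ F n) (S : N.V →ₗ[k] N.V)
    (hS : ∀ n, ∀ x ∈ F (n + 1), x - (N.D (S x) + S (N.D x)) ∈ F n) : N.Acyclic := by
  have key : ∀ n, ∀ x ∈ F n, N.D x = 0 → ∃ y, N.D y = x := by
    intro n
    induction n with
    | zero => intro x hx _; exact ⟨0, by rw [map_zero, h0 x hx]⟩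
    | succ n ih =>
      intro x hx hd
      have h1 := hS n x hx
      rw [hd, map_zero, add_zero] at h1
      obtain ⟨y, hy⟩ := ih _ h1 (by rw [map_sub, hd, N.DD, sub_zero])
      exact ⟨y + S x, by rw [map_add, hy]; abel⟩
  intro x hx
  obtain ⟨n, hn⟩ := hex x
  exact key n x hn hx

/-- the length filtration of the bar complex -/
def barF (X : SD k) (R : DGA k) (Y : Type) [AddCommGroup Y] [Module k Y] :
    ℕ → Submodule k (Wd k X.V R.V ⊗[k] Y)
  | 0 => ⊥
  | n + 1 => Submodule.map₂ (TensorProduct.mk k (Wd k X.V R.V) Y) (Wd.len k X.V R.V n) ⊤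

theorem tmul_mem_barF {Y : Type} [AddCommGroup Y] [Module k Y] {n : ℕ} {w : Wd k X.V R.V}
    (h : w ∈ Wd.len k X.V R.V n) (y : Y) : w ⊗ₜ[k] y ∈ barF X R Y (n + 1) :=
  Submodule.apply_mem_map₂ (TensorProduct.mk k (Wd k X.V R.V) Y) h trivial

theorem barF_mono (X : SD k) (R : DGA k) (Y : Type) [AddCommGroup Y] [Module k Y] (n : ℕ) :
    barF X R Y n ≤ barF X R Y (n + 1) := by
  cases n with
  | zero => exact bot_le
  | succ n => exact Submodule.map₂_le_map₂ (Wd.len_mono n) le_rfl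

theorem barF_le (X : SD k) (R : DGA k) (Y : Type) [AddCommGroup Y] [Module k Y] {m n : ℕ}
    (h : m ≤ n) : barF X R Y m ≤ barF X R Y n := by
  induction h with
  | refl => exact le_rfl
  | step _ ih => exact ih.trans (barF_mono X R Y _)

theorem exists_mem_barF (X : SD k) (R : DGA k) (Y : Type) [AddCommGroup Y] [Module k Y]
    (v : Wd k X.V R.V ⊗[k] Y) : ∃ n, v ∈ barF X R Y n := by
  induction v using TensorProduct.induction_on with
  | zero => exact ⟨0, Submodule.zero_mem _⟩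
  | tmul w y =>
    obtain ⟨n, hn⟩ := Wd.exists_mem_len w
    exact ⟨n + 1, tmul_mem_barF hn y⟩
  | add a b ha hb =>
    obtain ⟨m, hm⟩ := ha
    obtain ⟨n, hn⟩ := hb
    exact ⟨max m n, Submodule.add_mem _ (barF_le X R Y (le_max_left _ _) hm)
      (barF_le X R Y (le_max_right _ _) hn)⟩

theorem EW_mem_len {N R : SD k} {n : ℕ} {w : Wd k N.V R.V} (h : w ∈ Wd.len k N.V R.V n) :
    EW N R w ∈ Wd.len k N.V R.V n := by
  induction n generalizing w with
  | zero =>
    obtain ⟨x, rfl⟩ := h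
    rw [EW_nil]; exact Wd.nil_mem_len _ _
  | succ n ih =>
    have hle : Wd.len k N.V R.V (n + 1) ≤ (Wd.len k N.V R.V (n + 1)).comap (EW N R) := by
      apply sup_le
      · rintro _ ⟨x, rfl⟩
        rw [Submodule.mem_comap, EW_nil]; exact Wd.nil_mem_len _ _
      · rw [Submodule.map₂_le]
        intro u hu r _
        rw [Submodule.mem_comap, EW_snoc]
        exact Submodule.neg_mem _ (Wd.snoc_mem_len (ih hu) _)
    exact hle h

theorem lam_mem_barF (l : LA R Y) {n : ℕ} {w : Wd k X.V R.V} (h : w ∈ Wd.len k X.V R.V n)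
    (y : Y.V) : lam (X := X) l (w ⊗ₜ y) ∈ barF X R Y.V n := by
  cases n with
  | zero =>
    obtain ⟨x, rfl⟩ := h
    rw [lam_nil]; exact Submodule.zero_mem _
  | succ n =>
    have hle : Wd.len k X.V R.V (n + 1) ≤ (barF X R Y.V (n + 1)).comap
        (lam (X := X) l ∘ₗ (TensorProduct.mk k (Wd k X.V R.V) Y.V).flip y) := by
      apply sup_le
      · rintro _ ⟨x, rfl⟩
        simp
      · rw [Submodule.map₂_le]
        intro u hu r _
        rw [Submodule.mem_comap, LinearMap.comp_apply, LinearMap.flip_apply,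
          TensorProduct.mk_apply, lam_snoc]
        exact tmul_mem_barF (EW_mem_len hu) _
    exact hle h

theorem TO_mem_barF {Y Y' : Type} [AddCommGroup Y] [Module k Y] [AddCommGroup Y'] [Module k Y']
    (ψ : Y →ₗ[k] Y') {n : ℕ} {v : Wd k X.V R.V ⊗[k] Y} (h : v ∈ barF X R Y n) :
    BM.TO X R ψ v ∈ barF X R Y' n := by
  cases n with
  | zero =>
    have : v = 0 := h
    rw [this, map_zero]; exact Submodule.zero_mem _
  | succ n =>
    have hle : barF X R Y (n + 1) ≤ (barF X R Y' (n + 1)).comap (BM.TO X R ψ) := by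
      unfold barF
      rw [Submodule.map₂_le]
      intro u hu y _
      exact tmul_mem_barF (EW_mem_len hu) _
    exact hle h

/-- words of length at most `n - 1` -/
def lenm (k : Type) [Field k] (N R : Type) [AddCommGroup N] [Module k N]
    [AddCommGroup R] [Module k R] : ℕ → Submodule k (Wd k N R)
  | 0 => ⊥
  | n + 1 => Wd.len k N R n

theorem contraction_words (ρ : RA R X) (s : X.V →ₗ[k] X.V)
    (h : ∀ x, X.D (s x) + s (X.D x) = x) (hE : ∀ x, X.E (s x) = - s (X.E x)) (n : ℕ)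
    (w : Wd k X.V R.V) (hw : w ∈ Wd.len k X.V R.V n) :
    w - (Db ρ (Wd.map s LinearMap.id w) + Wd.map s LinearMap.id (Db ρ w)) ∈
      lenm k X.V R.V n := by
  have hbr : ∀ (w : Wd k X.V R.V) (r : R.V),
      tl R ρ.act (Wd.map s LinearMap.id w) r - Wd.map s LinearMap.id (tl R ρ.act w r) ∈
        Wd.len k X.V R.V 0 := by
    intro w r
    induction w using Wd.induction with
    | hadd a b ha hb =>
      have := Submodule.add_mem _ ha hb
      convert this using 1
      simp only [map_add, LinearMap.add_apply]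
      abel
    | hnil x =>
      rw [Wd.map_nil, tl_nil, tl_nil, Wd.map_nil, ← map_sub]
      exact Wd.nil_mem_len _ _
    | hsnoc w _ t =>
      rw [Wd.map_snoc, tl_snoc, tl_snoc, Wd.map_snoc]
      simp
  have hnil : ∀ x : X.V, Wd.nil x - (Db ρ (Wd.map s LinearMap.id (Wd.nil x)) +
      Wd.map s LinearMap.id (Db ρ (Wd.nil x))) = (0 : Wd k X.V R.V) := by
    intro x
    rw [Wd.map_nil, Db_nil, Db_nil, Wd.map_nil, ← map_add, h, sub_self]
  induction n generalizing w with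
  | zero =>
    obtain ⟨x, rfl⟩ := hw
    rw [hnil]
    exact Submodule.zero_mem _
  | succ n ih =>
    have hle : Wd.len k X.V R.V (n + 1) ≤ (Wd.len k X.V R.V n).comap
        (LinearMap.id - (Db ρ ∘ₗ Wd.map s LinearMap.id + Wd.map s LinearMap.id ∘ₗ Db ρ)) := by
      apply sup_le
      · rintro _ ⟨x, rfl⟩
        rw [Submodule.mem_comap]
        simp only [LinearMap.sub_apply, LinearMap.add_apply, LinearMap.comp_apply,
          LinearMap.id_apply]
        rw [hnil]
        exact Submodule.zero_mem _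
      · rw [Submodule.map₂_le]
        intro u hu r _
        rw [Submodule.mem_comap]
        have h1 : Wd.snoc (u - (Db ρ (Wd.map s LinearMap.id u) +
            Wd.map s LinearMap.id (Db ρ u))) r ∈ Wd.len k X.V R.V n := by
          have h2 := ih u hu
          cases n with
          | zero =>
            have h3 : u - (Db ρ (Wd.map s LinearMap.id u) +
              Wd.map s LinearMap.id (Db ρ u)) = 0 := h2
            rw [h3]; simp
          | succ n => exact Wd.snoc_mem_len h2 r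
        have h4 := Submodule.add_mem _ h1 (Wd.len_le (Nat.zero_le n)
          (hbr (EW X R.toSD u) r))
        convert h4 using 1
        simp only [LinearMap.sub_apply, LinearMap.add_apply, LinearMap.comp_apply,
          LinearMap.id_apply, Wd.map_snoc, Db_snoc, map_add, map_sub,
          BM.EW_map_odd R.toSD s hE, map_neg, LinearMap.neg_apply]
        abel
    exact hle hw

theorem acyclic_bar_left (ρ : RA R X) (l : LA R Y) (h : X.Acyclic) : (Bar ρ l).Acyclic := by
  obtain ⟨s, hs, hE⟩ := BM.exists_contraction h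
  refine BM.acyclic_of_filt (barF X R Y.V) (fun x hx => hx) (exists_mem_barF X R Y.V)
    (BM.HT R.V Y.V s) (fun n => ?_)
  have hle : barF X R Y.V (n + 1) ≤ (barF X R Y.V n).comap
      (LinearMap.id - (barD ρ l ∘ₗ BM.HT R.V Y.V s + BM.HT R.V Y.V s ∘ₗ barD ρ l)) := by
    unfold barF
    rw [Submodule.map₂_le]
    intro w hw y _
    rw [Submodule.mem_comap]
    have hlam : lam (X := X) l (Wd.map s LinearMap.id w ⊗ₜ y) =
        - BM.HT R.V Y.V s (lam (X := X) l (w ⊗ₜ y)) := by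
      clear hw
      induction w using Wd.induction with
      | hadd a b ha hb => simp only [map_add, TensorProduct.add_tmul, ha, hb]; abel
      | hnil n => simp
      | hsnoc w _ r => simp [BM.EW_map_odd _ s hE, TensorProduct.neg_tmul]
    have h1 : (LinearMap.id - (barD ρ l ∘ₗ BM.HT R.V Y.V s + BM.HT R.V Y.V s ∘ₗ barD ρ l) :
        Wd k X.V R.V ⊗[k] Y.V →ₗ[k] Wd k X.V R.V ⊗[k] Y.V) (w ⊗ₜ[k] y) = (w - (Db ρ (Wd.map s LinearMap.id w) +
          Wd.map s LinearMap.id (Db ρ w))) ⊗ₜ y := by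
      simp only [LinearMap.sub_apply, LinearMap.add_apply, LinearMap.comp_apply,
        LinearMap.id_apply, BM.HT_tmul, barD_tmul, map_add, map_sub, hlam,
        BM.EW_map_odd R.toSD s hE, TensorProduct.neg_tmul, TensorProduct.sub_tmul,
        TensorProduct.add_tmul]
      abel
    rw [TensorProduct.mk_apply, h1]
    have h2 := contraction_words ρ s hs hE n w hw
    cases n with
    | zero =>
      have h3 : w - (Db ρ (Wd.map s LinearMap.id w) + Wd.map s LinearMap.id (Db ρ w)) = 0 := h2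
      rw [h3, TensorProduct.zero_tmul]
      exact Submodule.zero_mem _
    | succ n => exact tmul_mem_barF h2 y
  intro x hx
  exact hle hx

theorem acyclic_bar_right (ρ : RA R X) (l : LA R Y) (h : Y.Acyclic) : (Bar ρ l).Acyclic := by
  obtain ⟨s, hs, _⟩ := BM.exists_contraction h
  refine BM.acyclic_of_filt (barF X R Y.V) (fun x hx => hx) (exists_mem_barF X R Y.V)
    (BM.TO X R s) (fun n => ?_)
  have hle : barF X R Y.V (n + 1) ≤ (barF X R Y.V n).comap
      (LinearMap.id - (barD ρ l ∘ₗ BM.TO X R s + BM.TO X R s ∘ₗ barD ρ l)) := by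
    have hu : barF X R Y.V (n + 1) = Submodule.map₂ (TensorProduct.mk k (Wd k X.V R.V) Y.V)
      (Wd.len k X.V R.V n) ⊤ := rfl
    rw [hu, Submodule.map₂_le]
    intro w hw y _
    rw [Submodule.mem_comap]
    have h1 : (LinearMap.id - (barD ρ l ∘ₗ BM.TO X R s + BM.TO X R s ∘ₗ barD ρ l) :
        Wd k X.V R.V ⊗[k] Y.V →ₗ[k] Wd k X.V R.V ⊗[k] Y.V) (w ⊗ₜ[k] y) = lam (X := X) l (EW X R.toSD w ⊗ₜ s y) +
          BM.TO X R s (lam (X := X) l (w ⊗ₜ y)) := by
      have h2 : w ⊗ₜ[k] y = w ⊗ₜ[k] Y.D (s y) + w ⊗ₜ[k] s (Y.D y) := by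
        rw [← TensorProduct.tmul_add, hs]
      simp only [LinearMap.sub_apply, LinearMap.add_apply, LinearMap.comp_apply,
        LinearMap.id_apply, BM.TO_tmul, barD_tmul, map_add, map_sub, Db_EW, EW_EW,
        TensorProduct.neg_tmul]
      rw [h2]
      abel
    rw [TensorProduct.mk_apply, h1]
    exact Submodule.add_mem _ (lam_mem_barF l (EW_mem_len hw) _)
      (TO_mem_barF s (lam_mem_barF l hw y))
  intro x hx
  exact hle hx

theorem BM.hom_ext {N N' : SD k} {f g : SD.Hom N N'} (h : ∀ x, f.f x = g.f x) : f = g := by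
  obtain ⟨f, _, _⟩ := f
  obtain ⟨g, _, _⟩ := g
  have : f = g := LinearMap.ext h
  subst this
  rfl

/-- acyclicity passes through a linear isomorphism that commutes with the differentials -/
theorem BM.acyclic_of_iso {N N' : SD k} (J : N.V →ₗ[k] N'.V) (K : N'.V →ₗ[k] N.V)
    (hJK : ∀ u, J (K u) = u) (hKJ : ∀ z, K (J z) = z) (hD : ∀ z, N'.D (J z) = J (N.D z))
    (h : N'.Acyclic) : N.Acyclic := by
  intro z hz
  obtain ⟨u, hu⟩ := h (J z) (by rw [hD, hz, map_zero])
  refine ⟨K u, ?_⟩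
  have h1 : J (N.D (K u)) = J z := by rw [← hD, hJK, hu]
  rw [← hKJ (N.D (K u)), h1, hKJ]

theorem qi_bar_left {f : SD.Hom X X'} (hf : ρ.IsHom ρ' f) (l : LA R Y) (qf : f.QI) :
    (barMap f (SD.Hom.id Y) hf (LA.isHom_id l)).QI := by
  rw [qi_iff_cone]
  have hac : (Bar (coneRA hf) l).Acyclic :=
    acyclic_bar_left (coneRA hf) l ((qi_iff_cone f).1 qf)
  have h1 : ∀ v : Wd k X'.V R.V ⊗[k] Y.V,
      barD (coneRA hf) l (BM.HT R.V Y.V (LinearMap.inl k X'.V X.V) v) =
        BM.HT R.V Y.V (LinearMap.inl k X'.V X.V) (barD ρ' l v) := by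
    intro v
    have h := BM.barD_HT_even (ρ := ρ') (ρ' := coneRA hf) l (LinearMap.inl k X'.V X.V)
      (fun x => by
        rw [cone_E]
        change (X'.E x, -(X.E 0)) = (X'.E x, 0)
        rw [map_zero, neg_zero])
      (fun x r => by
        change (ρ'.act x r, (0 : X.V)) = (ρ'.act x r, ρ.act 0 r)
        rw [map_zero]; rfl) v
    have h0 : (coneD f ∘ₗ LinearMap.inl k X'.V X.V - LinearMap.inl k X'.V X.V ∘ₗ X'.D) = 0 := by
      ext x
      · simp
      · simp
    have h2 := BM.HT_zero (N' := X'.V × X.V) v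
    rw [← h0] at h2
    refine h.trans ?_
    exact (congrArg (fun z => BM.HT R.V Y.V (LinearMap.inl k X'.V X.V) (barD ρ' l v) + z)
      h2).trans (add_zero _)
  have h2 : ∀ v : Wd k X.V R.V ⊗[k] Y.V,
      barD (coneRA hf) l (BM.HT R.V Y.V (LinearMap.inr k X'.V X.V) v) =
        - BM.HT R.V Y.V (LinearMap.inr k X'.V X.V) (barD ρ l v) +
          BM.HT R.V Y.V (LinearMap.inl k X'.V X.V) (BM.HT R.V Y.V f.f v) := by
    intro v
    have h := BM.barD_HT_odd (ρ := ρ) (ρ' := coneRA hf) l (LinearMap.inr k X'.V X.V)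
      (fun x => by
        rw [cone_E]
        change (X'.E 0, -(X.E x)) = -((0 : X'.V), X.E x)
        rw [map_zero]; ext <;> simp)
      (fun x r => by
        change ((0 : X'.V), ρ.act x r) = (ρ'.act 0 r, ρ.act x r)
        rw [map_zero]; rfl) v
    have h0 : (coneD f ∘ₗ LinearMap.inr k X'.V X.V + LinearMap.inr k X'.V X.V ∘ₗ X.D) =
        LinearMap.inl k X'.V X.V ∘ₗ f.f := by
      ext x
      · simp
      · simp
    rw [BM.HT_HT, ← h0]
    exact h
  refine BM.acyclic_of_iso (N' := Bar (coneRA hf) l)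
    (LinearMap.coprod (BM.HT R.V Y.V (LinearMap.inl k X'.V X.V))
      (BM.HT R.V Y.V (LinearMap.inr k X'.V X.V)))
    (LinearMap.prod (BM.HT R.V Y.V (LinearMap.fst k X'.V X.V))
      (BM.HT R.V Y.V (LinearMap.snd k X'.V X.V))) (fun u => ?_) (fun z => ?_) (fun z => ?_) hac
  · change BM.HT R.V Y.V (LinearMap.inl k X'.V X.V) (BM.HT R.V Y.V (LinearMap.fst k X'.V X.V) u) +
      BM.HT R.V Y.V (LinearMap.inr k X'.V X.V) (BM.HT R.V Y.V (LinearMap.snd k X'.V X.V) u) = u
    rw [BM.HT_HT, BM.HT_HT, ← BM.HT_add]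
    have h0 : LinearMap.inl k X'.V X.V ∘ₗ LinearMap.fst k X'.V X.V +
        LinearMap.inr k X'.V X.V ∘ₗ LinearMap.snd k X'.V X.V = LinearMap.id := by
      ext x <;> simp
    rw [h0, BM.HT_id]
  · obtain ⟨v', v⟩ := z
    change (BM.HT R.V Y.V (LinearMap.fst k X'.V X.V)
        (BM.HT R.V Y.V (LinearMap.inl k X'.V X.V) v' + BM.HT R.V Y.V (LinearMap.inr k X'.V X.V) v),
      BM.HT R.V Y.V (LinearMap.snd k X'.V X.V)
        (BM.HT R.V Y.V (LinearMap.inl k X'.V X.V) v' +
          BM.HT R.V Y.V (LinearMap.inr k X'.V X.V) v)) = (v', v)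
    rw [map_add, map_add, BM.HT_HT, BM.HT_HT, BM.HT_HT, BM.HT_HT, LinearMap.fst_comp_inl,
      LinearMap.fst_comp_inr, LinearMap.snd_comp_inl, LinearMap.snd_comp_inr, BM.HT_id,
      BM.HT_zero, BM.HT_zero, BM.HT_id, add_zero, zero_add]
  · obtain ⟨v', v⟩ := z
    change barD (coneRA hf) l (BM.HT R.V Y.V (LinearMap.inl k X'.V X.V) v' +
        BM.HT R.V Y.V (LinearMap.inr k X'.V X.V) v) =
      BM.HT R.V Y.V (LinearMap.inl k X'.V X.V) (barD ρ' l v' + BM.HT R.V Y.V f.f v) +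
        BM.HT R.V Y.V (LinearMap.inr k X'.V X.V) (-(barD ρ l v))
    rw [map_add, h1, h2, map_add, map_neg]
    abel

theorem qi_bar_right (ρ : RA R X) {g : SD.Hom Y Y'} (hg : l.IsHom l' g) (qg : g.QI) :
    (barMap (SD.Hom.id X) g (RA.isHom_id ρ) hg).QI := by
  rw [qi_iff_cone]
  have hac : (Bar ρ (coneLA hg)).Acyclic :=
    acyclic_bar_right ρ (coneLA hg) ((qi_iff_cone g).1 qg)
  have hbm : ∀ v : Wd k X.V R.V ⊗[k] Y.V,
      (barMap (SD.Hom.id X) g (RA.isHom_id ρ) hg).f v = BM.TT X R g.f v := by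
    intro v
    refine tens_ext (f := (barMap (SD.Hom.id X) g (RA.isHom_id ρ) hg).f) (g := BM.TT X R g.f)
      (fun w y => ?_) v
    exact congrArg (· ⊗ₜ g.f y) (BM.map_id w)
  have h1 : ∀ v : Wd k X.V R.V ⊗[k] Y'.V,
      barD ρ (coneLA hg) (BM.TT X R (LinearMap.inl k Y'.V Y.V) v) =
        BM.TT X R (LinearMap.inl k Y'.V Y.V) (barD ρ l' v) := by
    intro v
    have h := BM.barD_TT (l := l') (l' := coneLA hg) ρ (LinearMap.inl k Y'.V Y.V)
      (fun r y => by
        change (l'.act r y, (0 : Y.V)) = (l'.act r y, l.act (R.E r) 0)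
        rw [map_zero]) v
    have h0 : (coneD g ∘ₗ LinearMap.inl k Y'.V Y.V - LinearMap.inl k Y'.V Y.V ∘ₗ Y'.D) = 0 := by
      ext x
      · simp
      · simp
    have h2 := BM.TO_zero (Z' := Y'.V × Y.V) X R v
    rw [← h0] at h2
    refine h.trans ?_
    exact (congrArg (fun z => BM.TT X R (LinearMap.inl k Y'.V Y.V) (barD ρ l' v) + z)
      h2).trans (add_zero _)
  have h2 : ∀ v : Wd k X.V R.V ⊗[k] Y.V,
      barD ρ (coneLA hg) (BM.TO X R (LinearMap.inr k Y'.V Y.V) v) =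
        - BM.TO X R (LinearMap.inr k Y'.V Y.V) (barD ρ l v) +
          BM.TT X R (LinearMap.inl k Y'.V Y.V) (BM.TT X R g.f v) := by
    intro v
    have h := BM.barD_TO (l := l) (l' := coneLA hg) ρ (LinearMap.inr k Y'.V Y.V)
      (fun r y => by
        change ((0 : Y'.V), l.act r y) = (l'.act (R.E r) 0, l.act (R.E (R.E r)) y)
        rw [map_zero, R.EE]) v
    have h0 : (coneD g ∘ₗ LinearMap.inr k Y'.V Y.V + LinearMap.inr k Y'.V Y.V ∘ₗ Y.D) =
        LinearMap.inl k Y'.V Y.V ∘ₗ g.f := by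
      ext x
      · simp
      · simp
    rw [BM.TT_TT, ← h0]
    exact h
  refine BM.acyclic_of_iso (N' := Bar ρ (coneLA hg))
    (LinearMap.coprod (BM.TT X R (LinearMap.inl k Y'.V Y.V))
      (BM.TO X R (LinearMap.inr k Y'.V Y.V)))
    (LinearMap.prod (BM.TT X R (LinearMap.fst k Y'.V Y.V))
      (BM.TO X R (LinearMap.snd k Y'.V Y.V))) (fun u => ?_) (fun z => ?_) (fun z => ?_) hac
  · change BM.TT X R (LinearMap.inl k Y'.V Y.V) (BM.TT X R (LinearMap.fst k Y'.V Y.V) u) +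
      BM.TO X R (LinearMap.inr k Y'.V Y.V) (BM.TO X R (LinearMap.snd k Y'.V Y.V) u) = u
    rw [BM.TT_TT, BM.TO_TO, ← BM.TT_add]
    have h0 : LinearMap.inl k Y'.V Y.V ∘ₗ LinearMap.fst k Y'.V Y.V +
        LinearMap.inr k Y'.V Y.V ∘ₗ LinearMap.snd k Y'.V Y.V = LinearMap.id := by
      ext x <;> simp
    rw [h0, BM.TT_id]
  · obtain ⟨v', v⟩ := z
    change (BM.TT X R (LinearMap.fst k Y'.V Y.V)
        (BM.TT X R (LinearMap.inl k Y'.V Y.V) v' + BM.TO X R (LinearMap.inr k Y'.V Y.V) v),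
      BM.TO X R (LinearMap.snd k Y'.V Y.V)
        (BM.TT X R (LinearMap.inl k Y'.V Y.V) v' +
          BM.TO X R (LinearMap.inr k Y'.V Y.V) v)) = (v', v)
    rw [map_add, map_add, BM.TT_TT, BM.TT_TO, BM.TO_TT, BM.TO_TO, LinearMap.fst_comp_inl,
      LinearMap.fst_comp_inr, LinearMap.snd_comp_inl, LinearMap.snd_comp_inr, BM.TT_id,
      BM.TO_zero, BM.TO_zero, BM.TT_id, add_zero, zero_add]
  · obtain ⟨v', v⟩ := z
    change barD ρ (coneLA hg) (BM.TT X R (LinearMap.inl k Y'.V Y.V) v' +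
        BM.TO X R (LinearMap.inr k Y'.V Y.V) v) =
      BM.TT X R (LinearMap.inl k Y'.V Y.V) (barD ρ l' v' +
          (barMap (SD.Hom.id X) g (RA.isHom_id ρ) hg).f v) +
        BM.TO X R (LinearMap.inr k Y'.V Y.V) (-(barD ρ l v))
    rw [map_add, h1, h2, map_add, map_neg, hbm]
    abel

/-- the bar complex preserves quasi-isomorphisms -/
theorem qi_bar {f : SD.Hom X X'} {g : SD.Hom Y Y'} (hf : ρ.IsHom ρ' f) (hg : l.IsHom l' g)
    (qf : f.QI) (qg : g.QI) : (barMap f g hf hg).QI := by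
  have h1 := BM.qi_comp (qi_bar_left hf l qf) (qi_bar_right ρ' hg qg)
  have h2 : barMap f g hf hg = (barMap (SD.Hom.id X') g (RA.isHom_id ρ') hg).comp
      (barMap f (SD.Hom.id Y) hf (LA.isHom_id l)) := by
    refine BM.hom_ext (fun v => ?_)
    refine tens_ext (f := (barMap f g hf hg).f)
      (g := (barMap (SD.Hom.id X') g (RA.isHom_id ρ') hg).f ∘ₗ
        (barMap f (SD.Hom.id Y) hf (LA.isHom_id l)).f) (fun w y => ?_) v
    exact congrArg (· ⊗ₜ g.f y) (BM.map_id (Wd.map f.f LinearMap.id w)).symm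
  rw [h2]
  exact h1

end

/-! ### shifts as isomorphisms -/

section

variable {R S T : DGA k} {X Y : SD k}

/-- `Bar(X[1], R, Y) = Bar(X, R, Y)[1]`, the identity map -/
def barShL (ρ : RA R X) (l : LA R Y) : SD.Hom (Bar ρ.sh l) (Bar ρ l).sh where
  f := LinearMap.id
  D := fun v => barD_sh_left ρ l v
  P := fun v => by
    change barP X.sh Y R v = v - barP X Y R v
    refine tens_ext (f := barP X.sh Y R) (g := LinearMap.id - barP X Y R) (fun w y => ?_) v
    have hP : ∀ w : Wd k X.V R.V, PW X.sh R.toSD w = w - PW X R.toSD w := by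
      intro w
      induction w using Wd.induction with
      | hadd a b ha hb =>
        have h1 := map_add (PW X.sh R.toSD) a b
        refine h1.trans ?_
        rw [ha, hb, map_add]; abel
      | hnil n =>
        refine (PW_nil X.sh R.toSD n).trans ?_
        rw [PW_nil]
        exact map_sub Wd.nil n (X.P n)
      | hsnoc w hw r =>
        refine (PW_snoc X.sh R.toSD w r).trans ?_
        rw [hw, PW_snoc]
        simp only [map_sub, LinearMap.sub_apply]
        have : Wd.snoc w (R.E r) = Wd.snoc w (R.P r) + Wd.snoc w (R.P r) - Wd.snoc w r := by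
          rw [← map_add, ← map_sub]; rfl
        rw [this]
        abel
    refine (barP_tmul w y).trans ?_
    rw [hP]
    change _ = w ⊗ₜ[k] y - barP X Y R (w ⊗ₜ y)
    rw [barP_tmul]
    simp only [TensorProduct.sub_tmul, TensorProduct.tmul_sub]
    abel

/-- `Bar(X, R, Y)[1] = Bar(X, R, Y[1])`, the map `w ⊗ y ↦ E w ⊗ y` -/
def barShR (ρ : RA R X) (l : LA R Y) : SD.Hom (Bar ρ l).sh (Bar ρ l.sh) where
  f := BM.TO X R LinearMap.id
  D := fun v => by
    have h := BM.barD_TO (l := l) (l' := l.sh) ρ LinearMap.id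
      (fun r y => by
        change l.act r y = l.act (R.E (R.E r)) y
        rw [R.EE]) v
    have h2 : (Y.sh.D ∘ₗ LinearMap.id + LinearMap.id ∘ₗ Y.D : Y.V →ₗ[k] Y.V) = 0 := by
      ext x
      simp
    have h3 := BM.TT_zero (Z' := Y.V) X R v
    rw [← h2] at h3
    have h4 := h.trans ((congrArg (fun z => - BM.TO X R LinearMap.id (barD ρ l v) + z)
      h3).trans (add_zero _))
    change BM.TO X R LinearMap.id (-(barD ρ l v)) = barD ρ l.sh (BM.TO X R LinearMap.id v)
    rw [map_neg]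
    exact h4.symm
  P := fun v => by
    change BM.TO X R LinearMap.id (v - barP X Y R v) = barP X Y.sh R (BM.TO X R LinearMap.id v)
    refine tens_ext (f := BM.TO X R LinearMap.id ∘ₗ (LinearMap.id - barP X Y R))
      (g := barP X Y.sh R ∘ₗ BM.TO X R LinearMap.id) (fun w y => ?_) v
    change BM.TO X R LinearMap.id (w ⊗ₜ y - barP X Y R (w ⊗ₜ y)) =
      PW X R.toSD (EW X R.toSD w) ⊗ₜ (y - Y.P y) +
        (EW X R.toSD w - PW X R.toSD (EW X R.toSD w)) ⊗ₜ (y - (y - Y.P y))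
    rw [barP_tmul]
    simp only [map_sub, map_add, BM.TO_tmul, EW_apply, PW_PW, LinearMap.id_apply,
      TensorProduct.sub_tmul, TensorProduct.tmul_sub, TensorProduct.add_tmul]
    abel

/-- a bijective morphism is a quasi-isomorphism -/
theorem BM.qi_of_bij {N N' : SD k} (f : SD.Hom N N') (g : N'.V → N.V)
    (h1 : ∀ x, g (f.f x) = x) (h2 : ∀ y, f.f (g y) = y) : f.QI := by
  have hi : Function.Injective f.f := Function.LeftInverse.injective h1
  constructor
  · intro x y hx hy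
    refine ⟨g y, hi ?_⟩
    rw [f.D, h2, hy]
  · intro y hy
    refine ⟨g y, 0, hi ?_, ?_⟩
    · rw [f.D, h2, hy, map_zero]
    · rw [h2, map_zero, add_zero]

theorem qi_barShL (ρ : RA R X) (l : LA R Y) : (barShL ρ l).QI :=
  BM.qi_of_bij _ (fun x => x) (fun _ => rfl) (fun _ => rfl)

theorem qi_barShR (ρ : RA R X) (l : LA R Y) : (barShR ρ l).QI :=
  BM.qi_of_bij _ (BM.TO X R (LinearMap.id : Y.V →ₗ[k] Y.V))
    (fun x => (BM.TO_TO X R _ _ x).trans (BM.TT_id X R x))
    (fun x => (BM.TO_TO X R _ _ x).trans (BM.TT_id X R x))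

theorem barShL_isHom (bX : Bi S R X) (bY : Bi R T Y) :
    (bX.sh.bar bY).IsHom (bX.bar bY).sh (barShL bX.r bY.l) where
  l := fun s v => rfl
  r := fun v t => rfl

theorem barShR_isHom (bX : Bi S R X) (bY : Bi R T Y) :
    (bX.bar bY).sh.IsHom (bX.bar bY.sh) (barShR bX.r bY.l) where
  l := fun s v => by
    change BM.TO X R LinearMap.id (LinearMap.rTensorHom Y.V (hd R bX.l (S.E s)) v) =
      LinearMap.rTensorHom Y.V (hd R bX.l s) (BM.TO X R LinearMap.id v)
    refine tens_ext (f := BM.TO X R LinearMap.id ∘ₗ LinearMap.rTensorHom Y.V (hd R bX.l (S.E s)))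
      (g := LinearMap.rTensorHom Y.V (hd R bX.l s) ∘ₗ BM.TO X R LinearMap.id)
      (fun w y => ?_) v
    change EW X R.toSD (hd R bX.l (S.E s) w) ⊗ₜ[k] y = hd R bX.l s (EW X R.toSD w) ⊗ₜ[k] y
    rw [hd_EW, S.EE]
  r := fun v t => by
    change BM.TO X R LinearMap.id (LinearMap.lTensorHom (Wd k X.V R.V) (bY.r.act.flip t) v) =
      LinearMap.lTensorHom (Wd k X.V R.V) (bY.r.act.flip t) (BM.TO X R LinearMap.id v)
    refine tens_ext
      (f := BM.TO X R LinearMap.id ∘ₗ LinearMap.lTensorHom (Wd k X.V R.V) (bY.r.act.flip t))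
      (g := LinearMap.lTensorHom (Wd k X.V R.V) (bY.r.act.flip t) ∘ₗ BM.TO X R LinearMap.id)
      (fun w y => rfl) v

end

end NC
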