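import Pool.Agent.H28.NC.BarMap
import Pool.Agent.H94.NC.GDefs
import Pool.Agent.H94.NC.WGr

/-!
# Tools for the graded bar resolution

* `internal_of_comps`, `internal_tens` : internal gradings of tensor products;
* degrees of the operators on words;
* `exists_adapted` : homogeneous bases adapted to the differential;
* `wdb` : words in a basis; `wdEquiv` : they form a basis.
-/

set_option autoImplicit false

open scoped TensorProduct

noncomputable section

namespace NC

variable {k : Type} [Field k]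

namespace BG

/-! ### internal gradings -/

theorem internal_of_comps {V : Type} [AddCommGroup V] [Module k V] {g : ℤ → Submodule k V}
    (F : V →ₗ[k] (ℤ → V))
    (h1 : ∀ m, ∀ v ∈ g m, F v = LinearMap.single k (fun _ => V) m v)
    (h2 : ∀ v, v ∈ iSup g) : DirectSum.IsInternal g := by
  have key : ∀ (x : DirectSum ℤ (fun m => g m)) (m : ℤ),
      F (DirectSum.coeAddMonoidHom g x) m = (x m : V) := by
    intro x m
    induction x using DirectSum.induction_on with
    | zero => simp
    | of i y =>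
      rw [DirectSum.coeAddMonoidHom_of, h1 _ _ y.2]
      by_cases h : m = i
      · subst h
        simp
      · rw [DirectSum.of_eq_of_ne _ _ _ h]
        simp [h]
    | add x y hx hy =>
      rw [map_add, map_add, Pi.add_apply, hx, hy, DirectSum.add_apply]
      rfl
  constructor
  · rw [injective_iff_map_eq_zero]
    intro x hx
    ext m
    rw [← key x m, hx, map_zero]
    rfl
  · intro v
    have h3 : v ∈ LinearMap.range (DirectSum.coeLinearMap g) := by
      rw [DirectSum.range_coeLinearMap]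
      exact h2 v
    obtain ⟨x, hx⟩ := h3
    exact ⟨x, hx⟩

/-- the grading of a tensor product; the first factor counts negatively -/
def tgrd {V W : Type} [AddCommGroup V] [Module k V] [AddCommGroup W] [Module k W]
    (g : ℤ → Submodule k V) (h : ℤ → Submodule k W) (i : ℤ) : Submodule k (V ⊗[k] W) :=
  Submodule.span k {z | ∃ m j w y, j - m = i ∧ w ∈ g m ∧ y ∈ h j ∧ z = w ⊗ₜ[k] y}

theorem tmul_mem_tgrd {V W : Type} [AddCommGroup V] [Module k V] [AddCommGroup W] [Module k W]
    {g : ℤ → Submodule k V} {h : ℤ → Submodule k W} {m j : ℤ} {v : V} {w : W}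
    (hv : v ∈ g m) (hw : w ∈ h j) : v ⊗ₜ[k] w ∈ tgrd g h (j - m) :=
  Submodule.subset_span ⟨m, j, v, w, rfl, hv, hw, rfl⟩

theorem internal_tens {V W : Type} [AddCommGroup V] [Module k V] [AddCommGroup W] [Module k W]
    {g : ℤ → Submodule k V} {h : ℤ → Submodule k W} (hg : DirectSum.IsInternal g)
    (hh : DirectSum.IsInternal h) : DirectSum.IsInternal (tgrd g h) := by
  let Bm : ℤ → (V →ₗ[k] W →ₗ[k] (ℤ → V ⊗[k] W)) := fun m =>
    (Wd.ofInt hh (fun j => ((TensorProduct.mk k V W).compr₂
      (LinearMap.single k (fun _ => V ⊗[k] W) (j - m))).flip)).flip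
  let F : V ⊗[k] W →ₗ[k] (ℤ → V ⊗[k] W) := TensorProduct.lift (Wd.ofInt hg Bm)
  have hF : ∀ m j v w, v ∈ g m → w ∈ h j →
      F (v ⊗ₜ w) = LinearMap.single k (fun _ => V ⊗[k] W) (j - m) (v ⊗ₜ w) := by
    intro m j v w hv hw
    change Wd.ofInt hg Bm v w = _
    rw [Wd.ofInt_apply hg Bm hv]
    change Wd.ofInt hh (fun j => ((TensorProduct.mk k V W).compr₂
      (LinearMap.single k (fun _ => V ⊗[k] W) (j - m))).flip) w v = _
    rw [Wd.ofInt_apply hh _ hw]
    rfl
  refine internal_of_comps F (fun i z hz => ?_) (fun z => ?_)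
  · have hle : tgrd g h i ≤ LinearMap.eqLocus F (LinearMap.single k (fun _ => V ⊗[k] W) i) := by
      refine Submodule.span_le.2 ?_
      rintro _ ⟨m, j, v, w, rfl, hv, hw, rfl⟩
      exact hF m j v w hv hw
    exact hle hz
  · have h1 : ∀ v w, v ⊗ₜ[k] w ∈ iSup (tgrd g h) := by
      intro v w
      refine Wd.mem_of_int hg
        ((iSup (tgrd g h)).comap ((TensorProduct.mk k V W).flip w)) (fun m v hv => ?_) v
      refine Wd.mem_of_int hh ((iSup (tgrd g h)).comap (TensorProduct.mk k V W v))
        (fun j w hw => ?_) w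
      exact (le_iSup (tgrd g h) (j - m)) (tmul_mem_tgrd hv hw)
    induction z using TensorProduct.induction_on with
    | zero => exact Submodule.zero_mem _
    | tmul v w => exact h1 v w
    | add a b ha hb => exact Submodule.add_mem _ ha hb

/-! ### degrees of the operators on words -/

section

variable (A : ZDGA k)

theorem even_aux (m j : ℤ) : Even (m + 1 - j) ↔ ¬ (Even m ↔ Even j) := by
  rw [Int.even_sub, Int.even_add_one]
  tauto

theorem PW_wgr {m : ℤ} {w : Wd k A.V A.V} (hw : w ∈ Wd.wgr A.gr A.gr m) :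
    PW A.toSD A.toSD w = if Even m then w else 0 := by
  refine Wd.wgr_induction A.gr A.gr
    (p := fun m w => PW A.toSD A.toSD w = if Even m then w else 0) ?_ ?_ ?_ ?_ ?_ hw
  · intro m; simp
  · intro m a b ha hb
    rw [map_add, ha, hb]
    split_ifs <;> simp
  · intro m c a ha
    rw [map_smul, ha]
    split_ifs <;> simp
  · intro i a ha
    rw [PW_nil, A.P_gr i a ha]
    have h1 : Even (-i) ↔ Even i := by simp
    by_cases h : Even i
    · rw [if_pos h, if_pos (h1.2 h)]
    · rw [if_neg h, if_neg (fun h2 => h (h1.1 h2)), map_zero]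
  · intro m j w r _ hw hr
    rw [PW_snoc, hw, SD.E_apply, A.P_gr j r hr]
    by_cases h1 : Even m <;> by_cases h2 : Even j
    · rw [if_pos h1, if_pos h2, if_neg (by rw [even_aux]; tauto)]
      simp
    · rw [if_pos h1, if_neg h2, if_pos (by rw [even_aux]; tauto)]
      simp
    · rw [if_neg h1, if_pos h2, if_pos (by rw [even_aux]; tauto)]
      simp
    · rw [if_neg h1, if_neg h2, if_neg (by rw [even_aux]; tauto)]
      simp

theorem EW_wgr {m : ℤ} {w : Wd k A.V A.V} (hw : w ∈ Wd.wgr A.gr A.gr m) :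
    EW A.toSD A.toSD w = if Even m then w else -w := by
  rw [EW_apply, PW_wgr A hw]
  split_ifs <;> simp

theorem EW_mem_wgr {m : ℤ} {w : Wd k A.V A.V} (hw : w ∈ Wd.wgr A.gr A.gr m) :
    EW A.toSD A.toSD w ∈ Wd.wgr A.gr A.gr m := by
  rw [EW_wgr A hw]
  split_ifs
  · exact hw
  · exact Submodule.neg_mem _ hw

theorem tl_wgr {m j : ℤ} {w : Wd k A.V A.V} (hw : w ∈ Wd.wgr A.gr A.gr m) {r : A.V}
    (hr : r ∈ A.gr j) : tl A.toDGA A.toDGA.diag.r.act w r ∈ Wd.wgr A.gr A.gr (m - j) := by
  refine Wd.wgr_induction A.gr A.gr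
    (p := fun m w => tl A.toDGA A.toDGA.diag.r.act w r ∈ Wd.wgr A.gr A.gr (m - j)) ?_ ?_ ?_ ?_ ?_ hw
  · intro m; simp
  · intro m a b ha hb
    rw [map_add]
    exact Submodule.add_mem _ ha hb
  · intro m c a ha
    rw [map_smul]
    exact Submodule.smul_mem _ _ ha
  · intro i a ha
    rw [tl_nil]
    have h := Wd.nil_mem_wgr A.gr A.gr (A.mul_gr _ _ a ha r hr)
    have e : -(i + j) = -i - j := by ring
    rw [e] at h
    exact h
  · intro n i w s hw _ hs
    rw [tl_snoc]
    have h := Wd.snoc_mem_wgr A.gr A.gr hw (A.mul_gr _ _ s hs r hr)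
    have e : n + 1 - (i + j) = n + 1 - i - j := by ring
    rw [e] at h
    exact h

theorem hd_wgr {m j : ℤ} {w : Wd k A.V A.V} (hw : w ∈ Wd.wgr A.gr A.gr m) {r : A.V}
    (hr : r ∈ A.gr j) : hd A.toDGA A.toDGA.diag.l r w ∈ Wd.wgr A.gr A.gr (m - j) := by
  refine Wd.wgr_induction A.gr A.gr
    (p := fun m w => hd A.toDGA A.toDGA.diag.l r w ∈ Wd.wgr A.gr A.gr (m - j)) ?_ ?_ ?_ ?_ ?_ hw
  · intro m; simp
  · intro m a b ha hb
    rw [map_add]
    exact Submodule.add_mem _ ha hb
  · intro m c a ha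
    rw [map_smul]
    exact Submodule.smul_mem _ _ ha
  · intro i a ha
    rw [hd_nil]
    have h := Wd.nil_mem_wgr A.gr A.gr (A.mul_gr _ _ r hr a ha)
    have e : -(j + i) = -i - j := by ring
    rw [e] at h
    exact h
  · intro n i w s _ hw hs
    rw [hd_snoc]
    have h := Wd.snoc_mem_wgr A.gr A.gr hw hs
    have e : n - j + 1 - i = n + 1 - i - j := by ring
    rw [e] at h
    exact h

theorem Db_wgr {m : ℤ} {w : Wd k A.V A.V} (hw : w ∈ Wd.wgr A.gr A.gr m) :
    Db A.toDGA.diag.r w ∈ Wd.wgr A.gr A.gr (m - 1) := by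
  refine Wd.wgr_induction A.gr A.gr
    (p := fun m w => Db A.toDGA.diag.r w ∈ Wd.wgr A.gr A.gr (m - 1)) ?_ ?_ ?_ ?_ ?_ hw
  · intro m; simp
  · intro m a b ha hb
    rw [map_add]
    exact Submodule.add_mem _ ha hb
  · intro m c a ha
    rw [map_smul]
    exact Submodule.smul_mem _ _ ha
  · intro i a ha
    rw [Db_nil]
    have h := Wd.nil_mem_wgr A.gr A.gr (A.D_gr _ a ha)
    have e : -(i + 1) = -i - 1 := by ring
    rw [e] at h
    exact h
  · intro n j w r hw hb hr
    rw [Db_snoc]
    refine Submodule.add_mem _ (Submodule.sub_mem _ ?_ ?_) ?_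
    · have h := Wd.snoc_mem_wgr A.gr A.gr hb hr
      have e : n - 1 + 1 - j = n + 1 - j - 1 := by ring
      rw [e] at h
      exact h
    · have h := Wd.snoc_mem_wgr A.gr A.gr (EW_mem_wgr A hw) (A.D_gr _ r hr)
      have e : n + 1 - (j + 1) = n + 1 - j - 1 := by ring
      rw [e] at h
      exact h
    · have h := tl_wgr A (EW_mem_wgr A hw) hr
      have e : n - j = n + 1 - j - 1 := by ring
      rw [e] at h
      exact h

theorem lam_wgr {m j : ℤ} {w : Wd k A.V A.V} (hw : w ∈ Wd.wgr A.gr A.gr m) {y : A.V}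
    (hy : y ∈ A.gr j) :
    lam (X := A.toSD) A.toDGA.diag.l (w ⊗ₜ y) ∈ tgrd (Wd.wgr A.gr A.gr) A.gr (j - m + 1) := by
  refine Wd.wgr_induction A.gr A.gr
    (p := fun m w => lam (X := A.toSD) A.toDGA.diag.l (w ⊗ₜ y) ∈
      tgrd (Wd.wgr A.gr A.gr) A.gr (j - m + 1)) ?_ ?_ ?_ ?_ ?_ hw
  · intro m; simp
  · intro m a b ha hb
    rw [TensorProduct.add_tmul, map_add]
    exact Submodule.add_mem _ ha hb
  · intro m c a ha
    rw [← TensorProduct.smul_tmul', map_smul]
    exact Submodule.smul_mem _ _ ha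
  · intro i a ha
    rw [lam_nil]
    exact Submodule.zero_mem _
  · intro n i w r hw _ hr
    rw [lam_snoc]
    have h := tmul_mem_tgrd (EW_mem_wgr A hw) (A.mul_gr _ _ r hr y hy)
    have e : i + j - n = j - (n + 1 - i) + 1 := by ring
    rw [e] at h
    exact h

end

/-! ### adapted bases -/

/-- a homogeneous basis adapted to the differential -/
theorem exists_adapted (X : ZD k) : ∃ (J : Type) (B : Module.Basis J k X.V) (deg : J → ℤ)
    (cyc : J → Prop), (∀ j, B j ∈ X.gr (deg j)) ∧ (∀ j, cyc j → X.D (B j) = 0) ∧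
      (∀ j, X.D (B j) ∈ Submodule.span k {v | ∃ i, cyc i ∧ v = B i}) := by
  let Z : ∀ i : ℤ, Submodule k (X.gr i) := fun i => LinearMap.ker (X.D ∘ₗ (X.gr i).subtype)
  have hC : ∀ i, ∃ C : Submodule k (X.gr i), IsCompl (Z i) C := fun i =>
    Submodule.exists_isCompl (Z i)
  choose C hC using hC
  let b : ∀ i : ℤ, Module.Basis (Module.Basis.ofVectorSpaceIndex k (Z i) ⊕
      Module.Basis.ofVectorSpaceIndex k (C i)) k (X.gr i) := fun i =>
    ((Module.Basis.ofVectorSpace k (Z i)).prod (Module.Basis.ofVectorSpace k (C i))).map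
      (Submodule.prodEquivOfIsCompl (Z i) (C i) (hC i))
  have hb : ∀ i (z : Module.Basis.ofVectorSpaceIndex k (Z i)), b i (Sum.inl z) =
      ((Module.Basis.ofVectorSpace k (Z i) z : Z i) : X.gr i) := by
    intro i z
    simp [b]
  let B := X.internal.collectedBasis b
  have hB : ∀ i c, B ⟨i, c⟩ = (b i c : X.V) := by
    intro i c
    simp [B]
  refine ⟨_, B, fun j => j.1, fun j => j.2.isLeft = true, ?_, ?_, ?_⟩
  · rintro ⟨i, c⟩
    rw [hB]
    exact (b i c).2
  · rintro ⟨i, z | z⟩ hc
    · rw [hB, hb]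
      exact (Module.Basis.ofVectorSpace k (Z i) z : Z i).2
    · exact absurd hc (by simp)
  · rintro ⟨i, c⟩
    have h1 : X.D (B ⟨i, c⟩) ∈ X.gr (i + 1) := X.D_gr i _ (by rw [hB]; exact (b i c).2)
    have h2 : (⟨X.D (B ⟨i, c⟩), h1⟩ : X.gr (i + 1)) ∈ Z (i + 1) := X.DD _
    have h3 : ∀ z : Z (i + 1), ((z : X.gr (i + 1)) : X.V) ∈
        Submodule.span k {v | ∃ j : Σ i, (Module.Basis.ofVectorSpaceIndex k (Z i) ⊕
          Module.Basis.ofVectorSpaceIndex k (C i)), j.2.isLeft = true ∧ v = B j} := by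
      intro z
      have h4 := (Module.Basis.ofVectorSpace k (Z (i + 1))).mem_span z
      have h5 : Submodule.span k (Set.range (Module.Basis.ofVectorSpace k (Z (i + 1)))) ≤
          (Submodule.span k {v | ∃ j : Σ i, (Module.Basis.ofVectorSpaceIndex k (Z i) ⊕
          Module.Basis.ofVectorSpaceIndex k (C i)), j.2.isLeft = true ∧ v = B j}).comap
            ((X.gr (i + 1)).subtype ∘ₗ (Z (i + 1)).subtype) := by
        refine Submodule.span_le.2 ?_
        rintro _ ⟨t, rfl⟩
        refine Submodule.subset_span ⟨⟨i + 1, Sum.inl t⟩, rfl, ?_⟩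
        rw [hB, hb]
        rfl
      exact h5 h4
    exact h3 ⟨_, h2⟩

/-! ### words in a basis -/

section

variable {N R J : Type} [AddCommGroup N] [Module k N] [AddCommGroup R] [Module k R]

/-- the word with head `a` and letters given by a list (the last letter comes first) -/
def wdb (e : J → R) : List J → (N →ₗ[k] Wd k N R)
  | [] => Wd.nil
  | j :: l => Wd.snoc.flip (e j) ∘ₗ wdb e l

@[simp] theorem wdb_nil (e : J → R) (a : N) : wdb (k := k) e [] a = Wd.nil a := rfl
@[simp] theorem wdb_cons (e : J → R) (j : J) (l : List J) (a : N) :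
    wdb (k := k) e (j :: l) a = Wd.snoc (wdb (k := k) e l a) (e j) := rfl

/-- all words from lists of basis vectors -/
def toWd (e : J → R) : (List J →₀ N) →ₗ[k] Wd k N R := Finsupp.lsum k (fun l => wdb e l)

@[simp] theorem toWd_single (e : J → R) (l : List J) (a : N) :
    toWd (k := k) e (Finsupp.single l a) = wdb e l a := by
  simp [toWd]

/-- append a letter -/
def consF (N : Type) [AddCommGroup N] [Module k N] (j : J) :
    (List J →₀ N) →ₗ[k] (List J →₀ N) :=
  Finsupp.lmapDomain N k (fun l => j :: l)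

theorem consF_single (j : J) (l : List J) (a : N) :
    consF (k := k) N j (Finsupp.single l a) = Finsupp.single (j :: l) a := by
  simp [consF]

/-- the coordinates of words -/
def ofWd (B : Module.Basis J k R) : Wd k N R →ₗ[k] (List J →₀ N) :=
  Wd.recW (Finsupp.lsingle []) 0 (B.constr k (fun j => consF (k := k) N j)).flip

@[simp] theorem ofWd_nil (B : Module.Basis J k R) (a : N) :
    ofWd B (Wd.nil a) = Finsupp.single [] a := by
  simp [ofWd]

theorem ofWd_snoc (B : Module.Basis J k R) (w : Wd k N R) (r : R) :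
    ofWd B (Wd.snoc w r) = B.constr k (fun j => consF (k := k) N j) r (ofWd B w) := by
  simp [ofWd]

theorem ofWd_snoc_basis (B : Module.Basis J k R) (w : Wd k N R) (j : J) :
    ofWd B (Wd.snoc w (B j)) = consF (k := k) N j (ofWd B w) := by
  rw [ofWd_snoc, Module.Basis.constr_basis]

theorem toWd_consF (e : J → R) (j : J) (z : List J →₀ N) :
    toWd (k := k) e (consF (k := k) N j z) = Wd.snoc (toWd e z) (e j) := by
  have h : toWd (k := k) e ∘ₗ consF (k := k) N j = Wd.snoc.flip (e j) ∘ₗ toWd e := by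
    refine Finsupp.lhom_ext (fun l a => ?_)
    simp [consF_single]
  exact LinearMap.congr_fun h z

theorem toWd_ofWd (B : Module.Basis J k R) (w : Wd k N R) : toWd B (ofWd B w) = w := by
  induction w using Wd.induction with
  | hadd a b ha hb => simp only [map_add, ha, hb]
  | hnil a => simp
  | hsnoc w hw r =>
    have h : toWd (k := k) B ∘ₗ ofWd B ∘ₗ Wd.snoc w = (Wd.snoc w : R →ₗ[k] Wd k N R) := by
      refine B.ext (fun j => ?_)
      simp only [LinearMap.comp_apply]
      rw [ofWd_snoc_basis, toWd_consF, hw]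
    exact LinearMap.congr_fun h r

theorem ofWd_toWd (B : Module.Basis J k R) (z : List J →₀ N) : ofWd B (toWd B z) = z := by
  have h : ofWd B ∘ₗ toWd (k := k) (N := N) B = LinearMap.id := by
    refine Finsupp.lhom_ext (fun l a => ?_)
    simp only [LinearMap.comp_apply, toWd_single, LinearMap.id_apply]
    induction l with
    | nil => simp
    | cons j l ih => rw [wdb_cons, ofWd_snoc_basis, ih, consF_single]
  exact LinearMap.congr_fun h z

end

end BG

end NC
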