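import Pool.Agent.H16.NC.Lef

/-!
# ONE : the operator of a bimodule on `HH(A)` is a cap product

`g'` lifts `w ⊗ z0` to the data `F'`; its contraction gives `w'`, its rotation gives the cap
product with the rotated `z0`.
-/

set_option autoImplicit false

open scoped TensorProduct

noncomputable section

namespace NC

variable {k : Type} [Field k] {A : DGA k}

/-- the rotation of the data `F` -/
abbrev rotF (M : BMod A A) :
    SD.Hom (GG M.b (bNF M.b)) (HC2 (tKF A).b₁ (tKF A).b₂ (tKF A).h₁₂) :=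
  bG M.b (bNF M.b) (tKF A).b₁ (tKF A).b₂ (tKF A).h₁₂ (nuF M.b) (nuD_F M.b)

theorem rotF_isHom (M : BMod A A) :
    (dG M.b (dNF M.b) (NF_comm M.b)).IsHom (tKF A).d (rotF M) :=
  bG_isHom M.b (bNF M.b) (tKF A).b₁ (tKF A).b₂ (tKF A).h₁₂ (nuF M.b) (nuD_F M.b) (dNF M.b)
    (NF_comm M.b) (tKF A).b₃ (tKF A).h₁₃ (tKF A).h₂₃ (nuF_isHom M.b)

/-- the data `E` in the data `F` -/
abbrev gI (M : BMod A A) : SD.Hom (GG M.b (bMv M.b)) (GG M.b (bNF M.b)) :=
  gMap (SD.Hom.id M.N) (Bi.isHom_id M.b) (iN M.b) (iN_isHom M.b)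

theorem gI_central (M : BMod A A) : Central (dG M.b (dNF M.b) (NF_comm M.b)) (gI M) :=
  central_G M.b (NF_comm M.b) (iN_isHom M.b) (incl_central M.b (bOut A))

theorem contrF_isHom (M : BMod A A) :
    (dG M.b (dNF M.b) (NF_comm M.b)).IsHom (dIn M.b M.b) (contrF M) :=
  contrG_isHom M.b (bNF M.b) (muF M.b) (muD_F M.b) (dNF M.b) (NF_comm M.b) (dIn M.b M.b)
    (muF_isHom M.b)

theorem contrF_gI (M : BMod A A) (c : (GG M.b (bMv M.b)).V) :
    (contrF M).f ((gI M).f c) = (HomBi.incl M.b M.b).f ((contrE M.b M.b).f c) :=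
  (contrG_gMap (SD.Hom.id M.N) (Bi.isHom_id M.b) (iN M.b) (iN_isHom M.b) (muD_E M.b M.b)
    (muD_F M.b) (HomBi.incl M.b M.b) (muF_iN M.b) c).symm

theorem rotF_gI (M : BMod A A) (c : (GG M.b (bMv M.b)).V) :
    (rotF M).f ((gI M).f c) =
      (hc2 (Q1_Q2 A) (tKF A).h₁₂ (jF A) (jF_h1 A) (jF_h2 A)).f ((rotE M.b).f c) :=
  (bG_gMap (SD.Hom.id M.N) (Bi.isHom_id M.b) (iN M.b) (iN_isHom M.b) (Q1_Q2 A) (tKF A).h₁₂
    (nuD_E M.b) (nuD_F M.b) (jF A) (jF_h1 A) (jF_h2 A) (nuF_iN M.b) c).symm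

theorem rotF_gN (M : BMod A A) (c : (GG M.b (bNP M)).V) :
    (rotF M).f ((gN M).f c) =
      (hc2 (tKP A).h₁₂ (tKF A).h₁₂ (cK A) (cK_isHom A).h1 (cK_isHom A).h2).f ((rotP M).f c) :=
  (bG_gMap (SD.Hom.id M.N) (Bi.isHom_id M.b) (cN M) (cN_b M) (tKP A).h₁₂ (tKF A).h₁₂
    (nuD_P M) (nuD_F M.b) (cK A) (cK_isHom A).h1 (cK_isHom A).h2 (cK_nuP M) c).symm

/-- the product with the identity -/
theorem CW_one (M : BMod A A) (w : (HC A.diag).V) :
    (CW (dIn M.b M.b) (HomBi.incl M.b M.b) (incl_central M.b M.b)).f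
      (w ⊗ₜ (EndBi M.b).one) = (hcN A.diag (bEnd M) (lamM M) (lamM_isHom M)).f w := by
  rw [CW_even _ _ _ _ _ (EndBi M.b).P_one]
  exact Wd.mh_congr (fun a => Subtype.ext (LinearMap.ext fun m => rfl)) w

/-- first half: the contraction of a lift of `w ⊗ z0` -/
theorem contr_lift (M : BMod A A) {z0 : (GG M.b (bMv M.b)).V}
    {h0 : (HomBi M.b M.b).V}
    (hh : (contrE M.b M.b).f z0 = (EndBi M.b).one + (HomBi M.b M.b).D h0)
    {w : (HC A.diag).V} (hw : (HC A.diag).D w = 0)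
    {g' : (HC (dG M.b (dNP M) (NP_comm M))).V}
    (hg : (HC (dG M.b (dNF M.b) (NF_comm M.b))).Hml
      ((hcN (dG M.b (dNP M) (NP_comm M)) (dG M.b (dNF M.b) (NF_comm M.b)) (gN M)
        (gN_isHom M)).f g')
      ((CW (dG M.b (dNF M.b) (NF_comm M.b)) (gI M) (gI_central M)).f (w ⊗ₜ z0))) :
    (HC (bEnd M)).Hml ((contrH M).f ((hcN (dG M.b (dNP M) (NP_comm M)) (M.b.bar (bMst M))
        (contrP M) (contrP_isHom M)).f g'))
      ((hcN A.diag (bEnd M) (lamM M) (lamM_isHom M)).f w) := by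
  -- the contraction of the data `F`
  have h1 := SD.Hml.map (hcN (dG M.b (dNF M.b) (NF_comm M.b)) (dIn M.b M.b) (contrF M)
    (contrF_isHom M)) hg
  have h2 : (hcN (dG M.b (dNF M.b) (NF_comm M.b)) (dIn M.b M.b) (contrF M)
      (contrF_isHom M)).f ((CW (dG M.b (dNF M.b) (NF_comm M.b)) (gI M) (gI_central M)).f
        (w ⊗ₜ z0)) = (CW (dIn M.b M.b) (HomBi.incl M.b M.b) (incl_central M.b M.b)).f
        (w ⊗ₜ (contrE M.b M.b).f z0) :=
    CW_nat (gI_central M) (incl_central M.b M.b) (contrF M) (contrF_isHom M) (contrE M.b M.b)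
      (contrF_gI M) w z0
  have h3 : (contrH M).f ((hcN (dG M.b (dNP M) (NP_comm M)) (M.b.bar (bMst M))
        (contrP M) (contrP_isHom M)).f g') =
      (hcN (dG M.b (dNF M.b) (NF_comm M.b)) (dIn M.b M.b) (contrF M)
      (contrF_isHom M)).f ((hcN (dG M.b (dNP M) (NP_comm M)) (dG M.b (dNF M.b) (NF_comm M.b))
        (gN M) (gN_isHom M)).f g') := by
    change Wd.mh A.V (contrR M.b.r M.b.r).f (Wd.mh A.V (contrP M).f g') =
      Wd.mh A.V (contrF M).f (Wd.mh A.V (gN M).f g')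
    rw [Wd.mh_comp, Wd.mh_comp]
    exact Wd.mh_congr (fun n => compat1 M n) g'
  have h4 : (HomBi M.b M.b).Hml ((contrE M.b M.b).f z0) (EndBi M.b).one :=
    ⟨h0, by rw [hh]; exact (add_sub_cancel_left _ _).symm⟩
  have h5 := tens_hml (CW (dIn M.b M.b) (HomBi.incl M.b M.b) (incl_central M.b M.b)) hw h4
  rw [CW_one] at h5
  rw [h2] at h1
  rw [h3]
  exact h1.trans h5

/-- second half: the rotation of a lift of `w ⊗ z0` -/
theorem rot_lift (M : BMod A A) {z0 : (GG M.b (bMv M.b)).V}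
    {w : (HC A.diag).V}
    {g' : (HC (dG M.b (dNP M) (NP_comm M))).V}
    (hg : (HC (dG M.b (dNF M.b) (NF_comm M.b))).Hml
      ((hcN (dG M.b (dNP M) (NP_comm M)) (dG M.b (dNF M.b) (NF_comm M.b)) (gN M)
        (gN_isHom M)).f g')
      ((CW (dG M.b (dNF M.b) (NF_comm M.b)) (gI M) (gI_central M)).f (w ⊗ₜ z0))) :
    (HC3 (tKF A)).Hml ((hc3 (cK_isHom A)).f ((hcN (dG M.b (dNP M) (NP_comm M)) (tKP A).d
        (rotP M) (rotP_isHom M)).f g')) ((CWK A).f (w ⊗ₜ (rotE M.b).f z0)) := by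
  have h1 := SD.Hml.map (hcN (dG M.b (dNF M.b) (NF_comm M.b)) (tKF A).d (rotF M)
    (rotF_isHom M)) hg
  have h2 : (hcN (dG M.b (dNF M.b) (NF_comm M.b)) (tKF A).d (rotF M)
      (rotF_isHom M)).f ((CW (dG M.b (dNF M.b) (NF_comm M.b)) (gI M) (gI_central M)).f
        (w ⊗ₜ z0)) = (CWK A).f (w ⊗ₜ (rotE M.b).f z0) :=
    CW_nat (gI_central M) (jF_cen A) (rotF M) (rotF_isHom M) (rotE M.b) (rotF_gI M) w z0
  have h3 : (hc3 (cK_isHom A)).f ((hcN (dG M.b (dNP M) (NP_comm M)) (tKP A).d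
        (rotP M) (rotP_isHom M)).f g') =
      (hcN (dG M.b (dNF M.b) (NF_comm M.b)) (tKF A).d (rotF M)
      (rotF_isHom M)).f ((hcN (dG M.b (dNP M) (NP_comm M)) (dG M.b (dNF M.b) (NF_comm M.b))
        (gN M) (gN_isHom M)).f g') := by
    change Wd.mh A.V (hc2 (tKP A).h₁₂ (tKF A).h₁₂ (cK A) (cK_isHom A).h1 (cK_isHom A).h2).f
      (Wd.mh A.V (rotP M).f g') = Wd.mh A.V (rotF M).f (Wd.mh A.V (gN M).f g')
    rw [Wd.mh_comp, Wd.mh_comp]
    exact Wd.mh_congr (fun n => (rotF_gN M n).symm) g'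
  rw [h2] at h1
  rw [h3]
  exact h1

/-- **the operator of `M` is the cap product with the rotated `z0`** -/
theorem one_lift (M : BMod A A) (hR : RPf M.b.r) (z0 : (GG M.b (bMv M.b)).V)
    (hz0 : (GG M.b (bMv M.b)).D z0 = 0) (h0 : (HomBi M.b M.b).V)
    (hh : (contrE M.b M.b).f z0 = (EndBi M.b).one + (HomBi M.b M.b).D h0) :
    OneLift M z0 := by
  intro w w' hw hw' h1
  have hβ : (HC (dG M.b (dNF M.b) (NF_comm M.b))).D
      ((CW (dG M.b (dNF M.b) (NF_comm M.b)) (gI M) (gI_central M)).f (w ⊗ₜ z0)) = 0 :=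
    capC_cyc _ hz0 hw
  obtain ⟨g', u, hg', hu⟩ := (QI_hc (dG M.b (dNP M) (NP_comm M))
    (dG M.b (dNF M.b) (NF_comm M.b)) (gN M) (gN_isHom M) (gN_qi M hR)).surj _ hβ
  have hg : (HC (dG M.b (dNF M.b) (NF_comm M.b))).Hml
      ((hcN (dG M.b (dNP M) (NP_comm M)) (dG M.b (dNF M.b) (NF_comm M.b)) (gN M)
        (gN_isHom M)).f g')
      ((CW (dG M.b (dNF M.b) (NF_comm M.b)) (gI M) (gI_central M)).f (w ⊗ₜ z0)) :=
    ⟨-u, by rw [map_neg, hu]; abel⟩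
  refine ⟨(hcN (dG M.b (dNP M) (NP_comm M)) (tKP A).d (rotP M) (rotP_isHom M)).f g', ?_, ?_,
    rot_lift M hg⟩
  · have h2 := (hcN (dG M.b (dNP M) (NP_comm M)) (tKP A).d (rotP M) (rotP_isHom M)).D g'
    rw [hg', map_zero] at h2
    exact h2.symm
  · have h2 := (hcN (dG M.b (dNP M) (NP_comm M)) (M.b.bar (bMst M)) (contrP M)
      (contrP_isHom M)).D g'
    rw [hg', map_zero] at h2
    rw [← compat2 M g']
    exact TR_rpf M hR _ h2.symm w w' hw' h1 (contr_lift M hh hw hg)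

end NC
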