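import Pool.Agent.H28.NC.PFinC
import Pool.Agent.H94.NC.BarZ
import Pool.Agent.H94.NC.GRef

/-!
# PFin : a graded dg algebra whose diagonal bimodule is perfect in the super sense is smooth

If the diagonal bimodule lies in the thick closure `PF` of the free bimodule (super version),
then it is perfect as a graded dg bimodule.
-/

set_option autoImplicit false

open scoped TensorProduct

noncomputable section

namespace NC

variable {k : Type} [Field k]

/-- **perfect in the super sense implies perfect in the graded sense** -/
theorem perfect_of_PF (A : ZDGA k) (h : PF A.toDGA (BMod.diag A.toDGA)) :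
    A.diag.IsPerfect := by
  obtain ⟨g, s, hgl, hgr, hsl, hsr, hgs, S, hS⟩ := PQ.exists_finite A.toDGA h
  obtain ⟨I, hI⟩ := barZ_semiFree A
  obtain ⟨F, n, hF, hret⟩ := ZBim.hretract_of_super (barZ A) I hI g s hgl hgr hsl hsr hgs S hS
  exact ⟨barZ A, F, n, augZ A, augZ_quasiIso A, hF, hret⟩

end NC
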