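import Pool.Agent.H28.NC.BarMap
import Pool.Agent.H16.NC.PF

/-!
# PFin, part A: bilinear maps with finitely generated image, the property `Q`

`Bil s f` : `f` is a map of bimodules of parity `s`; `cm s f` is its boundary; `FG f` : the image of
`f` is contained in a finitely generated sub-bimodule.  `Q B F` : every bilinear `f : B → F` whose
boundary is `FG` is, up to the boundary of a bilinear map, `FG`.
-/

set_option autoImplicit false

open scoped TensorProduct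

noncomputable section

namespace NC

variable {k : Type} [Field k] {A : DGA k}

namespace PQ

/-- the sign -/
def eps (k : Type) [Field k] : Bool → k
  | false => 1
  | true => -1

theorem eps_not (s : Bool) : eps k (!s) = - eps k s := by
  cases s <;> simp [eps]

theorem eps_sq (s : Bool) : eps k s * eps k s = 1 := by
  cases s <;> simp [eps]

/-- the twist -/
def tw (A : DGA k) : Bool → (A.V →ₗ[k] A.V)
  | false => LinearMap.id
  | true => A.E

theorem tw_not (s : Bool) (a : A.V) : tw A (!s) a = tw A s (A.E a) := by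
  cases s
  · rfl
  · exact (A.EE a).symm

theorem tw_E (s : Bool) (a : A.V) : tw A s (A.E a) = A.E (tw A s a) := by
  cases s <;> rfl

theorem tw_D (s : Bool) (a : A.V) : A.D (tw A s a) = eps k s • tw A s (A.D a) := by
  cases s
  · change A.D a = (1 : k) • A.D a
    rw [one_smul]
  · change A.D (A.E a) = (-1 : k) • A.E (A.D a)
    rw [A.DE, neg_one_smul]

/-- bilinear maps of parity `s` -/
structure Bil (s : Bool) (B F : BMod A A) (f : B.N.V →ₗ[k] F.N.V) : Prop where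
  l : ∀ a x, f (B.b.l.act a x) = F.b.l.act (tw A s a) (f x)
  r : ∀ x a, f (B.b.r.act x a) = F.b.r.act (f x) a
  e : ∀ x, F.N.E (f x) = eps k s • f (B.N.E x)

variable {B F B1 B2 : BMod A A}

theorem Bil.hom (φ : BMod.Hom B F) : Bil false B F φ.f where
  l := φ.isHom.l
  r := φ.isHom.r
  e := fun x => by
    rw [← φ.E]
    exact (one_smul k _).symm

theorem Bil.id (B : BMod A A) : Bil false B B LinearMap.id :=
  ⟨fun _ _ => rfl, fun _ _ => rfl, fun _ => (one_smul k _).symm⟩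

theorem Bil.add {s : Bool} {f g : B.N.V →ₗ[k] F.N.V} (hf : Bil s B F f) (hg : Bil s B F g) :
    Bil s B F (f + g) where
  l := fun a x => by
    rw [LinearMap.add_apply, LinearMap.add_apply, hf.l, hg.l, map_add]
  r := fun x a => by
    rw [LinearMap.add_apply, LinearMap.add_apply, hf.r, hg.r, map_add, LinearMap.add_apply]
  e := fun x => by
    rw [LinearMap.add_apply, LinearMap.add_apply, map_add, hf.e, hg.e, smul_add]

theorem Bil.smul {s : Bool} {f : B.N.V →ₗ[k] F.N.V} (c : k) (hf : Bil s B F f) :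
    Bil s B F (c • f) where
  l := fun a x => by
    rw [LinearMap.smul_apply, LinearMap.smul_apply, hf.l, map_smul]
  r := fun x a => by
    rw [LinearMap.smul_apply, LinearMap.smul_apply, hf.r, map_smul, LinearMap.smul_apply]
  e := fun x => by
    rw [LinearMap.smul_apply, LinearMap.smul_apply, map_smul, hf.e, smul_comm]

theorem Bil.neg {s : Bool} {f : B.N.V →ₗ[k] F.N.V} (hf : Bil s B F f) : Bil s B F (-f) := by
  have h := hf.smul (-1)
  rwa [neg_one_smul] at h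

theorem Bil.sub {s : Bool} {f g : B.N.V →ₗ[k] F.N.V} (hf : Bil s B F f) (hg : Bil s B F g) :
    Bil s B F (f - g) := by
  rw [sub_eq_add_neg]
  exact hf.add hg.neg

/-- composition with an even map -/
theorem Bil.comp {s : Bool} {f : B2.N.V →ₗ[k] F.N.V} {g : B1.N.V →ₗ[k] B2.N.V}
    (hf : Bil s B2 F f) (hg : Bil false B1 B2 g) : Bil s B1 F (f ∘ₗ g) where
  l := fun a x => by
    rw [LinearMap.comp_apply, LinearMap.comp_apply, hg.l, hf.l]; rfl
  r := fun x a => by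
    rw [LinearMap.comp_apply, LinearMap.comp_apply, hg.r, hf.r]
  e := fun x => by
    rw [LinearMap.comp_apply, LinearMap.comp_apply, hf.e, hg.e]
    exact congrArg (fun z => eps k s • f z) (one_smul k _)

/-- composition with an odd map -/
theorem Bil.comp_odd {s : Bool} {f : B2.N.V →ₗ[k] F.N.V} {g : B1.N.V →ₗ[k] B2.N.V}
    (hf : Bil s B2 F f) (hg : Bil true B1 B2 g) : Bil (!s) B1 F (f ∘ₗ g) where
  l := fun a x => by
    rw [LinearMap.comp_apply, LinearMap.comp_apply, hg.l, hf.l, tw_not]; rfl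
  r := fun x a => by
    rw [LinearMap.comp_apply, LinearMap.comp_apply, hg.r, hf.r]
  e := fun x => by
    rw [LinearMap.comp_apply, LinearMap.comp_apply, hf.e, hg.e, eps_not]
    change eps k s • f ((-1 : k) • g (B1.N.E x)) = - eps k s • f (g (B1.N.E x))
    rw [neg_one_smul, map_neg, smul_neg, neg_smul]

/-- the boundary of a map of parity `s` -/
def cm (s : Bool) (B F : SD k) (f : B.V →ₗ[k] F.V) : B.V →ₗ[k] F.V :=
  F.D ∘ₗ f - eps k s • (f ∘ₗ B.D)

theorem cm_apply (s : Bool) (B F : SD k) (f : B.V →ₗ[k] F.V) (x : B.V) :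
    cm s B F f x = F.D (f x) - eps k s • f (B.D x) := rfl

theorem cm_add (s : Bool) (B F : SD k) (f g : B.V →ₗ[k] F.V) :
    cm s B F (f + g) = cm s B F f + cm s B F g := by
  ext x
  simp only [cm_apply, LinearMap.add_apply, map_add, smul_add]
  abel

theorem cm_smul (s : Bool) (B F : SD k) (c : k) (f : B.V →ₗ[k] F.V) :
    cm s B F (c • f) = c • cm s B F f := by
  ext x
  simp only [cm_apply, LinearMap.smul_apply, map_smul, smul_sub]
  rw [smul_comm]

theorem cm_neg (s : Bool) (B F : SD k) (f : B.V →ₗ[k] F.V) :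
    cm s B F (-f) = - cm s B F f := by
  have h := cm_smul s B F (-1) f
  rwa [neg_one_smul, neg_one_smul] at h

theorem cm_sub (s : Bool) (B F : SD k) (f g : B.V →ₗ[k] F.V) :
    cm s B F (f - g) = cm s B F f - cm s B F g := by
  rw [sub_eq_add_neg, cm_add, cm_neg, ← sub_eq_add_neg]

theorem cm_cm (s : Bool) (B F : SD k) (f : B.V →ₗ[k] F.V) :
    cm (!s) B F (cm s B F f) = 0 := by
  ext x
  simp only [cm_apply, map_sub, map_smul, F.DD, B.DD, map_zero, smul_zero, eps_not,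
    LinearMap.zero_apply, neg_smul, zero_sub, sub_zero, neg_add_cancel, sub_neg_eq_add]

theorem Bil.cm {s : Bool} {f : B.N.V →ₗ[k] F.N.V} (hf : Bil s B F f) :
    Bil (!s) B F (cm s B.N F.N f) where
  l := fun a x => by
    rw [cm_apply, cm_apply, hf.l, B.b.l.D_act, F.b.l.D_act, map_add, hf.l, hf.l, tw_D, tw_not,
      tw_E, map_sub, map_smul, map_smul, LinearMap.smul_apply, smul_add]
    abel
  r := fun x a => by
    rw [cm_apply, cm_apply, hf.r, B.b.r.D_act, F.b.r.D_act, map_add, hf.r, hf.r, hf.e, map_sub,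
      map_smul, map_smul, LinearMap.smul_apply, LinearMap.sub_apply, LinearMap.smul_apply,
      smul_add]
    abel
  e := fun x => by
    rw [cm_apply, cm_apply, map_sub, map_smul, F.N.ED, hf.e, hf.e, B.N.ED, map_smul, eps_not,
      map_neg]
    simp only [smul_neg, neg_smul, smul_sub]

/-- composition with an even map on the right -/
theorem cm_comp (s : Bool) (B1 B2 F : SD k) (f : B2.V →ₗ[k] F.V) (g : B1.V →ₗ[k] B2.V) :
    cm s B1 F (f ∘ₗ g) = cm s B2 F f ∘ₗ g + eps k s • (f ∘ₗ (B2.D ∘ₗ g - g ∘ₗ B1.D)) := by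
  ext x
  simp only [cm_apply, LinearMap.add_apply, LinearMap.comp_apply, LinearMap.smul_apply,
    LinearMap.sub_apply, map_sub, smul_sub]
  abel

theorem cm_comp_hom (s : Bool) {B1 B2 F : SD k} (f : B2.V →ₗ[k] F.V) (g : SD.Hom B1 B2) :
    cm s B1 F (f ∘ₗ g.f) = cm s B2 F f ∘ₗ g.f := by
  ext x
  simp only [cm_apply, LinearMap.comp_apply, g.D]

/-- composition with an odd map on the right -/
theorem cm_comp_odd (s : Bool) (B1 B2 F : SD k) (f : B2.V →ₗ[k] F.V) (g : B1.V →ₗ[k] B2.V) :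
    cm (!s) B1 F (f ∘ₗ g) = cm s B2 F f ∘ₗ g + eps k s • (f ∘ₗ (B2.D ∘ₗ g + g ∘ₗ B1.D)) := by
  ext x
  simp only [cm_apply, LinearMap.add_apply, LinearMap.comp_apply, LinearMap.smul_apply,
    map_add, smul_add, eps_not, neg_smul]
  abel

/-! ### finitely generated images -/

/-- the sub-bimodule generated by a finite set -/
def spanS (F : BMod A A) (S : Finset F.N.V) : Submodule k F.N.V :=
  Submodule.span k {m | ∃ s ∈ S, ∃ a b, m = F.b.l.act a (F.b.r.act s b)}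

theorem spanS_mono (F : BMod A A) {S T : Finset F.N.V} (h : S ⊆ T) : spanS F S ≤ spanS F T := by
  refine Submodule.span_mono ?_
  rintro m ⟨s, hs, a, b, rfl⟩
  exact ⟨s, h hs, a, b, rfl⟩

theorem mem_spanS (F : BMod A A) {S : Finset F.N.V} {s : F.N.V} (h : s ∈ S) :
    s ∈ spanS F S := by
  refine Submodule.subset_span ⟨s, h, 1, 1, ?_⟩
  rw [F.r_one, F.one_l]

theorem spanS_l (F : BMod A A) {S : Finset F.N.V} (a : A.V) {x : F.N.V} (h : x ∈ spanS F S) :
    F.b.l.act a x ∈ spanS F S := by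
  have hle : spanS F S ≤ (spanS F S).comap (F.b.l.act a) := by
    refine Submodule.span_le.2 ?_
    rintro m ⟨s, hs, a', b, rfl⟩
    refine Submodule.subset_span ⟨s, hs, a * a', b, ?_⟩
    rw [F.b.l.mul_act]
  exact hle h

theorem spanS_r (F : BMod A A) {S : Finset F.N.V} (a : A.V) {x : F.N.V} (h : x ∈ spanS F S) :
    F.b.r.act x a ∈ spanS F S := by
  have hle : spanS F S ≤ (spanS F S).comap (F.b.r.act.flip a) := by
    refine Submodule.span_le.2 ?_
    rintro m ⟨s, hs, a', b, rfl⟩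
    refine Submodule.subset_span ⟨s, hs, a', b * a, ?_⟩
    rw [LinearMap.flip_apply, F.b.lr, F.b.r.act_mul]
  exact hle h

/-- the image is contained in a finitely generated sub-bimodule -/
def FG (F : BMod A A) {V : Type} [AddCommGroup V] [Module k V] (f : V →ₗ[k] F.N.V) : Prop :=
  ∃ S : Finset F.N.V, ∀ x, f x ∈ spanS F S

section

variable {V W : Type} [AddCommGroup V] [Module k V] [AddCommGroup W] [Module k W]

theorem FG.zero : FG F (0 : V →ₗ[k] F.N.V) := ⟨∅, fun _ => Submodule.zero_mem _⟩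

theorem FG.add {f g : V →ₗ[k] F.N.V} (hf : FG F f) (hg : FG F g) : FG F (f + g) := by
  classical
  obtain ⟨S, hS⟩ := hf
  obtain ⟨T, hT⟩ := hg
  exact ⟨S ∪ T, fun x => Submodule.add_mem _ (spanS_mono F Finset.subset_union_left (hS x))
    (spanS_mono F Finset.subset_union_right (hT x))⟩

theorem FG.smul {f : V →ₗ[k] F.N.V} (c : k) (hf : FG F f) : FG F (c • f) := by
  obtain ⟨S, hS⟩ := hf
  exact ⟨S, fun x => Submodule.smul_mem _ c (hS x)⟩

theorem FG.neg {f : V →ₗ[k] F.N.V} (hf : FG F f) : FG F (-f) := by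
  obtain ⟨S, hS⟩ := hf
  exact ⟨S, fun x => Submodule.neg_mem _ (hS x)⟩

theorem FG.sub {f g : V →ₗ[k] F.N.V} (hf : FG F f) (hg : FG F g) : FG F (f - g) := by
  rw [sub_eq_add_neg]
  exact hf.add hg.neg

theorem FG.comp {f : V →ₗ[k] F.N.V} (hf : FG F f) (g : W →ₗ[k] V) : FG F (f ∘ₗ g) := by
  obtain ⟨S, hS⟩ := hf
  exact ⟨S, fun x => hS (g x)⟩

end

/-- the property `Q` -/
def Q (F B : BMod A A) : Prop :=
  ∀ (s : Bool) (f : B.N.V →ₗ[k] F.N.V), Bil s B F f → FG F (cm s B.N F.N f) →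
    ∃ h : B.N.V →ₗ[k] F.N.V, Bil (!s) B F h ∧ FG F (f - cm (!s) B.N F.N h)

theorem Bil.nn {s : Bool} {f : B.N.V →ₗ[k] F.N.V} (h : Bil s B F f) : Bil (!(!s)) B F f := by
  rwa [Bool.not_not]

/-- homotopy retracts -/
theorem Q.retr (F : BMod A A) (σ : BMod.Hom B1 B2) (ρ : BMod.Hom B2 B1)
    (h0 : B1.N.V →ₗ[k] B1.N.V) (hb : Bil true B1 B1 h0)
    (heq : ∀ x, ρ.f (σ.f x) = x + B1.N.D (h0 x) + h0 (B1.N.D x)) (hQ : Q F B2) : Q F B1 := by
  intro s f hf hfg
  obtain ⟨h, hh, hfg2⟩ := hQ s (f ∘ₗ ρ.f) (hf.comp (Bil.hom ρ)) (by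
    rw [cm_comp_hom]; exact hfg.comp _)
  refine ⟨h ∘ₗ σ.f - eps k s • (f ∘ₗ h0), (hh.comp (Bil.hom σ)).sub ((hf.comp_odd hb).smul _),
    ?_⟩
  have e1 : f ∘ₗ ρ.f ∘ₗ σ.f = f + f ∘ₗ (B1.N.D ∘ₗ h0 + h0 ∘ₗ B1.N.D) := by
    ext x
    simp only [LinearMap.comp_apply, LinearMap.add_apply, heq, map_add]
    abel
  have e2 := cm_comp_odd s B1.N B1.N F.N f h0
  have e3 : f - cm (!s) B1.N F.N (h ∘ₗ σ.f - eps k s • (f ∘ₗ h0)) =
      (f ∘ₗ ρ.f - cm (!s) B2.N F.N h) ∘ₗ σ.f + eps k s • (cm s B1.N F.N f ∘ₗ h0) := by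
    rw [cm_sub, cm_smul, e2, cm_comp_hom, LinearMap.sub_comp, LinearMap.comp_assoc, e1, smul_add,
      smul_smul, eps_sq, one_smul]
    abel
  rw [e3]
  exact (hfg2.comp _).add ((hfg.comp _).smul _)

/-- contractible bimodules -/
theorem Q.contr (F : BMod A A) (h0 : B.N.V →ₗ[k] B.N.V) (hb : Bil true B B h0)
    (heq : ∀ x, B.N.D (h0 x) + h0 (B.N.D x) = x) : Q F B := by
  intro s f hf hfg
  refine ⟨eps k s • (f ∘ₗ h0), (hf.comp_odd hb).smul _, ?_⟩
  have e1 : f ∘ₗ (B.N.D ∘ₗ h0 + h0 ∘ₗ B.N.D) = f := by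
    ext x
    simp only [LinearMap.comp_apply, LinearMap.add_apply, heq]
  have e2 := cm_comp_odd s B.N B.N F.N f h0
  have e3 : f - cm (!s) B.N F.N (eps k s • (f ∘ₗ h0)) = -(eps k s • (cm s B.N F.N f ∘ₗ h0)) := by
    rw [cm_smul, e2, e1, smul_add, smul_smul, eps_sq, one_smul]
    abel
  rw [e3]
  exact ((hfg.comp _).smul _).neg

/-- shifts -/
theorem Q.sh {F B : BMod A A} (hQ : Q F B) : Q F B.sh := by
  intro s f hf hfg
  have h1 : Bil (!s) B F f := by
    refine ⟨fun a x => ?_, hf.r, fun x => ?_⟩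
    · have h := hf.l (A.E a) x
      have e : B.sh.b.l.act (A.E a) x = B.b.l.act a x := by
        change B.b.l.act (A.E (A.E a)) x = _
        rw [A.EE]
      rw [e] at h
      refine h.trans ?_
      rw [tw_not]
      rfl
    · have h := hf.e x
      have e : B.sh.N.E x = - B.N.E x := SD.E_sh B.N x
      rw [e] at h
      refine h.trans ?_
      have e2 : f (-(B.N.E x)) = -(f (B.N.E x)) := map_neg f (B.N.E x)
      rw [e2, smul_neg, eps_not, neg_smul]
      rfl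
  have h2 : FG F (cm (!s) B.N F.N f) := by
    have e : cm (!s) B.N F.N f = cm s B.sh.N F.N f := by
      refine LinearMap.ext (fun x => ?_)
      change F.N.D (f x) - eps k (!s) • f (B.N.D x) = F.N.D (f x) - eps k s • f (-(B.N.D x))
      have e2 : f (-(B.N.D x)) = -(f (B.N.D x)) := map_neg f (B.N.D x)
      rw [e2, eps_not, smul_neg, neg_smul]
    rw [e]
    exact hfg
  obtain ⟨h, hh, hfg2⟩ := hQ (!s) f h1 h2
  rw [Bool.not_not] at hh hfg2
  refine ⟨h, ⟨fun a x => ?_, hh.r, fun x => ?_⟩, ?_⟩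
  · have h3 := hh.l (A.E a) x
    refine h3.trans ?_
    rw [tw_not]
    rfl
  · have h3 := hh.e x
    refine h3.trans ?_
    have e : B.sh.N.E x = - B.N.E x := SD.E_sh B.N x
    rw [e]
    have e2 : h (-(B.N.E x)) = -(h (B.N.E x)) := map_neg h (B.N.E x)
    refine Eq.trans ?_ (congrArg (fun z => eps k (!s) • z) e2).symm
    rw [smul_neg, eps_not, neg_smul, neg_neg]
  · have e : cm s B.N F.N h = cm (!s) B.sh.N F.N h := by
      refine LinearMap.ext (fun x => ?_)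
      change F.N.D (h x) - eps k s • h (B.N.D x) = F.N.D (h x) - eps k (!s) • h (-(B.N.D x))
      have e2 : h (-(B.N.D x)) = -(h (B.N.D x)) := map_neg h (B.N.D x)
      rw [e2, eps_not, smul_neg, neg_smul, neg_neg]
    rw [e] at hfg2
    exact hfg2

/-- splitting data of a short exact sequence of bimodules -/
structure Spl (B' B B'' : BMod A A) where
  i : BMod.Hom B' B
  p : BMod.Hom B B''
  r : B.N.V →ₗ[k] B'.N.V
  σ : B''.N.V →ₗ[k] B.N.V
  hr : Bil false B B' r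
  hσ : Bil false B'' B σ
  ri : ∀ x, r (i.f x) = x
  pσ : ∀ x, p.f (σ x) = x
  pi : ∀ x, p.f (i.f x) = 0
  sum : ∀ x, i.f (r x) + σ (p.f x) = x

variable {B' B'' : BMod A A}

theorem Spl.decomp (S : Spl B' B B'') {V : Type} [AddCommGroup V] [Module k V]
    (f : B.N.V →ₗ[k] V) : f = (f ∘ₗ S.i.f) ∘ₗ S.r + (f ∘ₗ S.σ) ∘ₗ S.p.f := by
  ext x
  simp only [LinearMap.add_apply, LinearMap.comp_apply]
  rw [← map_add, S.sum]

/-- the boundary of the section factors through `i` -/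
theorem Spl.dσ (S : Spl B' B B'') : B.N.D ∘ₗ S.σ - S.σ ∘ₗ B''.N.D =
    S.i.f ∘ₗ (S.r ∘ₗ (B.N.D ∘ₗ S.σ - S.σ ∘ₗ B''.N.D)) := by
  ext x
  simp only [LinearMap.comp_apply, LinearMap.sub_apply]
  have h1 := S.sum (B.N.D (S.σ x) - S.σ (B''.N.D x))
  have h2 : S.p.f (B.N.D (S.σ x) - S.σ (B''.N.D x)) = 0 := by
    rw [map_sub, S.p.D, S.pσ, S.pσ, sub_self]
  rw [h2, map_zero, add_zero] at h1
  exact h1.symm

/-- two out of three: the middle -/
theorem Q.mid (S : Spl B' B B'') (h' : Q F B') (h'' : Q F B'') : Q F B := by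
  intro s f hf hfg
  obtain ⟨h1, hh1, hfg1⟩ := h' s (f ∘ₗ S.i.f) (hf.comp (Bil.hom S.i)) (by
    rw [cm_comp_hom]; exact hfg.comp _)
  have hb1 : Bil (!s) B F (h1 ∘ₗ S.r) := hh1.comp S.hr
  have hf2 : Bil s B F (f - cm (!s) B.N F.N (h1 ∘ₗ S.r)) := by
    have h := hb1.cm
    rw [Bool.not_not] at h
    exact hf.sub h
  have hr : (h1 ∘ₗ S.r) ∘ₗ S.i.f = h1 := by
    ext x
    simp only [LinearMap.comp_apply, S.ri]
  have hfgi : FG F ((f - cm (!s) B.N F.N (h1 ∘ₗ S.r)) ∘ₗ S.i.f) := by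
    rw [LinearMap.sub_comp, ← cm_comp_hom, hr]
    exact hfg1
  have hfg2 : FG F (cm s B.N F.N (f - cm (!s) B.N F.N (h1 ∘ₗ S.r))) := by
    have h := cm_cm (!s) B.N F.N (h1 ∘ₗ S.r)
    rw [Bool.not_not] at h
    rw [cm_sub, h, sub_zero]
    exact hfg
  generalize hf2def : f - cm (!s) B.N F.N (h1 ∘ₗ S.r) = f2 at hf2 hfgi hfg2
  obtain ⟨h2, hh2, hfg3⟩ := h'' s (f2 ∘ₗ S.σ) (hf2.comp S.hσ) (by
    rw [cm_comp, S.dσ, ← LinearMap.comp_assoc]
    exact (hfg2.comp _).add ((hfgi.comp _).smul _))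
  refine ⟨h1 ∘ₗ S.r + h2 ∘ₗ S.p.f, hb1.add (hh2.comp (Bil.hom S.p)), ?_⟩
  have e1 : f - cm (!s) B.N F.N (h1 ∘ₗ S.r + h2 ∘ₗ S.p.f) =
      f2 - cm (!s) B''.N F.N h2 ∘ₗ S.p.f := by
    rw [cm_add, ← hf2def, cm_comp_hom]
    abel
  rw [e1, S.decomp (f2 - cm (!s) B''.N F.N h2 ∘ₗ S.p.f)]
  refine FG.add (FG.comp ?_ _) (FG.comp ?_ _)
  · have e2 : (f2 - cm (!s) B''.N F.N h2 ∘ₗ S.p.f) ∘ₗ S.i.f = f2 ∘ₗ S.i.f := by
      ext x
      simp only [LinearMap.comp_apply, LinearMap.sub_apply, S.pi, map_zero, sub_zero]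
    rw [e2]
    exact hfgi
  · have e2 : (f2 - cm (!s) B''.N F.N h2 ∘ₗ S.p.f) ∘ₗ S.σ =
        f2 ∘ₗ S.σ - cm (!s) B''.N F.N h2 := by
      ext x
      simp only [LinearMap.comp_apply, LinearMap.sub_apply, S.pσ]
    rw [e2]
    exact hfg3

/-- two out of three: the left -/
theorem Q.left (S : Spl B' B B'') (h : Q F B) (h'' : Q F B'') : Q F B' := by
  intro s f hf hfg
  have hψ : Bil true B B' (cm false B.N B'.N S.r) := S.hr.cm
  have hψi : cm false B.N B'.N S.r ∘ₗ S.i.f = 0 := by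
    ext x
    simp only [cm_apply, LinearMap.comp_apply, LinearMap.zero_apply, S.ri, ← S.i.D]
    change B'.N.D x - (1 : k) • B'.N.D x = 0
    rw [one_smul, sub_self]
  have hψ0 : B'.N.D ∘ₗ cm false B.N B'.N S.r + cm false B.N B'.N S.r ∘ₗ B.N.D = 0 := by
    ext x
    simp only [cm_apply, LinearMap.comp_apply, LinearMap.add_apply, map_sub, map_smul,
      B'.N.DD, B.N.DD, map_zero, smul_zero, LinearMap.zero_apply]
    change 0 - (1 : k) • B'.N.D (S.r (B.N.D x)) + (B'.N.D (S.r (B.N.D x)) - 0) = 0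
    rw [one_smul]
    abel
  have hgb : Bil (!s) B F (f ∘ₗ cm false B.N B'.N S.r) := hf.comp_odd hψ
  have hcg : cm (!s) B.N F.N (f ∘ₗ cm false B.N B'.N S.r) =
      cm s B'.N F.N f ∘ₗ cm false B.N B'.N S.r := by
    rw [cm_comp_odd, hψ0, LinearMap.comp_zero, smul_zero, add_zero]
  have hz : ∀ {V : Type} [AddCommGroup V] [Module k V] (g : V →ₗ[k] B'.N.V),
      (f ∘ₗ cm false B.N B'.N S.r) ∘ₗ (S.i.f ∘ₗ g) = 0 := by
    intro V _ _ g
    ext x
    have h1 := LinearMap.congr_fun hψi (g x)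
    exact (congrArg f h1).trans (map_zero f)
  obtain ⟨h1, hh1, hfg1⟩ := h'' (!s) ((f ∘ₗ cm false B.N B'.N S.r) ∘ₗ S.σ)
    (hgb.comp S.hσ) (by
      rw [cm_comp, hcg, S.dσ, hz, smul_zero, add_zero]
      exact (hfg.comp _).comp _)
  rw [Bool.not_not] at hh1 hfg1
  have hF1 : Bil s B F (f ∘ₗ S.r - eps k s • (h1 ∘ₗ S.p.f)) :=
    (hf.comp S.hr).sub ((hh1.comp (Bil.hom S.p)).smul _)
  have hfψ : f ∘ₗ cm false B.N B'.N S.r =
      ((f ∘ₗ cm false B.N B'.N S.r) ∘ₗ S.σ) ∘ₗ S.p.f := by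
    have h2 := S.decomp (f ∘ₗ cm false B.N B'.N S.r)
    have h3 := hz S.r
    rw [← LinearMap.comp_assoc] at h3
    rwa [h3, zero_add] at h2
  have hcm0 : B'.N.D ∘ₗ S.r - S.r ∘ₗ B.N.D = cm false B.N B'.N S.r := by
    ext x
    simp only [cm_apply, LinearMap.comp_apply, LinearMap.sub_apply]
    change _ = B'.N.D (S.r x) - (1 : k) • S.r (B.N.D x)
    rw [one_smul]
  obtain ⟨h2, hh2, hfg2⟩ := h s (f ∘ₗ S.r - eps k s • (h1 ∘ₗ S.p.f)) hF1 (by
    have e : cm s B.N F.N (f ∘ₗ S.r - eps k s • (h1 ∘ₗ S.p.f)) =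
        cm s B'.N F.N f ∘ₗ S.r + eps k s •
          ((((f ∘ₗ cm false B.N B'.N S.r) ∘ₗ S.σ) - cm s B''.N F.N h1) ∘ₗ S.p.f) := by
      rw [cm_sub, cm_smul, cm_comp_hom, cm_comp, hcm0, LinearMap.sub_comp, ← hfψ, smul_sub]
      abel
    rw [e]
    exact (hfg.comp _).add ((hfg1.comp _).smul _))
  refine ⟨h2 ∘ₗ S.i.f, hh2.comp (Bil.hom S.i), ?_⟩
  have e : f - cm (!s) B'.N F.N (h2 ∘ₗ S.i.f) =
      (f ∘ₗ S.r - eps k s • (h1 ∘ₗ S.p.f) - cm (!s) B.N F.N h2) ∘ₗ S.i.f := by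
    rw [cm_comp_hom]
    ext x
    simp only [LinearMap.comp_apply, LinearMap.sub_apply, LinearMap.smul_apply, S.ri, S.pi,
      map_zero, smul_zero, sub_zero]
  rw [e]
  exact hfg2.comp _

/-- two out of three: the right -/
theorem Q.right (S : Spl B' B B'') (h' : Q F B') (h : Q F B) : Q F B'' := by
  intro s f hf hfg
  obtain ⟨h1, hh1, hfg1⟩ := h s (f ∘ₗ S.p.f) (hf.comp (Bil.hom S.p)) (by
    rw [cm_comp_hom]; exact hfg.comp _)
  obtain ⟨h2, hh2, hfg2⟩ := h' (!s) (h1 ∘ₗ S.i.f) (hh1.comp (Bil.hom S.i)) (by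
    have e : cm (!s) B'.N F.N (h1 ∘ₗ S.i.f) =
        -((f ∘ₗ S.p.f - cm (!s) B.N F.N h1) ∘ₗ S.i.f) := by
      rw [cm_comp_hom]
      ext x
      simp only [LinearMap.comp_apply, LinearMap.sub_apply, LinearMap.neg_apply, S.pi, map_zero,
        zero_sub, neg_neg]
    rw [e]
    exact (hfg1.comp _).neg)
  rw [Bool.not_not] at hh2 hfg2
  have hb : Bil (!s) B F (h1 - cm s B.N F.N (h2 ∘ₗ S.r)) :=
    hh1.sub (hh2.comp S.hr).cm
  have hr : (h2 ∘ₗ S.r) ∘ₗ S.i.f = h2 := by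
    ext x
    simp only [LinearMap.comp_apply, S.ri]
  have hi : FG F ((h1 - cm s B.N F.N (h2 ∘ₗ S.r)) ∘ₗ S.i.f) := by
    rw [LinearMap.sub_comp, ← cm_comp_hom, hr]
    exact hfg2
  have hc : cm (!s) B.N F.N (h1 - cm s B.N F.N (h2 ∘ₗ S.r)) = cm (!s) B.N F.N h1 := by
    rw [cm_sub, cm_cm, sub_zero]
  generalize h1 - cm s B.N F.N (h2 ∘ₗ S.r) = h3 at hb hi hc
  refine ⟨h3 ∘ₗ S.σ, hb.comp S.hσ, ?_⟩
  have e : f - cm (!s) B''.N F.N (h3 ∘ₗ S.σ) =
      (f ∘ₗ S.p.f - cm (!s) B.N F.N h1) ∘ₗ S.σ -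
        eps k (!s) • ((h3 ∘ₗ S.i.f) ∘ₗ (S.r ∘ₗ (B.N.D ∘ₗ S.σ - S.σ ∘ₗ B''.N.D))) := by
    have e2 : (f ∘ₗ S.p.f) ∘ₗ S.σ = f := by
      ext x
      simp only [LinearMap.comp_apply, S.pσ]
    have e3 : (h3 ∘ₗ S.i.f) ∘ₗ (S.r ∘ₗ (B.N.D ∘ₗ S.σ - S.σ ∘ₗ B''.N.D)) =
        h3 ∘ₗ (B.N.D ∘ₗ S.σ - S.σ ∘ₗ B''.N.D) := by
      rw [LinearMap.comp_assoc, ← S.dσ]
    rw [e3, cm_comp, hc, LinearMap.sub_comp, e2]
    abel
  rw [e]
  exact (hfg1.comp _).sub ((hi.comp _).smul _)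

/-- the free bimodule -/
theorem Q.free (F : BMod A A) : Q F (BMod.free A A) := by
  classical
  intro s f hf _
  have e : f - cm (!s) (BMod.free A A).N F.N 0 = f := by
    ext x
    simp [cm_apply]
  refine ⟨0, ⟨fun a x => by simp, fun x a => by simp, fun x => by simp⟩, ?_⟩
  rw [e]
  refine ⟨{f ((1 : A.V) ⊗ₜ[k] (1 : A.V))}, fun x => ?_⟩
  have key : ∀ (a b : A.V), f (a ⊗ₜ[k] b) ∈ spanS F {f ((1 : A.V) ⊗ₜ[k] (1 : A.V))} := by
    intro a b
    have h1 : (a ⊗ₜ[k] b : A.V ⊗[k] A.V) = (BMod.free A A).b.l.act a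
        ((BMod.free A A).b.r.act ((1 : A.V) ⊗ₜ[k] (1 : A.V)) b) := by
      change a ⊗ₜ[k] b = (a * 1) ⊗ₜ[k] (1 * b)
      rw [mul_one, one_mul]
    rw [h1]
    have h2 := hf.l a ((BMod.free A A).b.r.act ((1 : A.V) ⊗ₜ[k] (1 : A.V)) b)
    have h3 : f ((BMod.free A A).b.r.act ((1 : A.V) ⊗ₜ[k] (1 : A.V)) b) =
        F.b.r.act (f ((1 : A.V) ⊗ₜ[k] (1 : A.V))) b := hf.r _ b
    rw [h2.trans (congrArg (F.b.l.act (tw A s a)) h3)]
    exact spanS_l F _ (spanS_r F _ (mem_spanS F (Finset.mem_singleton_self _)))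
  have hx : ∀ x : A.V ⊗[k] A.V, f x ∈ spanS F {f ((1 : A.V) ⊗ₜ[k] (1 : A.V))} := by
    intro x
    induction x using TensorProduct.induction_on with
    | zero => exact (map_zero f) ▸ Submodule.zero_mem _
    | tmul a b => exact key a b
    | add a b ha hb => exact (map_add f a b) ▸ Submodule.add_mem _ ha hb
  exact hx x

end PQ

end NC
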