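import Pool.Agent.H28.NC.PFinA
import Pool.Agent.H36.NX.RPB

/-!
# PFin, part B: `Q` for the two sided bar resolution of a perfect bimodule

`B5 N = Bar(A, A, Bar(N, A, A))`; the main result is `PF A N → Q F (B5 N)`.
-/

set_option autoImplicit false

open scoped TensorProduct

noncomputable section

namespace NC

variable {k : Type} [Field k] {A : DGA k}

namespace PQ

/-! ### retracts and isomorphisms -/

theorem Q.hret {F X Y : BMod A A} (H : HRet X Y) (hQ : Q F Y) : Q F X := by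
  obtain ⟨H', -, -, hE⟩ := H.exists_odd'
  refine Q.retr F H'.s H'.r H'.h ⟨H'.hl, H'.hr, fun x => ?_⟩ H'.eq hQ
  rw [hE]
  exact (neg_one_smul k _).symm

theorem Q.iso {F X Y : BMod A A} (f : BMod.Hom X Y) (g : BMod.Hom Y X)
    (gf : ∀ x, g.f (f.f x) = x) (hQ : Q F Y) : Q F X :=
  Q.hret ⟨f, g, 0, fun a x => by simp, fun x a => by simp, fun x => by simp [gf]⟩ hQ

/-- the inverse of a bijective morphism -/
def invHom {X Y : BMod A A} (f : BMod.Hom X Y) (g : Y.N.V →ₗ[k] X.N.V)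
    (gf : ∀ x, g (f.f x) = x) (fg : ∀ y, f.f (g y) = y) : BMod.Hom Y X where
  f := g
  D := fun v => by
    have h := f.D (g v)
    rw [fg] at h
    rw [← h, gf]
  P := fun v => by
    have h := f.P (g v)
    rw [fg] at h
    rw [← h, gf]
  isHom := ⟨fun a n => by
      have h := f.isHom.l a (g n)
      rw [fg] at h
      exact (congrArg g h).symm.trans (gf _), fun n a => by
      have h := f.isHom.r (g n) a
      rw [fg] at h
      exact (congrArg g h).symm.trans (gf _)⟩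

theorem invHom_gf {X Y : BMod A A} (f : BMod.Hom X Y) (g : Y.N.V →ₗ[k] X.N.V)
    (gf : ∀ x, g (f.f x) = x) (fg : ∀ y, f.f (g y) = y) (x : X.N.V) :
    (invHom f g gf fg).f (f.f x) = x := gf x

theorem invHom_fg {X Y : BMod A A} (f : BMod.Hom X Y) (g : Y.N.V →ₗ[k] X.N.V)
    (gf : ∀ x, g (f.f x) = x) (fg : ∀ y, f.f (g y) = y) (y : Y.N.V) :
    f.f ((invHom f g gf fg).f y) = y := fg y

/-! ### filtrations -/

theorem bij_of_filt {V : Type} [AddCommGroup V] [Module k V] (F : ℕ → Submodule k V)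
    (h0 : ∀ x ∈ F 0, x = 0) (hex : ∀ x, ∃ n, x ∈ F n) (M : V →ₗ[k] V)
    (hM : ∀ n, ∀ x ∈ F (n + 1), x - M x ∈ F n) : Function.Bijective M := by
  constructor
  · refine (injective_iff_map_eq_zero M).2 (fun x hx => ?_)
    obtain ⟨n, hn⟩ := hex x
    induction n with
    | zero => exact h0 x hn
    | succ n ih =>
      have h := hM n x hn
      rw [hx, sub_zero] at h
      exact ih h
  · have key : ∀ n, ∀ x ∈ F n, ∃ u, M u = x := by
      intro n
      induction n with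
      | zero => intro x hx; exact ⟨0, by rw [map_zero, h0 x hx]⟩
      | succ n ih =>
        intro x hx
        obtain ⟨u, hu⟩ := ih _ (hM n x hx)
        exact ⟨x + u, by rw [map_add, hu]; abel⟩
    intro x
    obtain ⟨n, hn⟩ := hex x
    exact key n x hn

/-- `HT s` contracts up to shorter words -/
theorem filt_left {R : DGA k} {X Y : SD k} (ρ : RA R X) (l : LA R Y) (s : X.V →ₗ[k] X.V)
    (hs : ∀ x, X.D (s x) + s (X.D x) = x) (hE : ∀ x, X.E (s x) = - s (X.E x)) (n : ℕ)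
    (x : Wd k X.V R.V ⊗[k] Y.V) (hx : x ∈ barF X R Y.V (n + 1)) :
    x - (barD ρ l (BM.HT R.V Y.V s x) + BM.HT R.V Y.V s (barD ρ l x)) ∈ barF X R Y.V n := by
  have hle : barF X R Y.V (n + 1) ≤ (barF X R Y.V n).comap
      (LinearMap.id - (barD ρ l ∘ₗ BM.HT R.V Y.V s + BM.HT R.V Y.V s ∘ₗ barD ρ l)) := by
    have hu : barF X R Y.V (n + 1) = Submodule.map₂ (TensorProduct.mk k (Wd k X.V R.V) Y.V)
      (Wd.len k X.V R.V n) ⊤ := rfl
    rw [hu, Submodule.map₂_le]
    intro w hw y _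
    rw [Submodule.mem_comap]
    have hlam : lam (X := X) l (Wd.map s LinearMap.id w ⊗ₜ y) =
        - BM.HT R.V Y.V s (lam (X := X) l (w ⊗ₜ y)) := by
      clear hw
      induction w using Wd.induction with
      | hadd a b ha hb => simp only [map_add, TensorProduct.add_tmul, ha, hb]; abel
      | hnil n => simp
      | hsnoc w _ r => simp [BM.EW_map_odd _ s hE, TensorProduct.neg_tmul]
    have h1 : (LinearMap.id - (barD ρ l ∘ₗ BM.HT R.V Y.V s + BM.HT R.V Y.V s ∘ₗ barD ρ l) :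
        Wd k X.V R.V ⊗[k] Y.V →ₗ[k] Wd k X.V R.V ⊗[k] Y.V) (w ⊗ₜ[k] y) =
          (w - (Db ρ (Wd.map s LinearMap.id w) +
          Wd.map s LinearMap.id (Db ρ w))) ⊗ₜ y := by
      simp only [LinearMap.sub_apply, LinearMap.add_apply, LinearMap.comp_apply,
        LinearMap.id_apply, BM.HT_tmul, barD_tmul, map_add, map_sub, hlam,
        BM.EW_map_odd R.toSD s hE, TensorProduct.neg_tmul, TensorProduct.sub_tmul,
        TensorProduct.add_tmul]
      abel
    rw [TensorProduct.mk_apply, h1]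
    have h2 := contraction_words ρ s hs hE n w hw
    cases n with
    | zero =>
      have h3 : w - (Db ρ (Wd.map s LinearMap.id w) + Wd.map s LinearMap.id (Db ρ w)) = 0 := h2
      rw [h3, TensorProduct.zero_tmul]
      exact Submodule.zero_mem _
    | succ n => exact tmul_mem_barF h2 y
  exact hle hx

/-- `TO s` contracts up to shorter words -/
theorem filt_right {R : DGA k} {X Y : SD k} (ρ : RA R X) (l : LA R Y) (s : Y.V →ₗ[k] Y.V)
    (hs : ∀ y, Y.D (s y) + s (Y.D y) = y) (n : ℕ)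
    (x : Wd k X.V R.V ⊗[k] Y.V) (hx : x ∈ barF X R Y.V (n + 1)) :
    x - (barD ρ l (BM.TO X R s x) + BM.TO X R s (barD ρ l x)) ∈ barF X R Y.V n := by
  have hle : barF X R Y.V (n + 1) ≤ (barF X R Y.V n).comap
      (LinearMap.id - (barD ρ l ∘ₗ BM.TO X R s + BM.TO X R s ∘ₗ barD ρ l)) := by
    have hu : barF X R Y.V (n + 1) = Submodule.map₂ (TensorProduct.mk k (Wd k X.V R.V) Y.V)
      (Wd.len k X.V R.V n) ⊤ := rfl
    rw [hu, Submodule.map₂_le]
    intro w hw y _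
    rw [Submodule.mem_comap]
    have h1 : (LinearMap.id - (barD ρ l ∘ₗ BM.TO X R s + BM.TO X R s ∘ₗ barD ρ l) :
        Wd k X.V R.V ⊗[k] Y.V →ₗ[k] Wd k X.V R.V ⊗[k] Y.V) (w ⊗ₜ[k] y) =
          lam (X := X) l (EW X R.toSD w ⊗ₜ s y) +
          BM.TO X R s (lam (X := X) l (w ⊗ₜ y)) := by
      have h2 : w ⊗ₜ[k] y = w ⊗ₜ[k] Y.D (s y) + w ⊗ₜ[k] s (Y.D y) := by
        rw [← TensorProduct.tmul_add, hs]
      simp only [LinearMap.sub_apply, LinearMap.add_apply, LinearMap.comp_apply,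
        LinearMap.id_apply, BM.TO_tmul, barD_tmul, map_add, map_sub, Db_EW, EW_EW,
        TensorProduct.neg_tmul]
      rw [h2]
      abel
    rw [TensorProduct.mk_apply, h1]
    exact Submodule.add_mem _ (lam_mem_barF l (EW_mem_len hw) _)
      (TO_mem_barF s (lam_mem_barF l hw y))
  exact hle hx

/-- the inverse of a bijective operator commutes with the operators which commute with it -/
theorem inv_comm {V : Type} [AddCommGroup V] [Module k V] (M : V →ₗ[k] V)
    (hM : Function.Bijective M) (α : V →ₗ[k] V) (h : ∀ x, M (α x) = α (M x)) (x : V) :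
    (LinearEquiv.ofBijective M hM).symm (α x) = α ((LinearEquiv.ofBijective M hM).symm x) := by
  have h1 : ∀ y, (LinearEquiv.ofBijective M hM).symm (M y) = y := fun y =>
    (LinearEquiv.ofBijective M hM).symm_apply_apply y
  have h2 : ∀ y, M ((LinearEquiv.ofBijective M hM).symm y) = y := fun y =>
    (LinearEquiv.ofBijective M hM).apply_symm_apply y
  rw [← h1 (α ((LinearEquiv.ofBijective M hM).symm x)), h, h2]

/-! ### right linear maps -/

/-- right linear maps of parity `s` -/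
structure RB (s : Bool) (M M' : BMod A A) (f : M.N.V →ₗ[k] M'.N.V) : Prop where
  r : ∀ x a, f (M.b.r.act x a) = M'.b.r.act (f x) a
  e : ∀ x, M'.N.E (f x) = eps k s • f (M.N.E x)

variable {N N' N'' M M' F : BMod A A}

theorem RB.HT {s : Bool} (M : BMod A A) (φ : N.N.V →ₗ[k] N'.N.V)
    (hE : ∀ x, N'.N.E (φ x) = eps k s • φ (N.N.E x)) :
    RB s (BMod.bar N M) (BMod.bar N' M) (BM.HT A.V M.N.V φ) where
  r := fun v a => by
    refine tens_ext (f := BM.HT A.V M.N.V φ ∘ₗ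
        LinearMap.lTensorHom (Wd k N.N.V A.V) (M.b.r.act.flip a))
      (g := LinearMap.lTensorHom (Wd k N'.N.V A.V) (M.b.r.act.flip a) ∘ₗ
        BM.HT A.V M.N.V φ) (fun w y => rfl) v
  e := fun v => by
    have h1 : (BMod.bar N' M).N.E = TensorProduct.map (EW N'.N A.toSD) M.N.E := Bar_E _ _
    have h2 : (BMod.bar N M).N.E = TensorProduct.map (EW N.N A.toSD) M.N.E := Bar_E _ _
    rw [h1, h2]
    refine tens_ext (f := TensorProduct.map (EW N'.N A.toSD) M.N.E ∘ₗ BM.HT A.V M.N.V φ)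
      (g := eps k s • (BM.HT A.V M.N.V φ ∘ₗ TensorProduct.map (EW N.N A.toSD) M.N.E))
      (fun w y => ?_) v
    simp only [LinearMap.comp_apply, LinearMap.smul_apply, BM.HT_tmul, TensorProduct.map_tmul]
    cases s with
    | false =>
      have h3 := BM.EW_map_even A.toSD φ (fun x => (hE x).trans (one_smul k _)) w
      rw [h3]
      exact (one_smul k _).symm
    | true =>
      have h3 := BM.EW_map_odd A.toSD φ (fun x => (hE x).trans (neg_one_smul k _)) w
      rw [h3, TensorProduct.neg_tmul]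
      exact (neg_one_smul k _).symm

theorem RB.cm {f : M.N.V →ₗ[k] M.N.V} (hf : RB true M M f) :
    RB false M M (cm true M.N M.N f) where
  r := fun x a => by
    rw [cm_apply, cm_apply, hf.r, M.b.r.D_act, M.b.r.D_act, map_add, hf.r, hf.r, hf.e, map_sub,
      map_smul, map_smul, LinearMap.smul_apply, LinearMap.sub_apply, LinearMap.smul_apply,
      smul_add]
    abel
  e := fun x => by
    rw [cm_apply, cm_apply, map_sub, map_smul, M.N.ED, hf.e, hf.e, M.N.ED, map_smul,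
      map_neg]
    change -((-1 : k) • M.N.D (f (M.N.E x))) - (-1 : k) • ((-1 : k) • -(f (M.N.D (M.N.E x)))) =
      (1 : k) • (M.N.D (f (M.N.E x)) - (-1 : k) • f (M.N.D (M.N.E x)))
    simp only [neg_one_smul, one_smul, neg_neg]

theorem cm_true_apply (M : SD k) (f : M.V →ₗ[k] M.V) (x : M.V) :
    cm true M M f x = M.D (f x) + f (M.D x) := by
  rw [cm_apply]
  change M.D (f x) - (-1 : k) • f (M.D x) = _
  rw [neg_one_smul, sub_neg_eq_add]

theorem Bil.TT (N : BMod A A) {ψ : M.N.V →ₗ[k] M'.N.V} (h : RB false M M' ψ) :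
    Bil false (BMod.bar N M) (BMod.bar N M') (BM.TT N.N A ψ) where
  l := fun a v => by
    refine tens_ext (f := BM.TT N.N A ψ ∘ₗ LinearMap.rTensorHom M.N.V (hd A N.b.l a))
      (g := LinearMap.rTensorHom M'.N.V (hd A N.b.l a) ∘ₗ BM.TT N.N A ψ) (fun w y => rfl) v
  r := fun v a => by
    refine tens_ext (f := BM.TT N.N A ψ ∘ₗ
        LinearMap.lTensorHom (Wd k N.N.V A.V) (M.b.r.act.flip a))
      (g := LinearMap.lTensorHom (Wd k N.N.V A.V) (M'.b.r.act.flip a) ∘ₗ BM.TT N.N A ψ)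
      (fun w y => ?_) v
    exact congrArg (fun z => w ⊗ₜ[k] z) (h.r y a)
  e := fun v => by
    have h1 : (BMod.bar N M').N.E = TensorProduct.map (EW N.N A.toSD) M'.N.E := Bar_E _ _
    have h2 : (BMod.bar N M).N.E = TensorProduct.map (EW N.N A.toSD) M.N.E := Bar_E _ _
    rw [h1, h2]
    refine tens_ext (f := TensorProduct.map (EW N.N A.toSD) M'.N.E ∘ₗ BM.TT N.N A ψ)
      (g := eps k false • (BM.TT N.N A ψ ∘ₗ TensorProduct.map (EW N.N A.toSD) M.N.E))
      (fun w y => ?_) v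
    have h3 := h.e y
    simp only [LinearMap.comp_apply, LinearMap.smul_apply, BM.TT_tmul, TensorProduct.map_tmul]
    rw [h3, TensorProduct.tmul_smul]

theorem Bil.TO (N : BMod A A) {ψ : M.N.V →ₗ[k] M'.N.V} (h : RB true M M' ψ) :
    Bil true (BMod.bar N M) (BMod.bar N M') (BM.TO N.N A ψ) where
  l := fun a v => by
    refine tens_ext (f := BM.TO N.N A ψ ∘ₗ LinearMap.rTensorHom M.N.V (hd A N.b.l a))
      (g := LinearMap.rTensorHom M'.N.V (hd A N.b.l (A.E a)) ∘ₗ BM.TO N.N A ψ)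
      (fun w y => ?_) v
    exact congrArg (fun z => z ⊗ₜ[k] ψ y) (hd_EW N.b.l a w)
  r := fun v a => by
    refine tens_ext (f := BM.TO N.N A ψ ∘ₗ
        LinearMap.lTensorHom (Wd k N.N.V A.V) (M.b.r.act.flip a))
      (g := LinearMap.lTensorHom (Wd k N.N.V A.V) (M'.b.r.act.flip a) ∘ₗ BM.TO N.N A ψ)
      (fun w y => ?_) v
    exact congrArg (fun z => EW N.N A.toSD w ⊗ₜ[k] z) (h.r y a)
  e := fun v => by
    have h1 : (BMod.bar N M').N.E = TensorProduct.map (EW N.N A.toSD) M'.N.E := Bar_E _ _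
    have h2 : (BMod.bar N M).N.E = TensorProduct.map (EW N.N A.toSD) M.N.E := Bar_E _ _
    rw [h1, h2]
    refine tens_ext (f := TensorProduct.map (EW N.N A.toSD) M'.N.E ∘ₗ BM.TO N.N A ψ)
      (g := eps k true • (BM.TO N.N A ψ ∘ₗ TensorProduct.map (EW N.N A.toSD) M.N.E))
      (fun w y => ?_) v
    have h3 := h.e y
    simp only [LinearMap.comp_apply, LinearMap.smul_apply, BM.TO_tmul, TensorProduct.map_tmul]
    rw [h3, TensorProduct.tmul_smul]

/-! ### contractions -/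

/-- a contraction from a contraction up to lower filtration -/
theorem contr_of_filt {B : BMod A A} {T : B.N.V →ₗ[k] B.N.V} (hT : RB true B B T)
    (F : ℕ → Submodule k B.N.V) (h0 : ∀ x ∈ F 0, x = 0) (hex : ∀ x, ∃ n, x ∈ F n)
    (hF : ∀ n, ∀ x ∈ F (n + 1), x - (B.N.D (T x) + T (B.N.D x)) ∈ F n) :
    ∃ G : B.N.V →ₗ[k] B.N.V, RB true B B G ∧ (∀ v, B.N.D (G v) + G (B.N.D v) = v) ∧
      (Bil true B B T → Bil true B B G) := by
  have hC := hT.cm
  have hbij : Function.Bijective (cm true B.N B.N T) := by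
    refine bij_of_filt F h0 hex _ (fun n x hx => ?_)
    rw [cm_true_apply]
    exact hF n x hx
  have hD : ∀ x, cm true B.N B.N T (B.N.D x) = B.N.D (cm true B.N B.N T x) := by
    intro x
    rw [cm_true_apply, cm_true_apply, map_add, B.N.DD, map_zero, B.N.DD, add_zero, zero_add]
  have hCG : ∀ y, cm true B.N B.N T ((LinearEquiv.ofBijective _ hbij).symm y) = y := fun y =>
    (LinearEquiv.ofBijective _ hbij).apply_symm_apply y
  have hr : ∀ x a, (T ∘ₗ (LinearEquiv.ofBijective _ hbij).symm.toLinearMap) (B.b.r.act x a) =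
      B.b.r.act ((T ∘ₗ (LinearEquiv.ofBijective _ hbij).symm.toLinearMap) x) a := by
    intro x a
    have h1 := inv_comm _ hbij (B.b.r.act.flip a) (fun x => hC.r x a) x
    exact (congrArg T h1).trans (hT.r _ a)
  have he : ∀ x, B.N.E ((T ∘ₗ (LinearEquiv.ofBijective _ hbij).symm.toLinearMap) x) =
      eps k true • (T ∘ₗ (LinearEquiv.ofBijective _ hbij).symm.toLinearMap) (B.N.E x) := by
    intro x
    have h1 := inv_comm _ hbij B.N.E (fun x => by
      rw [hC.e]; exact (one_smul k _).symm) x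
    exact (hT.e _).trans (congrArg (fun z => eps k true • T z) h1.symm)
  refine ⟨T ∘ₗ (LinearEquiv.ofBijective _ hbij).symm.toLinearMap,
    ⟨hr, he⟩, fun v => ?_, fun hb => ⟨fun a x => ?_, hr, he⟩⟩
  · have h1 := inv_comm _ hbij B.N.D hD v
    have h2 := hCG v
    rw [cm_true_apply] at h2
    exact (congrArg (fun z => B.N.D (T ((LinearEquiv.ofBijective _ hbij).symm v)) + T z)
      h1).trans h2
  · have h1 := inv_comm _ hbij (B.b.l.act a) (fun x => hb.cm.l a x) x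
    exact (congrArg T h1).trans (hb.l a _)

/-- a right linear contraction of `Bar(N, A, M)` for acyclic `N` -/
theorem contr_in (M : BMod A A) (hN : N.N.Acyclic) :
    ∃ G : (BMod.bar N M).N.V →ₗ[k] (BMod.bar N M).N.V,
      RB true (BMod.bar N M) (BMod.bar N M) G ∧
      ∀ v, (BMod.bar N M).N.D (G v) + G ((BMod.bar N M).N.D v) = v := by
  obtain ⟨t, ht, hE⟩ := BM.exists_contraction hN
  have hT : RB true (BMod.bar N M) (BMod.bar N M) (BM.HT A.V M.N.V t) :=
    RB.HT M t (fun x => (hE x).trans (neg_one_smul k _).symm)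
  obtain ⟨G, h1, h2, -⟩ := contr_of_filt hT (barF N.N A M.N.V) (fun x hx => hx)
    (exists_mem_barF N.N A M.N.V) (fun n x hx => filt_left N.b.r M.b.l t ht hE n x hx)
  exact ⟨G, h1, h2⟩

/-- a bilinear contraction of `Bar(N, A, M)` from a right linear contraction of `M` -/
theorem contr_out (N : BMod A A) (g : M.N.V →ₗ[k] M.N.V) (hg : RB true M M g)
    (hg1 : ∀ v, M.N.D (g v) + g (M.N.D v) = v) :
    ∃ G : (BMod.bar N M).N.V →ₗ[k] (BMod.bar N M).N.V,
      Bil true (BMod.bar N M) (BMod.bar N M) G ∧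
      ∀ v, (BMod.bar N M).N.D (G v) + G ((BMod.bar N M).N.D v) = v := by
  have hT : Bil true (BMod.bar N M) (BMod.bar N M) (BM.TO N.N A g) := Bil.TO N hg
  obtain ⟨G, -, h2, h3⟩ := contr_of_filt ⟨hT.r, hT.e⟩ (barF N.N A M.N.V) (fun x hx => hx)
    (exists_mem_barF N.N A M.N.V) (fun n x hx => filt_right N.b.r M.b.l g hg1 n x hx)
  exact ⟨G, h3 hT, h2⟩

/-! ### the functor `B5` -/

/-- `Bar(A, A, Bar(N, A, A))` -/
def B5 (N : BMod A A) : BMod A A :=
  BMod.bar (BMod.diag A) (BMod.bar N (BMod.diag A))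

theorem Q.acyclic (F : BMod A A) (hN : N.N.Acyclic) : Q F (B5 N) := by
  obtain ⟨g, hg, hg1⟩ := contr_in (BMod.diag A) hN
  obtain ⟨G, hG, hG1⟩ := contr_out (BMod.diag A) g hg hg1
  exact Q.contr F G hG hG1

/-- functoriality in the second variable -/
def barR (N : BMod A A) (g : BMod.Hom M M') : BMod.Hom (BMod.bar N M) (BMod.bar N M') where
  toHom := barMap (SD.Hom.id N.N) g.toHom (RA.isHom_id N.b.r) g.isHom.l
  isHom := barMap_isHom (Bi.isHom_id N.b) g.isHom

theorem barR_f (N : BMod A A) (g : BMod.Hom M M') (v : Wd k N.N.V A.V ⊗[k] M.N.V) :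
    (barR N g).f v = BM.TT N.N A g.f v := by
  refine tens_ext (f := (barMap (SD.Hom.id N.N) g.toHom (RA.isHom_id N.b.r) g.isHom.l).f)
    (g := BM.TT N.N A g.f) (fun w y => ?_) v
  exact congrArg (fun z => z ⊗ₜ[k] g.f y) (BM.map_id w)

/-- homotopy retracts in the second variable -/
def barR_ret (N : BMod A A) (H : HRet M M') : HRet (BMod.bar N M) (BMod.bar N M') where
  s := barR N H.s
  r := barR N H.r
  h := BM.TO N.N A H.h
  hl := fun a v => by
    refine tens_ext (f := BM.TO N.N A H.h ∘ₗ LinearMap.rTensorHom M.N.V (hd A N.b.l a))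
      (g := LinearMap.rTensorHom M.N.V (hd A N.b.l (A.E a)) ∘ₗ BM.TO N.N A H.h)
      (fun w y => ?_) v
    exact congrArg (fun z => z ⊗ₜ[k] H.h y) (hd_EW N.b.l a w)
  hr := fun v a => by
    refine tens_ext (f := BM.TO N.N A H.h ∘ₗ
        LinearMap.lTensorHom (Wd k N.N.V A.V) (M.b.r.act.flip a))
      (g := LinearMap.lTensorHom (Wd k N.N.V A.V) (M.b.r.act.flip a) ∘ₗ BM.TO N.N A H.h)
      (fun w y => ?_) v
    exact congrArg (fun z => EW N.N A.toSD w ⊗ₜ[k] z) (H.hr y a)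
  eq := fun v => by
    have h1 := BM.barD_TO (l := M.b.l) (l' := M.b.l) N.b.r H.h H.hl v
    have e1 := barR_f N H.s v
    have e2 := barR_f N H.r ((barR N H.s).f v)
    have h2 : (barR N H.r).f ((barR N H.s).f v) = BM.TT N.N A (H.r.f ∘ₗ H.s.f) v :=
      e2.trans ((congrArg (BM.TT N.N A H.r.f) e1).trans (BM.TT_TT N.N A _ _ v))
    have h3 : H.r.f ∘ₗ H.s.f = LinearMap.id + (M.N.D ∘ₗ H.h + H.h ∘ₗ M.N.D) := by
      refine LinearMap.ext fun x => ?_
      simp only [LinearMap.comp_apply, LinearMap.add_apply, LinearMap.id_apply]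
      rw [H.eq x, add_assoc]
    have h5 : ∀ v : Wd k N.N.V A.V ⊗[k] M.N.V, BM.TT N.N A (H.r.f ∘ₗ H.s.f) v =
        v + BM.TT N.N A (M.N.D ∘ₗ H.h + H.h ∘ₗ M.N.D) v := by
      intro v
      rw [h3, BM.TT_add, BM.TT_id]
    have h4 : BM.TT N.N A (M.N.D ∘ₗ H.h + H.h ∘ₗ M.N.D) v =
        barD N.b.r M.b.l (BM.TO N.N A H.h v) + BM.TO N.N A H.h (barD N.b.r M.b.l v) := by
      rw [h1]; abel
    refine h2.trans ((h5 v).trans ((congrArg (fun z => v + z) h4).trans ?_))
    exact (add_assoc _ _ _).symm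

/-- the linear part of the functor `B5` -/
def T5 (φ : N.N.V →ₗ[k] N'.N.V) : (B5 N).N.V →ₗ[k] (B5 N').N.V :=
  BM.TT A.toSD A (BM.HT A.V A.V φ)

theorem T5_T5 (φ : N.N.V →ₗ[k] N'.N.V) (ψ : N'.N.V →ₗ[k] N''.N.V) (v : (B5 N).N.V) :
    T5 ψ (T5 φ v) = T5 (ψ ∘ₗ φ) v := by
  have h1 : BM.HT A.V A.V ψ ∘ₗ BM.HT A.V A.V φ = BM.HT A.V A.V (ψ ∘ₗ φ) :=
    LinearMap.ext (fun x => BM.HT_HT φ ψ x)
  have h2 := BM.TT_TT A.toSD A (BM.HT A.V A.V φ) (BM.HT A.V A.V ψ) v
  rw [h1] at h2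
  exact h2

theorem T5_id (v : (B5 N).N.V) : T5 (LinearMap.id : N.N.V →ₗ[k] N.N.V) v = v := by
  have h1 : BM.HT A.V A.V (LinearMap.id : N.N.V →ₗ[k] N.N.V) = LinearMap.id :=
    LinearMap.ext (fun x => BM.HT_id x)
  exact (congrArg (fun z => BM.TT A.toSD A z v) h1).trans (BM.TT_id A.toSD A v)

theorem T5_zero (v : (B5 N).N.V) : T5 (0 : N.N.V →ₗ[k] N'.N.V) v = 0 := by
  have h1 : BM.HT A.V A.V (0 : N.N.V →ₗ[k] N'.N.V) = 0 :=
    LinearMap.ext (fun x => BM.HT_zero x)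
  exact (congrArg (fun z => BM.TT A.toSD A z v) h1).trans (BM.TT_zero A.toSD A v)

theorem T5_add (φ ψ : N.N.V →ₗ[k] N'.N.V) (v : (B5 N).N.V) :
    T5 (φ + ψ) v = T5 φ v + T5 ψ v := by
  have h1 : BM.HT A.V A.V (φ + ψ) = BM.HT A.V A.V φ + BM.HT A.V A.V ψ :=
    LinearMap.ext (fun x => BM.HT_add φ ψ x)
  exact (congrArg (fun z => BM.TT A.toSD A z v) h1).trans
    (BM.TT_add A.toSD A (BM.HT A.V A.V φ) (BM.HT A.V A.V ψ) v)

theorem Bil.T5 {φ : N.N.V →ₗ[k] N'.N.V} (hE : ∀ x, N'.N.E (φ x) = φ (N.N.E x)) :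
    Bil false (B5 N) (B5 N') (T5 φ) :=
  Bil.TT (BMod.diag A) (RB.HT (BMod.diag A) φ (fun x => (hE x).trans (one_smul k _).symm))

/-- functoriality -/
def B5map (f : BMod.Hom N N') : BMod.Hom (B5 N) (B5 N') :=
  barR (BMod.diag A) (BMod.barL f (BMod.diag A))

theorem B5map_f (f : BMod.Hom N N') (v : (B5 N).N.V) : (B5map f).f v = T5 f.f v :=
  barR_f (BMod.diag A) (BMod.barL f (BMod.diag A)) v

/-- a splitting which respects the parity -/
theorem split_even {N' N N'' : SD k} {f : SD.Hom N' N} {g : SD.Hom N N''} (h : SD.SES f g) :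
    ∃ (r : N.V →ₗ[k] N'.V) (s : N''.V →ₗ[k] N.V), r ∘ₗ f.f = LinearMap.id ∧
      g.f ∘ₗ s = LinearMap.id ∧ g.f ∘ₗ f.f = 0 ∧ f.f ∘ₗ r + s ∘ₗ g.f = LinearMap.id ∧
      (∀ x, N'.E (r x) = r (N.E x)) ∧ (∀ x, N.E (s x) = s (N''.E x)) := by
  obtain ⟨r, s, h1, h2, h3, h4⟩ := BM.split_of_ses h
  have h1' : ∀ x, r (f.f x) = x := fun x => LinearMap.congr_fun h1 x
  have h2' : ∀ x, g.f (s x) = x := fun x => LinearMap.congr_fun h2 x
  have h4' : ∀ x, f.f (r x) + s (g.f x) = x := fun x => LinearMap.congr_fun h4 x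
  refine ⟨N'.P ∘ₗ r ∘ₗ N.P + (LinearMap.id - N'.P) ∘ₗ r ∘ₗ (LinearMap.id - N.P),
    N.P ∘ₗ s ∘ₗ N''.P + (LinearMap.id - N.P) ∘ₗ s ∘ₗ (LinearMap.id - N''.P), ?_, ?_, h3, ?_,
    fun x => ?_, fun x => ?_⟩
  · ext x
    change N'.P (r (N.P (f.f x))) + (r (f.f x - N.P (f.f x)) -
      N'.P (r (f.f x - N.P (f.f x)))) = x
    have e1 : f.f x - N.P (f.f x) = f.f (x - N'.P x) := by rw [map_sub, f.P]
    rw [e1, ← f.P, h1', h1', N'.PP, map_sub, N'.PP]
    abel
  · ext x
    change g.f (N.P (s (N''.P x)) + (s (x - N''.P x) - N.P (s (x - N''.P x)))) = x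
    rw [map_add, map_sub, g.P, g.P, h2', h2', N''.PP, map_sub N''.P, N''.PP]
    abel
  · ext x
    have e1 := h4' (N.P x)
    have e2 := h4' (x - N.P x)
    have e4 := congrArg N.P e1
    have e5 := congrArg N.P e2
    rw [map_add, N.PP] at e4
    rw [map_add, map_sub N.P x, N.PP, sub_self] at e5
    change f.f (N'.P (r (N.P x)) + (r (x - N.P x) - N'.P (r (x - N.P x)))) +
      (N.P (s (N''.P (g.f x))) + (s (g.f x - N''.P (g.f x)) -
        N.P (s (g.f x - N''.P (g.f x))))) = x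
    have e6 : g.f x - N''.P (g.f x) = g.f (x - N.P x) := by rw [map_sub, g.P]
    rw [e6, map_add, map_sub f.f, f.P, f.P, ← g.P]
    calc _ = (N.P (f.f (r (N.P x))) + N.P (s (g.f (N.P x)))) +
          (f.f (r (x - N.P x)) + s (g.f (x - N.P x))) -
          (N.P (f.f (r (x - N.P x))) + N.P (s (g.f (x - N.P x)))) := by abel
      _ = x := by rw [e4, e2, e5]; abel
  · simp only [LinearMap.comp_apply, LinearMap.add_apply, LinearMap.sub_apply,
      LinearMap.id_apply, SD.E_apply, map_add, map_sub, N'.PP, N.PP]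
    abel
  · simp only [LinearMap.comp_apply, LinearMap.add_apply, LinearMap.sub_apply,
      LinearMap.id_apply, SD.E_apply, map_add, map_sub, N''.PP, N.PP]
    abel

theorem exists_spl (f : BMod.Hom N' N) (g : BMod.Hom N N'') (h : SD.SES f.toHom g.toHom) :
    Nonempty (Spl (B5 N') (B5 N) (B5 N'')) := by
  obtain ⟨r, s, h1, h2, h3, h4, h5, h6⟩ := split_even h
  refine ⟨⟨B5map f, B5map g, T5 r, T5 s, Bil.T5 h5, Bil.T5 h6, fun x => ?_, fun x => ?_,
    fun x => ?_, fun x => ?_⟩⟩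
  · rw [B5map_f, T5_T5, h1, T5_id]
  · rw [B5map_f, T5_T5, h2, T5_id]
  · rw [B5map_f, B5map_f, T5_T5, h3, T5_zero]
  · rw [B5map_f, B5map_f, T5_T5, T5_T5, ← T5_add, h4, T5_id]

/-- homotopy retracts -/
theorem Q.b5_ret {X Y : BMod A A} (H : HRet X Y) (hQ : Q F (B5 Y)) : Q F (B5 X) := by
  obtain ⟨H'⟩ := BMod.bar_ret H (BMod.diag A)
  exact Q.hret (barR_ret (BMod.diag A) H') hQ

theorem Q.barR_iso (N : BMod A A) (f : BMod.Hom M M') (g : BMod.Hom M' M)
    (gf : ∀ x, g.f (f.f x) = x) (hQ : Q F (BMod.bar N M')) : Q F (BMod.bar N M) :=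
  Q.hret (barR_ret N ⟨f, g, 0, fun a x => by simp, fun x a => by simp,
    fun x => by simp [gf]⟩) hQ

/-! ### shifts -/

/-- shift in the first variable -/
def shL (X M : BMod A A) : BMod.Hom (BMod.bar X.sh M) (BMod.bar X M).sh where
  toHom := barShL X.b.r M.b.l
  isHom := barShL_isHom X.b M.b

/-- the inverse -/
def shL' (X M : BMod A A) : BMod.Hom (BMod.bar X M).sh (BMod.bar X.sh M) :=
  invHom (shL X M) LinearMap.id (fun _ => rfl) (fun _ => rfl)

/-- shift in the second variable -/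
def shR (X M : BMod A A) : BMod.Hom (BMod.bar X M).sh (BMod.bar X M.sh) where
  toHom := barShR X.b.r M.b.l
  isHom := barShR_isHom X.b M.b

theorem shR_TO (X M : BMod A A) (x : (BMod.bar X M).N.V) :
    BM.TO X.N A (LinearMap.id : M.N.V →ₗ[k] M.N.V)
      (BM.TO X.N A (LinearMap.id : M.N.V →ₗ[k] M.N.V) x) = x :=
  (BM.TO_TO X.N A _ _ x).trans (BM.TT_id X.N A x)

/-- the inverse -/
def shR' (X M : BMod A A) : BMod.Hom (BMod.bar X M.sh) (BMod.bar X M).sh :=
  invHom (shR X M) (BM.TO X.N A (LinearMap.id : M.N.V →ₗ[k] M.N.V)) (shR_TO X M) (shR_TO X M)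

/-- the double shift -/
def unsh (Y : BMod A A) : BMod.Hom Y Y.sh.sh where
  f := LinearMap.id
  D := fun v => (neg_neg (Y.N.D v)).symm
  P := fun v => (sub_sub_cancel v (Y.N.P v)).symm
  isHom := ⟨fun a n => by
      change Y.b.l.act a n = Y.b.l.act (A.E (A.E a)) n
      rw [A.EE], fun _ _ => rfl⟩

theorem Q.unsh {Y : BMod A A} (hQ : Q F Y.sh) : Q F Y :=
  Q.iso (PQ.unsh Y) (invHom (PQ.unsh Y) LinearMap.id (fun _ => rfl) (fun _ => rfl))
    (fun _ => rfl) hQ.sh

theorem shL_gf (X M : BMod A A) (x : (BMod.bar X.sh M).N.V) :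
    (shL' X M).f ((shL X M).f x) = x := invHom_gf _ _ _ _ x
theorem shL_fg (X M : BMod A A) (x : (BMod.bar X M).sh.N.V) :
    (shL X M).f ((shL' X M).f x) = x := invHom_fg _ _ _ _ x
theorem shR_gf (X M : BMod A A) (x : (BMod.bar X M).sh.N.V) :
    (shR' X M).f ((shR X M).f x) = x := invHom_gf _ _ _ _ x
theorem shR_fg (X M : BMod A A) (x : (BMod.bar X M.sh).N.V) :
    (shR X M).f ((shR' X M).f x) = x := invHom_fg _ _ _ _ x

theorem Q.b5_sh {X : BMod A A} (hQ : Q F (B5 X)) : Q F (B5 X.sh) := by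
  have h1 : Q F (BMod.bar (BMod.diag A) (BMod.bar X (BMod.diag A))).sh := Q.sh hQ
  have h2 := Q.iso _ _ (shR_fg (BMod.diag A) (BMod.bar X (BMod.diag A))) h1
  exact Q.barR_iso (BMod.diag A) _ _ (shL_gf X (BMod.diag A)) h2

theorem Q.b5_unsh {X : BMod A A} (hQ : Q F (B5 X.sh)) : Q F (B5 X) := by
  have h1 : Q F (BMod.bar (BMod.diag A) (BMod.bar X.sh (BMod.diag A))) := hQ
  have h2 := Q.barR_iso (BMod.diag A) _ _ (shL_fg X (BMod.diag A)) h1
  have h3 := Q.iso _ _ (shR_gf (BMod.diag A) (BMod.bar X (BMod.diag A))) h2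
  exact Q.unsh h3

/-! ### cones -/

/-- the cone of a morphism of bimodules -/
def coneB {X Y : BMod A A} (f : BMod.Hom X Y) : BMod A A where
  N := cone f.toHom
  b := coneBi f.isHom
  one_l := fun v => by
    change (Y.b.l.act 1 v.1, X.b.l.act (A.E 1) v.2) = v
    rw [A.E_one, X.one_l, Y.one_l]
  r_one := fun v => by
    change (Y.b.r.act v.1 1, X.b.r.act v.2 1) = v
    rw [X.r_one, Y.r_one]

/-- the inclusion of the target -/
def coneIn {X Y : BMod A A} (f : BMod.Hom X Y) : BMod.Hom Y (coneB f) where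
  f := LinearMap.inl k Y.N.V X.N.V
  D := fun v => by
    change (Y.N.D v, (0 : X.N.V)) = (Y.N.D v + f.f 0, -(X.N.D 0))
    rw [map_zero, map_zero, neg_zero, add_zero]
  P := fun v => by
    change (Y.N.P v, (0 : X.N.V)) = (Y.N.P v, 0 - X.N.P 0)
    rw [map_zero, sub_zero]
  isHom := ⟨fun a n => by
      change (Y.b.l.act a n, (0 : X.N.V)) = (Y.b.l.act a n, X.b.l.act (A.E a) 0)
      rw [map_zero], fun n a => by
      change (Y.b.r.act n a, (0 : X.N.V)) = (Y.b.r.act n a, X.b.r.act 0 a)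
      rw [map_zero, LinearMap.zero_apply]⟩

/-- the projection to the shifted source -/
def coneOut {X Y : BMod A A} (f : BMod.Hom X Y) : BMod.Hom (coneB f) X.sh where
  f := LinearMap.snd k Y.N.V X.N.V
  D := fun v => rfl
  P := fun v => rfl
  isHom := ⟨fun a n => rfl, fun n a => rfl⟩

theorem cone_ses {X Y : BMod A A} (f : BMod.Hom X Y) :
    SD.SES (coneIn f).toHom (coneOut f).toHom where
  inj := fun x hx => congrArg Prod.fst hx
  surj := fun z => ⟨(0, z), rfl⟩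
  zero := fun x => rfl
  exact := fun y hy => ⟨y.1, Prod.ext rfl (Eq.symm hy)⟩

/-! ### the free bimodule -/

theorem iotaL_hd {R S : DGA k} {X : SD k} (a : LA S X) (σ : SD.Hom X (X.tens R.toSD))
    (h : a.IsHom (a.tensL R.toSD) σ) (s : S.V) (w : Wd k X.V R.V) :
    iotaL (R := R) σ.f (hd R a s w) = hd R a (S.E s) (iotaL (R := R) σ.f w) := by
  induction w using Wd.induction with
  | hadd a b ha hb => simp only [map_add, ha, hb]
  | hnil x =>
    rw [hd_nil, iotaL_nil, iotaL_nil, h s x]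
    have h1 : ∀ t : X.V ⊗[k] R.V, snocN X R ((a.tensL R.toSD).act s t) =
        hd R a (S.E s) (snocN X R t) := by
      intro t
      refine tens_ext (f := snocN X R ∘ₗ (a.tensL R.toSD).act s)
        (g := hd R a (S.E s) ∘ₗ snocN X R) (fun x r => ?_) t
      change Wd.snoc (Wd.nil (X.E (a.act s x))) r = hd R a (S.E s) (Wd.snoc (Wd.nil (X.E x)) r)
      rw [hd_snoc, hd_nil, a.E_act]
    exact h1 _
  | hsnoc w hw r => rw [hd_snoc, iotaL_snoc, iotaL_snoc, hd_snoc, hw]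

/-- the section of the right action of `V ⊗ R` -/
def secVL (R : DGA k) (V : SD k) : SD.Hom (V.tens R.toSD) ((V.tens R.toSD).tens R.toSD) :=
  (unitR R V).tens (SD.Hom.id R.toSD)

/-- the section of the left action of `R ⊗ V` -/
def secVR (R : DGA k) (V : SD k) : SD.Hom (R.toSD.tens V) (R.toSD.tens (R.toSD.tens V)) :=
  (SD.Hom.id R.toSD).tens (unitL R V)

/-- the inclusion `V ⊗ Y → Bar(V ⊗ R, R, Y)` -/
def inVL {R : DGA k} {Y : SD k} (V : SD k) (l : LA R Y) :
    SD.Hom (V.tens Y) (Bar (R.diag.r.tensR V) l) :=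
  (nilB (R.diag.r.tensR V) l).comp ((unitR R V).tens (SD.Hom.id Y))

/-- the inclusion `X ⊗ V → Bar(X, R, R ⊗ V)` -/
def inVR {R : DGA k} {X : SD k} (ρ : RA R X) (V : SD k) :
    SD.Hom (X.tens V) (Bar ρ (R.diag.l.tensL V)) :=
  (nilB ρ (R.diag.l.tensL V)).comp ((SD.Hom.id X).tens (unitL R V))

theorem htpyVL {R : DGA k} {Y : SD k} (V : SD k) (l : LA R Y)
    (v : Wd k (V.V ⊗[k] R.V) R.V ⊗[k] Y.V) :
    barD (R.diag.r.tensR V) l (TensorProduct.map (iotaL (X := V.tens R.toSD) (R := R)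
        (secVL R V).f) LinearMap.id v) +
      TensorProduct.map (iotaL (X := V.tens R.toSD) (R := R) (secVL R V).f) LinearMap.id
        (barD (R.diag.r.tensR V) l v) = v - (inVL V l).f ((augVL V l).f v) := by
  refine htpyL (R.diag.r.tensR V) l (actVL V l) (secVL R V) (fun x r => ?_) (fun x => ?_)
    (inVL V l) (fun x y => ?_) v
  · refine tens_ext (f := ((unitR R V).tens (SD.Hom.id R.toSD)).f ∘ₗ
        (R.diag.r.tensR V).act.flip r)
      (g := (R.diag.r.tensR (V.tens R.toSD)).act.flip r ∘ₗ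
        ((unitR R V).tens (SD.Hom.id R.toSD)).f) (fun v s => rfl) x
  · refine tens_ext (f := (actR (R.diag.r.tensR V)).f ∘ₗ
        ((unitR R V).tens (SD.Hom.id R.toSD)).f) (g := LinearMap.id) (fun v s => ?_) x
    change v ⊗ₜ[k] ((1 : R.V) * s) = v ⊗ₜ[k] s
    rw [one_mul]
  · refine tens_ext (f := (nilB (R.diag.r.tensR V) l).f ∘ₗ
        ((unitR R V).tens (SD.Hom.id Y)).f ∘ₗ (actVL V l).f ∘ₗ
          (TensorProduct.mk k (V.V ⊗[k] R.V) Y.V).flip y)
      (g := lam (X := V.tens R.toSD) l ∘ₗ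
        (TensorProduct.mk k (Wd k (V.V ⊗[k] R.V) R.V) Y.V).flip y ∘ₗ
          snocN (V.tens R.toSD) R ∘ₗ ((unitR R V).tens (SD.Hom.id R.toSD)).f)
      (fun v s => ?_) x
    change Wd.nil (v ⊗ₜ[k] (1 : R.V)) ⊗ₜ[k] l.act s y =
      lam (X := V.tens R.toSD) l
        (Wd.snoc (Wd.nil ((V.tens R.toSD).E (v ⊗ₜ[k] (1 : R.V)))) s ⊗ₜ y)
    rw [lam_snoc, EW_nil, (V.tens R.toSD).EE]

theorem htpyVR {R : DGA k} {X : SD k} (ρ : RA R X) (V : SD k)
    (v : Wd k X.V R.V ⊗[k] (R.V ⊗[k] V.V)) :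
    barD ρ (R.diag.l.tensL V) (secS (Y := R.toSD.tens V) X (secVR R V).f v) +
      secS (Y := R.toSD.tens V) X (secVR R V).f (barD ρ (R.diag.l.tensL V) v) =
        v - (inVR ρ V).f ((augVR ρ V).f v) := by
  refine htpyR ρ (R.diag.l.tensL V) (actVR ρ V) (secVR R V) (fun x r => ?_) (fun x => ?_)
    (inVR ρ V) (fun x y => ?_) v
  · refine tens_ext (f := ((SD.Hom.id R.toSD).tens (unitL R V)).f ∘ₗ
        (R.diag.l.tensL V).act x)
      (g := (R.diag.l.tensL (R.toSD.tens V)).act x ∘ₗ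
        ((SD.Hom.id R.toSD).tens (unitL R V)).f) (fun v s => rfl) r
  · refine tens_ext (f := (actL (R.diag.l.tensL V)).f ∘ₗ
        ((SD.Hom.id R.toSD).tens (unitL R V)).f) (g := LinearMap.id) (fun s v => ?_) x
    change (s * (1 : R.V)) ⊗ₜ[k] v = s ⊗ₜ[k] v
    rw [mul_one]
  · refine tens_ext (f := (nilB ρ (R.diag.l.tensL V)).f ∘ₗ
        ((SD.Hom.id X).tens (unitL R V)).f ∘ₗ (actVR ρ V).f ∘ₗ
          TensorProduct.mk k X.V (R.V ⊗[k] V.V) x)
      (g := LinearMap.rTensor (R.V ⊗[k] V.V) (tl R ρ.act (Wd.nil x)) ∘ₗ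
        ((SD.Hom.id R.toSD).tens (unitL R V)).f)
      (fun s v => ?_) y
    change Wd.nil (ρ.act x s) ⊗ₜ[k] ((1 : R.V) ⊗ₜ[k] v) =
      tl R ρ.act (Wd.nil x) s ⊗ₜ[k] ((1 : R.V) ⊗ₜ[k] v)
    rw [tl_nil]

theorem inVL_isHom {R S T : DGA k} {V Y : SD k} (a : LA S V) (b : Bi R T Y) :
    (Bi.tensLR a b.r).IsHom (Bi.bar (Bi.tensLR a R.diag.r) b) (inVL V b.l) where
  l := fun s n => by
    refine tens_ext (f := (inVL V b.l).f ∘ₗ (a.tensL Y).act s)
      (g := LinearMap.rTensorHom Y.V (hd R (a.tensL R.toSD) s) ∘ₗ (inVL V b.l).f)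
      (fun x y => ?_) n
    change Wd.nil (a.act s x ⊗ₜ[k] (1 : R.V)) ⊗ₜ[k] y =
      hd R (a.tensL R.toSD) s (Wd.nil (x ⊗ₜ[k] (1 : R.V))) ⊗ₜ[k] y
    rw [hd_nil]
    rfl
  r := fun n t => by
    refine tens_ext (f := (inVL V b.l).f ∘ₗ (b.r.tensR V).act.flip t)
      (g := LinearMap.lTensorHom (Wd k (V.V ⊗[k] R.V) R.V) (b.r.act.flip t) ∘ₗ
        (inVL V b.l).f) (fun x y => rfl) n

theorem inVR_isHom {R S T : DGA k} {X V : SD k} (b : Bi S R X) (c : RA T V) :
    (Bi.tensLR b.l c).IsHom (Bi.bar b (Bi.tensLR R.diag.l c)) (inVR b.r V) where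
  l := fun s n => by
    refine tens_ext (f := (inVR b.r V).f ∘ₗ (b.l.tensL V).act s)
      (g := LinearMap.rTensorHom (R.V ⊗[k] V.V) (hd R b.l s) ∘ₗ (inVR b.r V).f)
      (fun x y => ?_) n
    change Wd.nil (b.l.act s x) ⊗ₜ[k] ((1 : R.V) ⊗ₜ[k] y) =
      hd R b.l s (Wd.nil x) ⊗ₜ[k] ((1 : R.V) ⊗ₜ[k] y)
    rw [hd_nil]
  r := fun n t => by
    refine tens_ext (f := (inVR b.r V).f ∘ₗ (c.tensR X).act.flip t)
      (g := LinearMap.lTensorHom (Wd k X.V R.V) ((c.tensR R.toSD).act.flip t) ∘ₗ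
        (inVR b.r V).f) (fun x y => rfl) n

theorem secS_hd {R S : DGA k} {X Y : SD k} (a : LA S X) (σ : Y.V →ₗ[k] R.V ⊗[k] Y.V)
    (s : S.V) (w : Wd k X.V R.V) (y : Y.V) :
    secS X σ (hd R a s w ⊗ₜ y) =
      LinearMap.rTensorHom Y.V (hd R a (S.E s)) (secS X σ (w ⊗ₜ y)) := by
  rw [secS_tmul, secS_tmul, hd_EW, map_neg]
  refine congrArg (fun z => -z) ?_
  refine tens_ext (f := LinearMap.rTensor Y.V (Wd.snoc (hd R a (S.E s) (EW X R.toSD w))))
    (g := LinearMap.rTensorHom Y.V (hd R a (S.E s)) ∘ₗ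
      LinearMap.rTensor Y.V (Wd.snoc (EW X R.toSD w))) (fun r z => ?_) (σ y)
  change Wd.snoc (hd R a (S.E s) (EW X R.toSD w)) r ⊗ₜ[k] z =
    hd R a (S.E s) (Wd.snoc (EW X R.toSD w) r) ⊗ₜ[k] z
  rw [hd_snoc]

theorem secS_right {R T : DGA k} {X V : SD k} (c : RA T V) (t : T.V) (w : Wd k X.V R.V)
    (y : R.V ⊗[k] V.V) :
    secS (Y := R.toSD.tens V) X (secVR R V).f (w ⊗ₜ[k] (c.tensR R.toSD).act y t) =
      LinearMap.lTensorHom (Wd k X.V R.V) ((c.tensR R.toSD).act.flip t)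
        (secS (Y := R.toSD.tens V) X (secVR R V).f (w ⊗ₜ[k] y)) := by
  rw [secS_tmul, secS_tmul, map_neg]
  refine congrArg (fun z => -z) ?_
  refine tens_ext (f := LinearMap.rTensor (R.V ⊗[k] V.V) (Wd.snoc (EW X R.toSD w)) ∘ₗ
      (secVR R V).f ∘ₗ (c.tensR R.toSD).act.flip t)
    (g := LinearMap.lTensorHom (Wd k X.V R.V) ((c.tensR R.toSD).act.flip t) ∘ₗ
      LinearMap.rTensor (R.V ⊗[k] V.V) (Wd.snoc (EW X R.toSD w)) ∘ₗ (secVR R V).f)
    (fun r z => rfl) y

/-- `Bar(A ⊗ A, A, A)` is a homotopy retract of `A ⊗ A` -/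
def freeL (A : DGA k) : HRet (BMod.bar (BMod.free A A) (BMod.diag A)) (BMod.free A A) where
  s := { toHom := augVL A.toSD A.diag.l
         isHom := augVL_isHom A.diag.l A.diag }
  r := { toHom := inVL A.toSD A.diag.l
         isHom := inVL_isHom A.diag.l A.diag }
  h := -(TensorProduct.map (iotaL (X := A.toSD.tens A.toSD) (R := A)
    (secVL A A.toSD).f) LinearMap.id)
  hl := fun a v => by
    refine tens_ext (f := -(TensorProduct.map (iotaL (X := A.toSD.tens A.toSD) (R := A)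
          (secVL A A.toSD).f) LinearMap.id) ∘ₗ
        LinearMap.rTensorHom A.V (hd A (A.diag.l.tensL A.toSD) a))
      (g := LinearMap.rTensorHom A.V (hd A (A.diag.l.tensL A.toSD) (A.E a)) ∘ₗ
        (-(TensorProduct.map (iotaL (X := A.toSD.tens A.toSD) (R := A)
          (secVL A A.toSD).f) LinearMap.id))) (fun w y => ?_) v
    have h1 := iotaL_hd (A.diag.l.tensL A.toSD) (secVL A A.toSD) (fun s n => by
      refine tens_ext (f := (secVL A A.toSD).f ∘ₗ (A.diag.l.tensL A.toSD).act s)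
        (g := ((A.diag.l.tensL A.toSD).tensL A.toSD).act s ∘ₗ (secVL A A.toSD).f)
        (fun x y => rfl) n) a w
    simp only [LinearMap.comp_apply, LinearMap.neg_apply, map_neg]
    exact congrArg (fun z => -(z ⊗ₜ[k] y)) h1
  hr := fun v a => by
    refine tens_ext (f := -(TensorProduct.map (iotaL (X := A.toSD.tens A.toSD) (R := A)
          (secVL A A.toSD).f) LinearMap.id) ∘ₗ
        LinearMap.lTensorHom (Wd k (A.V ⊗[k] A.V) A.V) (A.diag.r.act.flip a))
      (g := LinearMap.lTensorHom (Wd k (A.V ⊗[k] A.V) A.V) (A.diag.r.act.flip a) ∘ₗ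
        (-(TensorProduct.map (iotaL (X := A.toSD.tens A.toSD) (R := A)
          (secVL A A.toSD).f) LinearMap.id))) (fun w y => ?_) v
    simp only [LinearMap.comp_apply, LinearMap.neg_apply, map_neg]
    rfl
  eq := fun (v : Wd k (A.V ⊗[k] A.V) A.V ⊗[k] A.V) => by
    have h1 := htpyVL A.toSD A.diag.l v
    have h2 : (inVL A.toSD A.diag.l).f ((augVL A.toSD A.diag.l).f v) =
        v + barD (A.diag.r.tensR A.toSD) A.diag.l (-(TensorProduct.map
          (iotaL (X := A.toSD.tens A.toSD) (R := A) (secVL A A.toSD).f) LinearMap.id v)) +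
        -(TensorProduct.map (iotaL (X := A.toSD.tens A.toSD) (R := A) (secVL A A.toSD).f)
          LinearMap.id (barD (A.diag.r.tensR A.toSD) A.diag.l v)) := by
      rw [map_neg, add_assoc, ← neg_add, h1]
      abel
    exact h2

/-- `Bar(A, A, A ⊗ A)` is a homotopy retract of `A ⊗ A` -/
def freeR (A : DGA k) : HRet (BMod.bar (BMod.diag A) (BMod.free A A)) (BMod.free A A) where
  s := { toHom := augVR A.diag.r A.toSD
         isHom := augVR_isHom A.diag A.diag.r }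
  r := { toHom := inVR A.diag.r A.toSD
         isHom := inVR_isHom A.diag A.diag.r }
  h := -(secS (Y := A.toSD.tens A.toSD) A.toSD (secVR A A.toSD).f)
  hl := fun a v => by
    refine tens_ext (f := -(secS (Y := A.toSD.tens A.toSD) A.toSD (secVR A A.toSD).f) ∘ₗ
        LinearMap.rTensorHom (A.V ⊗[k] A.V) (hd A A.diag.l a))
      (g := LinearMap.rTensorHom (A.V ⊗[k] A.V) (hd A A.diag.l (A.E a)) ∘ₗ
        (-(secS (Y := A.toSD.tens A.toSD) A.toSD (secVR A A.toSD).f))) (fun w y => ?_) v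
    simp only [LinearMap.comp_apply, LinearMap.neg_apply, map_neg]
    exact congrArg (fun z => -z) (secS_hd (Y := A.toSD.tens A.toSD) A.diag.l
      (secVR A A.toSD).f a w y)
  hr := fun v a => by
    refine tens_ext (f := -(secS (Y := A.toSD.tens A.toSD) A.toSD (secVR A A.toSD).f) ∘ₗ
        LinearMap.lTensorHom (Wd k A.V A.V) ((A.diag.r.tensR A.toSD).act.flip a))
      (g := LinearMap.lTensorHom (Wd k A.V A.V) ((A.diag.r.tensR A.toSD).act.flip a) ∘ₗ
        (-(secS (Y := A.toSD.tens A.toSD) A.toSD (secVR A A.toSD).f))) (fun w y => ?_) v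
    simp only [LinearMap.comp_apply, LinearMap.neg_apply, map_neg]
    exact congrArg (fun z => -z) (secS_right A.diag.r a w y)
  eq := fun (v : Wd k A.V A.V ⊗[k] (A.V ⊗[k] A.V)) => by
    have h1 := htpyVR A.diag.r A.toSD v
    have h2 : (inVR A.diag.r A.toSD).f ((augVR A.diag.r A.toSD).f v) =
        v + barD A.diag.r (A.diag.l.tensL A.toSD)
          (-(secS (Y := A.toSD.tens A.toSD) A.toSD (secVR A A.toSD).f v)) +
        -(secS (Y := A.toSD.tens A.toSD) A.toSD (secVR A A.toSD).f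
          (barD A.diag.r (A.diag.l.tensL A.toSD) v)) := by
      rw [map_neg, add_assoc, ← neg_add, h1]
      abel
    exact h2

theorem Q.b5_free : Q F (B5 (BMod.free A A)) :=
  Q.hret (barR_ret (BMod.diag A) (freeL A)) (Q.hret (freeR A) (Q.free F))

/-- **the two sided bar resolution of a perfect bimodule has the property `Q`** -/
theorem Q_of_PF (F : BMod A A) {N : BMod A A} (h : PF A N) : Q F (B5 N) := by
  have cone1 : ∀ {X Y : BMod A A} (f : BMod.Hom X Y), f.toHom.QI → Q F (B5 X) →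
      Q F (B5 Y) := by
    intro X Y f hf h
    have hc : Q F (B5 (coneB f)) := Q.acyclic F ((qi_iff_cone f.toHom).1 hf)
    obtain ⟨S⟩ := exists_spl (coneIn f) (coneOut f) (cone_ses f)
    exact Q.left S hc (Q.b5_sh h)
  have cone2 : ∀ {X Y : BMod A A} (f : BMod.Hom X Y), f.toHom.QI → Q F (B5 Y) →
      Q F (B5 X) := by
    intro X Y f hf h
    have hc : Q F (B5 (coneB f)) := Q.acyclic F ((qi_iff_cone f.toHom).1 hf)
    obtain ⟨S⟩ := exists_spl (coneIn f) (coneOut f) (cone_ses f)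
    exact Q.b5_unsh (Q.right S h hc)
  induction h with
  | free => exact Q.b5_free
  | sh _ ih => exact Q.b5_sh ih
  | qi f hf _ ih => exact cone1 f hf ih
  | qi' f hf _ ih => exact cone2 f hf ih
  | ses1 f g h _ _ ih' ih =>
    obtain ⟨S⟩ := exists_spl f g h
    exact Q.right S ih' ih
  | ses2 f g h _ _ ih' ih'' =>
    obtain ⟨S⟩ := exists_spl f g h
    exact Q.mid S ih' ih''
  | ses3 f g h _ _ ih ih'' =>
    obtain ⟨S⟩ := exists_spl f g h
    exact Q.left S ih ih''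
  | retr h _ ih => exact Q.b5_ret h ih

end PQ

end NC
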