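import Pool.Agent.H28.NC.PFinB

/-!
# PFin, part C: `Bar(A, A, A)` is a homotopy retract of `B5 A`

`cut` cuts a word in all possible ways; `cutHom : Bar(A, A, A) → Bar(A, A, Bar(A, A, A))`.
-/

set_option autoImplicit false

open scoped TensorProduct

noncomputable section

namespace NC

variable {k : Type} [Field k]

namespace PQ

section

variable (A : DGA k)

/-- append a letter to the second word -/
def appR : (Wd k A.V A.V ⊗[k] Wd k A.V A.V) →ₗ[k] A.V →ₗ[k]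
    (Wd k A.V A.V ⊗[k] Wd k A.V A.V) :=
  (LinearMap.lTensorHom (Wd k A.V A.V) ∘ₗ (Wd.snoc (k := k) (N := A.V) (R := A.V)).flip).flip

theorem appR_tmul (w u : Wd k A.V A.V) (r : A.V) :
    appR A (w ⊗ₜ u) r = w ⊗ₜ Wd.snoc u r := rfl

/-- all cuts of a word -/
def cut : Wd k A.V A.V →ₗ[k] Wd k A.V A.V ⊗[k] Wd k A.V A.V :=
  Wd.recW ((TensorProduct.mk k (Wd k A.V A.V) (Wd k A.V A.V)).flip (Wd.nil 1) ∘ₗ Wd.nil)
    (Wd.snoc.compr₂ ((TensorProduct.mk k (Wd k A.V A.V) (Wd k A.V A.V)).flip (Wd.nil 1)))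
    (appR A)

theorem cut_nil (a : A.V) : cut A (Wd.nil a) = Wd.nil a ⊗ₜ Wd.nil 1 := by
  simp [cut]

theorem cut_snoc (w : Wd k A.V A.V) (r : A.V) :
    cut A (Wd.snoc w r) = Wd.snoc w r ⊗ₜ Wd.nil 1 + appR A (cut A w) r := by
  simp [cut]

/-- the left action on the second word -/
def lam2 : Wd k A.V A.V ⊗[k] Wd k A.V A.V →ₗ[k] Wd k A.V A.V ⊗[k] Wd k A.V A.V :=
  lam (X := A.toSD) (Y := words A.diag.r) (A.diag.l.words A.diag.r A.diag.lr)

theorem lam2_nil (a : A.V) (u : Wd k A.V A.V) : lam2 A (Wd.nil a ⊗ₜ u) = 0 :=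
  lam_nil _ a u

theorem lam2_snoc (w : Wd k A.V A.V) (r : A.V) (u : Wd k A.V A.V) :
    lam2 A (Wd.snoc w r ⊗ₜ u) = EW A.toSD A.toSD w ⊗ₜ hd A A.diag.l r u :=
  lam_snoc (X := A.toSD) (Y := words A.diag.r) (A.diag.l.words A.diag.r A.diag.lr) w r u

theorem cut_E (w : Wd k A.V A.V) :
    cut A (EW A.toSD A.toSD w) =
      TensorProduct.map (EW A.toSD A.toSD) (EW A.toSD A.toSD) (cut A w) := by
  induction w using Wd.induction with
  | hadd a b ha hb => simp only [map_add, ha, hb]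
  | hnil a =>
    rw [EW_nil, cut_nil, cut_nil, TensorProduct.map_tmul, EW_nil, EW_nil, A.E_one]
  | hsnoc w hw r =>
    have h1 : ∀ z : Wd k A.V A.V ⊗[k] Wd k A.V A.V,
        TensorProduct.map (EW A.toSD A.toSD) (EW A.toSD A.toSD) (appR A z r) =
          - appR A (TensorProduct.map (EW A.toSD A.toSD) (EW A.toSD A.toSD) z) (A.E r) := by
      intro z
      refine tens_ext (f := TensorProduct.map (EW A.toSD A.toSD) (EW A.toSD A.toSD) ∘ₗ
          (appR A).flip r)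
        (g := -((appR A).flip (A.E r) ∘ₗ
          TensorProduct.map (EW A.toSD A.toSD) (EW A.toSD A.toSD))) (fun u v => ?_) z
      change EW A.toSD A.toSD u ⊗ₜ[k] EW A.toSD A.toSD (Wd.snoc v r) =
        -(EW A.toSD A.toSD u ⊗ₜ[k] Wd.snoc (EW A.toSD A.toSD v) (A.E r))
      rw [EW_snoc, TensorProduct.tmul_neg]
    rw [EW_snoc, map_neg, cut_snoc, cut_snoc, map_add, h1, ← hw, TensorProduct.map_tmul,
      EW_snoc, EW_nil, A.E_one, TensorProduct.neg_tmul]
    abel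

theorem cut_P (w : Wd k A.V A.V) :
    cut A (PW A.toSD A.toSD w) = SD.tP (words A.diag.r) (words A.diag.r) (cut A w) := by
  induction w using Wd.induction with
  | hadd a b ha hb => simp only [map_add, ha, hb]
  | hnil a =>
    have h1 : A.P 1 = 1 := A.P_one
    rw [PW_nil, cut_nil, cut_nil, SD.tP_tmul]
    change _ = PW A.toSD A.toSD (Wd.nil a) ⊗ₜ[k] PW A.toSD A.toSD (Wd.nil 1) +
      (Wd.nil a - PW A.toSD A.toSD (Wd.nil a)) ⊗ₜ[k]
        (Wd.nil 1 - PW A.toSD A.toSD (Wd.nil 1))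
    rw [PW_nil, PW_nil, h1, sub_self, TensorProduct.tmul_zero, add_zero]
  | hsnoc w hw r =>
    have h1 : ∀ z : Wd k A.V A.V ⊗[k] Wd k A.V A.V,
        SD.tP (words A.diag.r) (words A.diag.r) (appR A z r) =
          appR A z (A.P r) - appR A (SD.tP (words A.diag.r) (words A.diag.r) z) (A.E r) := by
      intro z
      refine tens_ext (f := SD.tP (words A.diag.r) (words A.diag.r) ∘ₗ (appR A).flip r)
        (g := (appR A).flip (A.P r) - (appR A).flip (A.E r) ∘ₗ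
          SD.tP (words A.diag.r) (words A.diag.r)) (fun u v => ?_) z
      change PW A.toSD A.toSD u ⊗ₜ[k] PW A.toSD A.toSD (Wd.snoc v r) +
          (u - PW A.toSD A.toSD u) ⊗ₜ[k] (Wd.snoc v r - PW A.toSD A.toSD (Wd.snoc v r)) =
        u ⊗ₜ[k] Wd.snoc v (A.P r) -
          (PW A.toSD A.toSD u ⊗ₜ[k] Wd.snoc (PW A.toSD A.toSD v) (A.E r) +
          (u - PW A.toSD A.toSD u) ⊗ₜ[k] Wd.snoc (v - PW A.toSD A.toSD v) (A.E r))
      simp only [PW_snoc, SD.E_apply, map_add, map_sub, TensorProduct.tmul_add,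
        TensorProduct.tmul_sub, TensorProduct.sub_tmul, LinearMap.sub_apply]
      abel
    rw [PW_snoc, map_sub, cut_snoc, cut_snoc, cut_snoc, map_add, h1, ← hw, SD.tP_tmul]
    change _ = PW A.toSD A.toSD (Wd.snoc w r) ⊗ₜ[k] PW A.toSD A.toSD (Wd.nil 1) +
      (Wd.snoc w r - PW A.toSD A.toSD (Wd.snoc w r)) ⊗ₜ[k]
        (Wd.nil 1 - PW A.toSD A.toSD (Wd.nil 1)) + _
    have h2 : A.P 1 = 1 := A.P_one
    rw [PW_nil, h2, sub_self, TensorProduct.tmul_zero, add_zero, PW_snoc,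
      TensorProduct.sub_tmul]
    abel

theorem cut_tl (w : Wd k A.V A.V) (r : A.V) :
    cut A (tl A A.diag.r.act w r) = tl A A.diag.r.act w r ⊗ₜ Wd.nil 1 +
      LinearMap.lTensor (Wd k A.V A.V) ((tl A A.diag.r.act).flip r) (cut A w) -
        w ⊗ₜ Wd.nil r := by
  induction w using Wd.induction with
  | hadd a b ha hb =>
    simp only [map_add, LinearMap.add_apply, TensorProduct.add_tmul, ha, hb]
    abel
  | hnil a =>
    rw [tl_nil, cut_nil, cut_nil, LinearMap.lTensor_tmul, LinearMap.flip_apply, tl_nil]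
    have h1 : A.diag.r.act 1 r = r := one_mul r
    rw [h1]
    abel
  | hsnoc w hw s =>
    have h1 : LinearMap.lTensor (Wd k A.V A.V) ((tl A A.diag.r.act).flip r)
        (appR A (cut A w) s) = appR A (cut A w) (s * r) := by
      refine tens_ext (f := LinearMap.lTensor (Wd k A.V A.V) ((tl A A.diag.r.act).flip r) ∘ₗ
          (appR A).flip s)
        (g := (appR A).flip (s * r)) (fun u v => ?_) (cut A w)
      change u ⊗ₜ[k] tl A A.diag.r.act (Wd.snoc v s) r = u ⊗ₜ[k] Wd.snoc v (s * r)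
      rw [tl_snoc]
    have h2 : A.diag.r.act 1 r = r := one_mul r
    rw [tl_snoc, cut_snoc, cut_snoc, map_add, h1, LinearMap.lTensor_tmul,
      LinearMap.flip_apply, tl_nil, h2]
    abel

theorem cut_hd (a : A.V) (w : Wd k A.V A.V) :
    cut A (hd A A.diag.l a w) =
      LinearMap.rTensor (Wd k A.V A.V) (hd A A.diag.l a) (cut A w) := by
  induction w using Wd.induction with
  | hadd a b ha hb => simp only [map_add, ha, hb]
  | hnil b => rw [hd_nil, cut_nil, cut_nil, LinearMap.rTensor_tmul, hd_nil]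
  | hsnoc w hw r =>
    have h1 : LinearMap.rTensor (Wd k A.V A.V) (hd A A.diag.l a) (appR A (cut A w) r) =
        appR A (LinearMap.rTensor (Wd k A.V A.V) (hd A A.diag.l a) (cut A w)) r :=
      tens_ext (f := LinearMap.rTensor (Wd k A.V A.V) (hd A A.diag.l a) ∘ₗ (appR A).flip r)
        (g := (appR A).flip r ∘ₗ LinearMap.rTensor (Wd k A.V A.V) (hd A A.diag.l a))
        (fun u v => rfl) (cut A w)
    rw [hd_snoc, cut_snoc, cut_snoc, map_add, h1, ← hw, LinearMap.rTensor_tmul, hd_snoc]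

theorem cut_Db (w : Wd k A.V A.V) :
    cut A (Db A.diag.r w) = SD.tD (words A.diag.r) (words A.diag.r) (cut A w) -
      lam2 A (cut A w) := by
  induction w using Wd.induction with
  | hadd a b ha hb =>
    simp only [map_add, ha, hb]
    abel
  | hnil a =>
    rw [Db_nil, cut_nil, cut_nil, lam2_nil, SD.tD_tmul, sub_zero]
    change _ = Db A.diag.r (Wd.nil a) ⊗ₜ[k] Wd.nil 1 +
      EW A.toSD A.toSD (Wd.nil a) ⊗ₜ[k] Db A.diag.r (Wd.nil 1)
    rw [Db_nil, Db_nil, A.D_one, map_zero, TensorProduct.tmul_zero, add_zero]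
  | hsnoc w hw r =>
    have h1 : SD.tD (words A.diag.r) (words A.diag.r) (appR A (cut A w) r) =
        appR A (SD.tD (words A.diag.r) (words A.diag.r) (cut A w)) r -
          appR A (cut A (EW A.toSD A.toSD w)) (A.D r) +
          LinearMap.lTensor (Wd k A.V A.V) ((tl A A.diag.r.act).flip r)
            (cut A (EW A.toSD A.toSD w)) := by
      rw [cut_E]
      refine tens_ext (f := SD.tD (words A.diag.r) (words A.diag.r) ∘ₗ (appR A).flip r)
        (g := (appR A).flip r ∘ₗ SD.tD (words A.diag.r) (words A.diag.r) -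
          (appR A).flip (A.D r) ∘ₗ TensorProduct.map (EW A.toSD A.toSD) (EW A.toSD A.toSD) +
          LinearMap.lTensor (Wd k A.V A.V) ((tl A A.diag.r.act).flip r) ∘ₗ
            TensorProduct.map (EW A.toSD A.toSD) (EW A.toSD A.toSD)) (fun u v => ?_) (cut A w)
      change Db A.diag.r u ⊗ₜ[k] Wd.snoc v r +
          EW A.toSD A.toSD u ⊗ₜ[k] Db A.diag.r (Wd.snoc v r) =
        Db A.diag.r u ⊗ₜ[k] Wd.snoc v r +
          EW A.toSD A.toSD u ⊗ₜ[k] Wd.snoc (Db A.diag.r v) r -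
        EW A.toSD A.toSD u ⊗ₜ[k] Wd.snoc (EW A.toSD A.toSD v) (A.D r) +
        EW A.toSD A.toSD u ⊗ₜ[k] tl A A.diag.r.act (EW A.toSD A.toSD v) r
      rw [Db_snoc, TensorProduct.tmul_add, TensorProduct.tmul_sub]
      abel
    have h2 : lam2 A (appR A (cut A w) r) = appR A (lam2 A (cut A w)) r := by
      refine tens_ext (f := lam2 A ∘ₗ (appR A).flip r) (g := (appR A).flip r ∘ₗ lam2 A)
        (fun u v => ?_) (cut A w)
      change lam2 A (u ⊗ₜ[k] Wd.snoc v r) = appR A (lam2 A (u ⊗ₜ[k] v)) r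
      induction u using Wd.induction with
      | hadd a b ha hb =>
        simp only [map_add, TensorProduct.add_tmul, ha, hb, LinearMap.add_apply]
      | hnil a => rw [lam2_nil, lam2_nil, map_zero, LinearMap.zero_apply]
      | hsnoc u _ s => rw [lam2_snoc, lam2_snoc, appR_tmul, hd_snoc]
    have h3 : A.diag.l.act r 1 = r := mul_one r
    have h4 : SD.tD (words A.diag.r) (words A.diag.r) (Wd.snoc w r ⊗ₜ[k] Wd.nil 1) =
        Db A.diag.r (Wd.snoc w r) ⊗ₜ[k] Wd.nil 1 := by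
      change Db A.diag.r (Wd.snoc w r) ⊗ₜ[k] Wd.nil 1 +
        EW A.toSD A.toSD (Wd.snoc w r) ⊗ₜ[k] Db A.diag.r (Wd.nil 1) = _
      rw [Db_nil, A.D_one, map_zero, TensorProduct.tmul_zero, add_zero]
    rw [cut_snoc, map_add (SD.tD _ _), map_add (lam2 A), h1, h2, h4, lam2_snoc, hd_nil, h3,
      Db_snoc, map_add, map_sub, cut_snoc, cut_snoc, cut_tl, hw, TensorProduct.add_tmul,
      TensorProduct.sub_tmul, map_sub (appR A), LinearMap.sub_apply]
    abel

/-- `w ⊗ y ↦ cut w ⊗ y` with the brackets moved -/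
def as2 : (Wd k A.V A.V ⊗[k] Wd k A.V A.V) ⊗[k] A.V →ₗ[k]
    Wd k A.V A.V ⊗[k] (Wd k A.V A.V ⊗[k] A.V) :=
  (TensorProduct.assoc k (Wd k A.V A.V) (Wd k A.V A.V) A.V).toLinearMap

theorem as2_tmul (w u : Wd k A.V A.V) (y : A.V) :
    as2 A ((w ⊗ₜ u) ⊗ₜ y) = w ⊗ₜ (u ⊗ₜ y) := rfl

/-- the underlying map of `cutHom` -/
def cutF : Wd k A.V A.V ⊗[k] A.V →ₗ[k] Wd k A.V A.V ⊗[k] (Wd k A.V A.V ⊗[k] A.V) :=
  as2 A ∘ₗ TensorProduct.map (cut A) LinearMap.id

theorem cutF_tmul (w : Wd k A.V A.V) (y : A.V) :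
    cutF A (w ⊗ₜ y) = as2 A (cut A w ⊗ₜ y) := rfl

/-- the bar complex `Bar(A, A, A)` -/
abbrev BW : BMod A A := BMod.bar (BMod.diag A) (BMod.diag A)

/-- its left action -/
abbrev lW : LA A (Bar A.diag.r A.diag.l) := (A.diag.bar A.diag).l

theorem as2_D (z : Wd k A.V A.V ⊗[k] Wd k A.V A.V) (y : A.V) :
    barD A.diag.r (lW A) (as2 A (z ⊗ₜ y)) =
      as2 A ((SD.tD (words A.diag.r) (words A.diag.r) z - lam2 A z) ⊗ₜ y) +
      as2 A (TensorProduct.map (EW A.toSD A.toSD) (EW A.toSD A.toSD) z ⊗ₜ A.D y) -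
      TensorProduct.map (EW A.toSD A.toSD) (lam (X := A.toSD) A.diag.l) (as2 A (z ⊗ₜ y)) := by
  refine tens_ext (f := barD A.diag.r (lW A) ∘ₗ as2 A ∘ₗ
      (TensorProduct.mk k (Wd k A.V A.V ⊗[k] Wd k A.V A.V) A.V).flip y)
    (g := as2 A ∘ₗ (TensorProduct.mk k (Wd k A.V A.V ⊗[k] Wd k A.V A.V) A.V).flip y ∘ₗ
        (SD.tD (words A.diag.r) (words A.diag.r) - lam2 A) +
      as2 A ∘ₗ (TensorProduct.mk k (Wd k A.V A.V ⊗[k] Wd k A.V A.V) A.V).flip (A.D y) ∘ₗ
        TensorProduct.map (EW A.toSD A.toSD) (EW A.toSD A.toSD) -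
      TensorProduct.map (EW A.toSD A.toSD) (lam (X := A.toSD) A.diag.l) ∘ₗ as2 A ∘ₗ
        (TensorProduct.mk k (Wd k A.V A.V ⊗[k] Wd k A.V A.V) A.V).flip y) (fun w u => ?_) z
  have h1 : as2 A (lam2 A (w ⊗ₜ u) ⊗ₜ y) =
      lam (X := A.toSD) (lW A) (w ⊗ₜ[k] (u ⊗ₜ[k] y)) := by
    induction w using Wd.induction with
    | hadd a b ha hb =>
      rw [TensorProduct.add_tmul, map_add, TensorProduct.add_tmul, map_add, ha, hb,
        TensorProduct.add_tmul, map_add]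
    | hnil a =>
      rw [lam2_nil, TensorProduct.zero_tmul, map_zero]
      exact (lam_nil (X := A.toSD) (lW A) a (u ⊗ₜ[k] y)).symm
    | hsnoc w _ r =>
      rw [lam2_snoc, as2_tmul]
      exact (lam_snoc (X := A.toSD) (lW A) w r (u ⊗ₜ[k] y)).symm
  have h2 : barD A.diag.r (lW A) (w ⊗ₜ[k] (u ⊗ₜ[k] y)) =
      Db A.diag.r w ⊗ₜ[k] (u ⊗ₜ[k] y) + EW A.toSD A.toSD w ⊗ₜ[k]
        (Db A.diag.r u ⊗ₜ[k] y + EW A.toSD A.toSD u ⊗ₜ[k] A.D y -
          lam (X := A.toSD) A.diag.l (u ⊗ₜ[k] y)) -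
      lam (X := A.toSD) (lW A) (w ⊗ₜ[k] (u ⊗ₜ[k] y)) := rfl
  change barD A.diag.r (lW A) (w ⊗ₜ[k] (u ⊗ₜ[k] y)) =
    as2 A ((Db A.diag.r w ⊗ₜ[k] u + EW A.toSD A.toSD w ⊗ₜ[k] Db A.diag.r u -
      lam2 A (w ⊗ₜ u)) ⊗ₜ y) +
    EW A.toSD A.toSD w ⊗ₜ[k] (EW A.toSD A.toSD u ⊗ₜ[k] A.D y) -
    EW A.toSD A.toSD w ⊗ₜ[k] lam (X := A.toSD) A.diag.l (u ⊗ₜ[k] y)
  rw [h2, TensorProduct.sub_tmul, TensorProduct.add_tmul, map_sub, map_add, h1,
    TensorProduct.tmul_sub, TensorProduct.tmul_add, as2_tmul, as2_tmul]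
  abel

theorem cutF_lam (w : Wd k A.V A.V) (y : A.V) :
    cutF A (lam (X := A.toSD) A.diag.l (w ⊗ₜ y)) =
      TensorProduct.map (EW A.toSD A.toSD) (lam (X := A.toSD) A.diag.l)
        (as2 A (cut A w ⊗ₜ y)) := by
  induction w using Wd.induction with
  | hadd a b ha hb => simp only [map_add, TensorProduct.add_tmul, ha, hb]
  | hnil a =>
    rw [lam_nil, map_zero, cut_nil, as2_tmul, TensorProduct.map_tmul, lam_nil,
      TensorProduct.tmul_zero]
  | hsnoc w _ r =>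
    have h1 : TensorProduct.map (EW A.toSD A.toSD) (lam (X := A.toSD) A.diag.l)
        (as2 A (appR A (cut A w) r ⊗ₜ y)) =
        as2 A (TensorProduct.map (EW A.toSD A.toSD) (EW A.toSD A.toSD) (cut A w) ⊗ₜ
          A.diag.l.act r y) := by
      refine tens_ext (f := TensorProduct.map (EW A.toSD A.toSD) (lam (X := A.toSD) A.diag.l) ∘ₗ
          as2 A ∘ₗ (TensorProduct.mk k (Wd k A.V A.V ⊗[k] Wd k A.V A.V) A.V).flip y ∘ₗ
            (appR A).flip r)
        (g := as2 A ∘ₗ (TensorProduct.mk k (Wd k A.V A.V ⊗[k] Wd k A.V A.V) A.V).flip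
          (A.diag.l.act r y) ∘ₗ TensorProduct.map (EW A.toSD A.toSD) (EW A.toSD A.toSD))
        (fun u v => ?_) (cut A w)
      change EW A.toSD A.toSD u ⊗ₜ[k] lam (X := A.toSD) A.diag.l (Wd.snoc v r ⊗ₜ y) =
        EW A.toSD A.toSD u ⊗ₜ[k] (EW A.toSD A.toSD v ⊗ₜ[k] A.diag.l.act r y)
      rw [lam_snoc]
    rw [lam_snoc, cutF_tmul, cut_E, cut_snoc, TensorProduct.add_tmul, map_add, map_add, h1,
      as2_tmul, TensorProduct.map_tmul, lam_nil, TensorProduct.tmul_zero, zero_add]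

theorem cutF_D (v : Wd k A.V A.V ⊗[k] A.V) :
    cutF A (barD A.diag.r A.diag.l v) = barD A.diag.r (lW A) (cutF A v) := by
  refine tens_ext (f := cutF A ∘ₗ barD A.diag.r A.diag.l)
    (g := barD A.diag.r (lW A) ∘ₗ cutF A) (fun w y => ?_) v
  change cutF A (Db A.diag.r w ⊗ₜ[k] y + EW A.toSD A.toSD w ⊗ₜ[k] A.D y -
    lam (X := A.toSD) A.diag.l (w ⊗ₜ y)) = barD A.diag.r (lW A) (as2 A (cut A w ⊗ₜ y))
  rw [as2_D, map_sub, map_add, cutF_lam, cutF_tmul, cutF_tmul, cut_Db, cut_E]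

theorem cutF_P (v : Wd k A.V A.V ⊗[k] A.V) :
    cutF A (barP A.toSD A.toSD A v) = barP A.toSD (Bar A.diag.r A.diag.l) A (cutF A v) := by
  refine tens_ext (f := cutF A ∘ₗ barP A.toSD A.toSD A)
    (g := barP A.toSD (Bar A.diag.r A.diag.l) A ∘ₗ cutF A) (fun w y => ?_) v
  have h1 := (assocS (words A.diag.r) (words A.diag.r) A.toSD).P (cut A w ⊗ₜ[k] y)
  have h2 : barP A.toSD (Bar A.diag.r A.diag.l) A (as2 A (cut A w ⊗ₜ[k] y)) =
      (assocS (words A.diag.r) (words A.diag.r) A.toSD).f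
        (SD.tP ((words A.diag.r).tens (words A.diag.r)) A.toSD (cut A w ⊗ₜ[k] y)) := h1.symm
  change cutF A (PW A.toSD A.toSD w ⊗ₜ[k] A.P y +
    (w - PW A.toSD A.toSD w) ⊗ₜ[k] (y - A.P y)) = barP A.toSD (Bar A.diag.r A.diag.l) A
      (as2 A (cut A w ⊗ₜ[k] y))
  rw [h2, map_add, cutF_tmul, cutF_tmul, map_sub, cut_P, SD.tP_tmul, map_add]
  rfl

/-- the cut map `Bar(A, A, A) → Bar(A, A, Bar(A, A, A))` -/
def cutHom : BMod.Hom (BW A) (BMod.bar (BMod.diag A) (BW A)) where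
  f := cutF A
  D := cutF_D A
  P := cutF_P A
  isHom := ⟨fun a v => by
      refine tens_ext (f := cutF A ∘ₗ LinearMap.rTensorHom A.V (hd A A.diag.l a))
        (g := LinearMap.rTensorHom (Wd k A.V A.V ⊗[k] A.V) (hd A A.diag.l a) ∘ₗ cutF A)
        (fun w y => ?_) v
      change as2 A (cut A (hd A A.diag.l a w) ⊗ₜ y) =
        LinearMap.rTensorHom (Wd k A.V A.V ⊗[k] A.V) (hd A A.diag.l a)
          (as2 A (cut A w ⊗ₜ y))
      rw [cut_hd]
      refine tens_ext (f := as2 A ∘ₗ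
          (TensorProduct.mk k (Wd k A.V A.V ⊗[k] Wd k A.V A.V) A.V).flip y ∘ₗ
            LinearMap.rTensor (Wd k A.V A.V) (hd A A.diag.l a))
        (g := LinearMap.rTensorHom (Wd k A.V A.V ⊗[k] A.V) (hd A A.diag.l a) ∘ₗ as2 A ∘ₗ
          (TensorProduct.mk k (Wd k A.V A.V ⊗[k] Wd k A.V A.V) A.V).flip y)
        (fun u v => rfl) (cut A w), fun v a => by
      refine tens_ext (f := cutF A ∘ₗ
          LinearMap.lTensorHom (Wd k A.V A.V) (A.diag.r.act.flip a))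
        (g := LinearMap.lTensorHom (Wd k A.V A.V)
          ((LinearMap.lTensorHom (Wd k A.V A.V) (A.diag.r.act.flip a))) ∘ₗ cutF A)
        (fun w y => ?_) v
      change as2 A (cut A w ⊗ₜ A.diag.r.act y a) =
        LinearMap.lTensorHom (Wd k A.V A.V)
          ((LinearMap.lTensorHom (Wd k A.V A.V) (A.diag.r.act.flip a)))
          (as2 A (cut A w ⊗ₜ y))
      refine tens_ext (f := as2 A ∘ₗ
          (TensorProduct.mk k (Wd k A.V A.V ⊗[k] Wd k A.V A.V) A.V).flip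
            (A.diag.r.act y a))
        (g := LinearMap.lTensorHom (Wd k A.V A.V)
          ((LinearMap.lTensorHom (Wd k A.V A.V) (A.diag.r.act.flip a))) ∘ₗ as2 A ∘ₗ
          (TensorProduct.mk k (Wd k A.V A.V ⊗[k] Wd k A.V A.V) A.V).flip y)
        (fun u v => rfl) (cut A w)⟩

/-- the augmentation of the outer bar complex -/
def outAug : BMod.Hom (BMod.bar (BMod.diag A) (BW A)) (BW A) where
  toHom := augL (lW A)
  isHom := augL_isHom (A.diag.bar A.diag)

theorem aug_cut (v : Wd k A.V A.V ⊗[k] A.V) : augF (actL (lW A)).f (cutF A v) = v := by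
  refine tens_ext (f := augF (actL (lW A)).f ∘ₗ cutF A) (g := LinearMap.id)
    (fun w y => ?_) v
  change augF (actL (lW A)).f (as2 A (cut A w ⊗ₜ y)) = w ⊗ₜ y
  induction w using Wd.induction with
  | hadd a b ha hb => rw [map_add, TensorProduct.add_tmul, map_add, map_add, ha, hb,
      TensorProduct.add_tmul]
  | hnil a =>
    rw [cut_nil, as2_tmul]
    refine (augF_nil (R := A.V) (actL (lW A)).f a (Wd.nil 1 ⊗ₜ[k] y)).trans ?_
    change hd A A.diag.l a (Wd.nil 1) ⊗ₜ[k] y = _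
    rw [hd_nil]
    exact congrArg (fun z => Wd.nil z ⊗ₜ[k] y) (mul_one a)
  | hsnoc w hw r =>
    have h1 : augF (actL (lW A)).f (as2 A (appR A (cut A w) r ⊗ₜ y)) =
        LinearMap.rTensor A.V ((Wd.snoc (k := k) (N := A.V) (R := A.V)).flip r)
          (augF (actL (lW A)).f (as2 A (cut A w ⊗ₜ y))) := by
      refine tens_ext (f := augF (actL (lW A)).f ∘ₗ as2 A ∘ₗ
          (TensorProduct.mk k (Wd k A.V A.V ⊗[k] Wd k A.V A.V) A.V).flip y ∘ₗ
            (appR A).flip r)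
        (g := LinearMap.rTensor A.V ((Wd.snoc (k := k) (N := A.V) (R := A.V)).flip r) ∘ₗ
          augF (actL (lW A)).f ∘ₗ as2 A ∘ₗ
          (TensorProduct.mk k (Wd k A.V A.V ⊗[k] Wd k A.V A.V) A.V).flip y)
        (fun u v => ?_) (cut A w)
      change augF (actL (lW A)).f (u ⊗ₜ[k] (Wd.snoc v r ⊗ₜ[k] y)) =
        LinearMap.rTensor A.V ((Wd.snoc (k := k) (N := A.V) (R := A.V)).flip r)
          (augF (actL (lW A)).f (u ⊗ₜ[k] (v ⊗ₜ[k] y)))
      induction u using Wd.induction with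
      | hadd a b ha hb => rw [TensorProduct.add_tmul, TensorProduct.add_tmul, map_add, map_add,
          map_add, ha, hb]
      | hnil a =>
        have e1 : ∀ z : Wd k A.V A.V ⊗[k] A.V,
            augF (actL (lW A)).f (Wd.nil (R := A.V) a ⊗ₜ[k] z) =
              (lW A).act a z := fun z => augF_nil (R := A.V) (actL (lW A)).f a z
        rw [e1, e1]
        change hd A A.diag.l a (Wd.snoc v r) ⊗ₜ[k] y =
          Wd.snoc (hd A A.diag.l a v) r ⊗ₜ[k] y
        rw [hd_snoc]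
      | hsnoc u _ s =>
        have e1 : ∀ z : Wd k A.V A.V ⊗[k] A.V,
            augF (actL (lW A)).f (Wd.snoc u s ⊗ₜ[k] z) = 0 := fun z =>
          augF_snoc (R := A.V) (actL (lW A)).f u s z
        rw [e1, e1, map_zero]
    have e1 : augF (actL (lW A)).f (as2 A ((Wd.snoc w r ⊗ₜ[k] Wd.nil 1) ⊗ₜ[k] y)) = 0 :=
      augF_snoc (R := A.V) (actL (lW A)).f w r (Wd.nil 1 ⊗ₜ[k] y)
    rw [cut_snoc, TensorProduct.add_tmul, map_add, map_add, h1, hw, e1, zero_add]
    rfl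

theorem outAug_cut (v : (BW A).N.V) : (outAug A).f ((cutHom A).f v) = v := aug_cut A v

/-- `Bar(A, A, A)` has the property `Q` if `A` is perfect -/
theorem Q_BW (F : BMod A A) (h : PF A (BMod.diag A)) : Q F (BW A) := by
  have h1 : Q F (BMod.bar (BMod.diag A) (BW A)) := Q_of_PF F h
  exact Q.iso (cutHom A) (outAug A) (outAug_cut A) h1

/-- the identity of `Bar(A, A, A)` is homotopic to a map with finitely generated image -/
theorem exists_finite (h : PF A (BMod.diag A)) :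
    ∃ g h : (BW A).N.V →ₗ[k] (BW A).N.V,
      (∀ a x, g ((BW A).b.l.act a x) = (BW A).b.l.act a (g x)) ∧
      (∀ x a, g ((BW A).b.r.act x a) = (BW A).b.r.act (g x) a) ∧
      (∀ a x, h ((BW A).b.l.act a x) = (BW A).b.l.act (A.E a) (h x)) ∧
      (∀ x a, h ((BW A).b.r.act x a) = (BW A).b.r.act (h x) a) ∧
      (∀ x, g x = x + (BW A).N.D (h x) + h ((BW A).N.D x)) ∧
      ∃ S : Finset (BW A).N.V, ∀ x, g x ∈ Submodule.span k
        {m | ∃ s ∈ S, ∃ a b, m = (BW A).b.l.act a ((BW A).b.r.act s b)} := by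
  have h0 : cm false (BW A).N (BW A).N LinearMap.id = 0 := by
    ext x
    rw [cm_apply]
    change (BW A).N.D x - (1 : k) • (BW A).N.D x = 0
    rw [one_smul, sub_self]
  obtain ⟨h, hh, hfg⟩ := Q_BW A (BW A) h false LinearMap.id (Bil.id (BW A)) (by
    rw [h0]; exact FG.zero)
  obtain ⟨S, hS⟩ := hfg
  have hb : Bil false (BW A) (BW A) (LinearMap.id - cm true (BW A).N (BW A).N h) :=
    (Bil.id (BW A)).sub hh.cm
  refine ⟨LinearMap.id - cm true (BW A).N (BW A).N h, -h, hb.l, hb.r, fun a x => ?_,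
    fun x a => ?_, fun x => ?_, S, hS⟩
  · rw [LinearMap.neg_apply, LinearMap.neg_apply, map_neg, hh.l]
    rfl
  · rw [LinearMap.neg_apply, LinearMap.neg_apply, map_neg, hh.r]
    rfl
  · rw [LinearMap.sub_apply, cm_true_apply, LinearMap.neg_apply, LinearMap.neg_apply, map_neg,
      LinearMap.id_apply]
    abel

end

end PQ

end NC
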